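import Pool.Agent.Lib.MP_10e784_agV.Defs

/-!
# LEAF VD1: fibres of linear maps, the density for double covers

PROOF of `card_fib`.  The map `T : (ι → ZMod p) → (κ → ZMod p)`, `(T c) i = ∑_k c (i, k) w k`, is additive and surjective (`w k₀ ≠ 0`), so all the fibres have `p ^ (card) ` elements: `card (T ⁻¹' S) * p ^ card κ = card S * p ^ (card κ * card ι)`.
(`AddMonoidHom` of finite groups: `card_preimage` / all fibres are cosets of the kernel; or by the explicit bijection changing the coordinate `k₀`.)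
PROOF of `dens_sq`.  `card_fib` for `κ` = one point: the squares of `ZMod p` (with `0`) are `(p + 1)/2 ≤ (2/3) p` for `p ≥ 3`.  `bv z ≠ 0`: `bv (some z) (inl 0) = 1`, `bv none (inl last) = 1`.
-/

namespace MWS

open Finset

theorem bv_ne {F : Type*} [Field F] {d : ℕ} (z : Option (F × F)) : ∃ k : Bs d, bv z k ≠ 0 := by
  cases z with
  | none =>
    refine ⟨.inl (Fin.last d), ?_⟩
    show (if Fin.last d = Fin.last d then (1 : F) else 0) ≠ 0
    rw [if_pos rfl]
    exact one_ne_zero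
  | some z =>
    refine ⟨.inl 0, ?_⟩
    show z.1 ^ ((0 : Fin (d + 1)) : ℕ) ≠ 0
    rw [Fin.val_zero, pow_zero]
    exact one_ne_zero

/-- the additive map `c ↦ (∑_k c (i, k) w k)_i` -/
private def vdT {p : ℕ} {κ ι : Type} [Fintype ι] (w : ι → ZMod p) : (κ × ι → ZMod p) →+ (κ → ZMod p) where
  toFun c := fun i => ∑ k, c (i, k) * w k
  map_zero' := by
    funext i
    show ∑ k, (0 : ZMod p) * w k = 0
    exact Finset.sum_eq_zero fun k _ => zero_mul _
  map_add' c c' := by
    funext i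
    show ∑ k, (c (i, k) + c' (i, k)) * w k = ∑ k, c (i, k) * w k + ∑ k, c' (i, k) * w k
    rw [← Finset.sum_add_distrib]
    exact Finset.sum_congr rfl fun k _ => add_mul _ _ _

private theorem vdT_equiv {p : ℕ} [Fact p.Prime] {κ ι : Type} [Fintype κ] [Fintype ι] [DecidableEq κ]
    [DecidableEq ι] (w : ι → ZMod p) (hw : ∃ k, w k ≠ 0) (S : Set (κ → ZMod p)) :
    Nat.card {c : κ × ι → ZMod p // vdT (κ := κ) w c ∈ S} = Nat.card S * Nat.card (vdT (κ := κ) w).ker := by
  obtain ⟨k0, hk0⟩ := hw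
  have hr : ∀ s : κ → ZMod p, vdT (κ := κ) w (fun t => if t.2 = k0 then s t.1 * (w k0)⁻¹ else 0) = s := by
    intro s
    funext i
    show ∑ k, (if k = k0 then s i * (w k0)⁻¹ else 0) * w k = s i
    rw [Finset.sum_eq_single k0]
    · rw [if_pos rfl, mul_assoc, inv_mul_cancel₀ hk0, mul_one]
    · intro k _ hk
      rw [if_neg hk, zero_mul]
    · intro h
      exact absurd (Finset.mem_univ _) h
  rw [← Nat.card_prod]
  refine Nat.card_congr
    { toFun := fun c => (⟨vdT (κ := κ) w c.1, c.2⟩,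
        ⟨c.1 - (fun t => if t.2 = k0 then (vdT (κ := κ) w c.1) t.1 * (w k0)⁻¹ else 0), ?_⟩)
      invFun := fun x => ⟨(fun t => if t.2 = k0 then x.1.1 t.1 * (w k0)⁻¹ else 0) + x.2.1, ?_⟩
      left_inv := ?_
      right_inv := ?_ }
  · rw [AddMonoidHom.mem_ker, map_sub, hr, sub_self]
  · have h : vdT (κ := κ) w x.2.1 = 0 := x.2.2
    rw [map_add, hr, h, add_zero]
    exact x.1.2
  · intro c
    refine Subtype.ext ?_
    show (fun t => if t.2 = k0 then (vdT (κ := κ) w c.1) t.1 * (w k0)⁻¹ else 0) +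
      (c.1 - (fun t => if t.2 = k0 then (vdT (κ := κ) w c.1) t.1 * (w k0)⁻¹ else 0)) = c.1
    exact add_sub_cancel _ _
  · intro x
    have h : vdT (κ := κ) w x.2.1 = 0 := x.2.2
    have h1 : vdT (κ := κ) w ((fun t => if t.2 = k0 then x.1.1 t.1 * (w k0)⁻¹ else 0) + x.2.1) = x.1.1 := by
      rw [map_add, hr, h, add_zero]
    refine Prod.ext (Subtype.ext h1) (Subtype.ext ?_)
    show ((fun t => if t.2 = k0 then x.1.1 t.1 * (w k0)⁻¹ else 0) + x.2.1) -
      (fun t => if t.2 = k0 then (vdT (κ := κ) w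
        ((fun t => if t.2 = k0 then x.1.1 t.1 * (w k0)⁻¹ else 0) + x.2.1)) t.1 * (w k0)⁻¹ else 0) = x.2.1
    rw [h1]
    exact add_sub_cancel_left _ _

theorem card_fib {p : ℕ} [Fact p.Prime] {κ ι : Type} [Fintype κ] [Fintype ι] [DecidableEq κ] [DecidableEq ι]
    (w : ι → ZMod p) (hw : ∃ k, w k ≠ 0) (S : Set (κ → ZMod p)) :
    Nat.card {c : κ × ι → ZMod p // (fun i => ∑ k, c (i, k) * w k) ∈ S} * p ^ Fintype.card κ =
      Nat.card S * p ^ (Fintype.card κ * Fintype.card ι) := by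
  have h1 := vdT_equiv w hw S
  have h2 := vdT_equiv (κ := κ) w hw Set.univ
  have h3 : Nat.card {c : κ × ι → ZMod p // vdT (κ := κ) w c ∈ (Set.univ : Set (κ → ZMod p))} =
      p ^ (Fintype.card κ * Fintype.card ι) := by
    rw [Nat.card_congr (Equiv.subtypeUnivEquiv fun c => Set.mem_univ _), Nat.card_fun, Nat.card_zmod,
      Nat.card_eq_fintype_card, Fintype.card_prod]
  have h4 : Nat.card (Set.univ : Set (κ → ZMod p)) = p ^ Fintype.card κ := by
    rw [Nat.card_congr (Equiv.Set.univ _), Nat.card_fun, Nat.card_zmod, Nat.card_eq_fintype_card]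
  rw [h3, h4] at h2
  have h5 : Nat.card {c : κ × ι → ZMod p // (fun i => ∑ k, c (i, k) * w k) ∈ S} =
      Nat.card {c : κ × ι → ZMod p // vdT (κ := κ) w c ∈ S} := rfl
  rw [h5, h1, h2]
  ring

private theorem vd_sq {p : ℕ} [Fact p.Prime] : Nat.card {x : ZMod p // IsSquare x} ≤ p / 2 + 1 := by
  classical
  have hp : NeZero p := ⟨(Fact.out : p.Prime).ne_zero⟩
  have h1 : ∀ x : {x : ZMod p // IsSquare x}, ∃ m : Fin (p / 2 + 1), (((m : ℕ) : ZMod p) * ((m : ℕ) : ZMod p)) = x.1 := by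
    rintro ⟨x, r, rfl⟩
    refine ⟨⟨r.valMinAbs.natAbs, by have := ZMod.natAbs_valMinAbs_le r; omega⟩, ?_⟩
    show ((r.valMinAbs.natAbs : ℕ) : ZMod p) * ((r.valMinAbs.natAbs : ℕ) : ZMod p) = r * r
    have h2 : ((r.valMinAbs.natAbs : ℕ) : ZMod p) * ((r.valMinAbs.natAbs : ℕ) : ZMod p) =
        ((r.valMinAbs * r.valMinAbs : ℤ) : ZMod p) := by
      rw [← Int.natAbs_mul_self, Int.cast_natCast, Nat.cast_mul]
    rw [h2, Int.cast_mul, ZMod.coe_valMinAbs]
  choose f hf using h1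
  have hinj : Function.Injective f := by
    intro x y hxy
    refine Subtype.ext ?_
    rw [← hf x, ← hf y, hxy]
  have h2 := Nat.card_le_card_of_injective f hinj
  rwa [Nat.card_eq_fintype_card (α := Fin (p / 2 + 1)), Fintype.card_fin] at h2

theorem dens_sq {p : ℕ} [Fact p.Prime] (h2 : p ≠ 2) {d : ℕ} (hd : 1 ≤ d) (z : Option (ZMod p × ZMod p)) :
    (Nat.card {c : Bs d → ZMod p // IsSquare (∑ k, c k * bv z k)} : ℝ) ≤ (1 - 1 / 3) * (p : ℝ) ^ (2 * d) := by
  classical
  have hpp : p.Prime := Fact.out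
  have hp2 := hpp.two_le
  have hp3 : 3 ≤ p := by omega
  have hodd : p % 2 = 1 := by
    rcases hpp.eq_two_or_odd with h | h
    · exact absurd h h2
    · exact h
  have h1 := card_fib (κ := Unit) (fun k : Bs d => bv z k) (bv_ne z) {f : Unit → ZMod p | IsSquare (f ())}
  have h3 : Nat.card {c : Unit × Bs d → ZMod p // (fun i => ∑ k, c (i, k) * bv z k) ∈
      {f : Unit → ZMod p | IsSquare (f ())}} = Nat.card {c : Bs d → ZMod p // IsSquare (∑ k, c k * bv z k)} := by
    refine Nat.card_congr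
      { toFun := fun c => ⟨fun k => c.1 ((), k), c.2⟩
        invFun := fun c => ⟨fun t => c.1 t.2, c.2⟩
        left_inv := fun c => rfl
        right_inv := fun c => rfl }
  have h4 : Nat.card {f : Unit → ZMod p | IsSquare (f ())} = Nat.card {x : ZMod p // IsSquare x} := by
    refine Nat.card_congr
      { toFun := fun f => ⟨f.1 (), f.2⟩
        invFun := fun x => ⟨fun _ => x.1, x.2⟩
        left_inv := fun c => rfl
        right_inv := fun c => rfl }
  have h5 : Fintype.card (Bs d) = 2 * d := by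
    rw [Fintype.card_sum, Fintype.card_fin, Fintype.card_fin]
    omega
  rw [h3, h4, Fintype.card_unit, h5, one_mul, pow_one] at h1
  have h6 : (Nat.card {x : ZMod p // IsSquare x} : ℝ) ≤ 2 / 3 * (p : ℝ) := by
    have h7 : 3 * Nat.card {x : ZMod p // IsSquare x} ≤ 2 * p := by
      have := vd_sq (p := p)
      omega
    have h8 : (3 : ℝ) * (Nat.card {x : ZMod p // IsSquare x} : ℝ) ≤ 2 * (p : ℝ) := by exact_mod_cast h7
    linarith
  have hp0 : (0 : ℝ) < (p : ℝ) := by exact_mod_cast hpp.pos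
  have h9 : (Nat.card {c : Bs d → ZMod p // IsSquare (∑ k, c k * bv z k)} : ℝ) * (p : ℝ) =
      (Nat.card {x : ZMod p // IsSquare x} : ℝ) * (p : ℝ) ^ (2 * d) := by exact_mod_cast h1
  have h10 : 0 ≤ (p : ℝ) ^ (2 * d) := by positivity
  refine le_of_mul_le_mul_right ?_ hp0
  rw [h9]
  calc (Nat.card {x : ZMod p // IsSquare x} : ℝ) * (p : ℝ) ^ (2 * d) ≤ 2 / 3 * (p : ℝ) * (p : ℝ) ^ (2 * d) :=
        mul_le_mul_of_nonneg_right h6 h10
    _ = (1 - 1 / 3) * (p : ℝ) ^ (2 * d) * (p : ℝ) := by ring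

end MWS
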