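import Mathlib

/-!
# LEAF VA2: products of local functions, Chinese remainder theorem

For a vector `c` modulo `p₀` replace `a` by `a + c u`, where `u` is `1` modulo `p₀` and `0` modulo the other
primes, and sum over `c`.
-/

namespace MWS

open Finset

theorem crt_zero {ι : Type} [Fintype ι] [DecidableEq ι] (P : Finset ℕ) (hP : ∀ p ∈ P, p.Prime) (q : ℕ) [NeZero q]
    (hq : q = ∏ p ∈ P, p) (f : (p : ℕ) → (ι → ZMod p) → ℝ) (p₀ : ℕ) [NeZero p₀] (hp₀ : p₀ ∈ P)
    (h0 : ∑ b : ι → ZMod p₀, f p₀ b = 0) :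
    ∑ a : ι → ZMod q, ∏ p ∈ P, f p (fun i => ((a i).val : ZMod p)) = 0 := by
  classical
  have hdvd : ∀ p ∈ P, p ∣ q := fun p hp => hq ▸ Finset.dvd_prod_of_mem _ hp
  have hred : ∀ p (hp : p ∈ P) (x : ZMod q), ((x.val : ℕ) : ZMod p) = ZMod.castHom (hdvd p hp) (ZMod p) x := by
    intro p hp x
    rw [ZMod.natCast_val]
    rfl
  obtain ⟨q', hq'⟩ : ∃ q', q' = ∏ p ∈ P.erase p₀, p := ⟨_, rfl⟩
  have hcop : Nat.Coprime q' p₀ := by
    rw [hq']
    exact Nat.Coprime.prod_left fun p hp => (Nat.coprime_primes (hP p (Finset.mem_of_mem_erase hp))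
      (hP p₀ hp₀)).2 (Finset.ne_of_mem_erase hp)
  obtain ⟨u, hu⟩ : ∃ u : ZMod q, u = ((q' * ((q' : ZMod p₀)⁻¹).val : ℕ) : ZMod q) := ⟨_, rfl⟩
  have hu0 : ZMod.castHom (hdvd p₀ hp₀) (ZMod p₀) u = 1 := by
    rw [hu, map_natCast, Nat.cast_mul, ZMod.natCast_val, ZMod.cast_id]
    exact ZMod.coe_mul_inv_eq_one q' hcop
  have hu1 : ∀ p (hp : p ∈ P), p ≠ p₀ → ZMod.castHom (hdvd p hp) (ZMod p) u = 0 := by
    intro p hp hne
    rw [hu, map_natCast]
    refine (ZMod.natCast_eq_zero_iff _ _).2 (Dvd.dvd.mul_right ?_ _)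
    rw [hq']
    exact Finset.dvd_prod_of_mem _ (Finset.mem_erase.2 ⟨hne, hp⟩)
  have hF : ∀ (c : ι → ZMod p₀) (a : ι → ZMod q),
      ∏ p ∈ P, f p (fun i => ((((a + fun i => ((c i).val : ZMod q) * u) i).val : ℕ) : ZMod p)) =
        f p₀ ((fun i => ((a i).val : ZMod p₀)) + c) *
          ∏ p ∈ P.erase p₀, f p (fun i => ((a i).val : ZMod p)) := by
    intro c a
    rw [← Finset.mul_prod_erase P _ hp₀]
    congr 1
    · congr 1
      funext i
      rw [hred p₀ hp₀, Pi.add_apply, Pi.add_apply, map_add, map_mul, hu0, mul_one, map_natCast,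
        ← hred p₀ hp₀, ZMod.natCast_val (c i), ZMod.cast_id]
    · refine Finset.prod_congr rfl fun p hp => ?_
      congr 1
      funext i
      have hp' := Finset.mem_of_mem_erase hp
      rw [hred p hp', Pi.add_apply, map_add, map_mul, hu1 p hp' (Finset.ne_of_mem_erase hp), mul_zero,
        add_zero, hred p hp']
  have hshift : ∀ c : ι → ZMod p₀,
      ∑ a : ι → ZMod q, ∏ p ∈ P, f p (fun i => ((a i).val : ZMod p)) =
        ∑ a : ι → ZMod q, f p₀ ((fun i => ((a i).val : ZMod p₀)) + c) *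
          ∏ p ∈ P.erase p₀, f p (fun i => ((a i).val : ZMod p)) := by
    intro c
    rw [← Equiv.sum_comp (Equiv.addRight fun i => ((c i).val : ZMod q) * u)]
    exact Finset.sum_congr rfl fun a _ => hF c a
  have hsum : ∀ r : ι → ZMod p₀, ∑ c : ι → ZMod p₀, f p₀ (r + c) = 0 := by
    intro r
    rw [← h0]
    exact Equiv.sum_comp (Equiv.addLeft r) (f p₀)
  have htot : (Fintype.card (ι → ZMod p₀) : ℝ) *
      ∑ a : ι → ZMod q, ∏ p ∈ P, f p (fun i => ((a i).val : ZMod p)) = 0 := by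
    calc (Fintype.card (ι → ZMod p₀) : ℝ) *
          ∑ a : ι → ZMod q, ∏ p ∈ P, f p (fun i => ((a i).val : ZMod p))
        = ∑ _c : ι → ZMod p₀, ∑ a : ι → ZMod q, ∏ p ∈ P, f p (fun i => ((a i).val : ZMod p)) := by
          rw [Finset.sum_const, Finset.card_univ, nsmul_eq_mul]
      _ = ∑ c : ι → ZMod p₀, ∑ a : ι → ZMod q, f p₀ ((fun i => ((a i).val : ZMod p₀)) + c) *
            ∏ p ∈ P.erase p₀, f p (fun i => ((a i).val : ZMod p)) :=
          Finset.sum_congr rfl fun c _ => hshift c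
      _ = ∑ a : ι → ZMod q, (∑ c : ι → ZMod p₀, f p₀ ((fun i => ((a i).val : ZMod p₀)) + c)) *
            ∏ p ∈ P.erase p₀, f p (fun i => ((a i).val : ZMod p)) := by
          rw [Finset.sum_comm]
          exact Finset.sum_congr rfl fun a _ => (Finset.sum_mul _ _ _).symm
      _ = 0 := Finset.sum_eq_zero fun a _ => by rw [hsum, zero_mul]
  refine (mul_eq_zero.1 htot).resolve_left ?_
  exact_mod_cast Fintype.card_ne_zero

end MWS
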