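import Pool.Agent.Lib.MP_10e784_agV.VA1
import Pool.Agent.Lib.MP_10e784_agV.VA2

/-!
# LEAF VA3: the second moment in several variables

PROOF (as leaf MA of the folder agW, in `N = card ι` variables).  For `p ∈ S` let `ρ p = #(R p) / p ^ N ≤ 1 - κ` and `f p a = [a ∈ R p] - ρ p` on `ι → ZMod p`: mean zero, `|f p| ≤ 1`, `f p a = 1 - ρ p ≥ κ` on `R p`.
`Z c = ∑_{T ∈ S.powersetCard k} ∏_{p ∈ T} f p (c mod p)`; on the `c` of the statement `Z c ≥ κ ^ k b`, `b = choose |S| k`.  `∑_c Z c ^ 2 = ∑_{T, T'} ∑_c ∏_T f ∏_{T'} f`: for `T = T'` at most `(2 H + 1) ^ N`; for `T ≠ T'` put `P = T ∪ T'`, `q = ∏_P p ≤ X ^ (2 k)`,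
local factors `f p` (for `p` in exactly one of `T, T'`) or `(f p)²`: the complete sum is zero by `crt_zero` (some `p` is in exactly one of them), so by `boxsum` the sum over the box is at most `N q (2 H + 1) ^ (N - 1)` in absolute value.
Total `≤ b (2 H + 1) ^ N + b² N X ^ (2 k) (2 H + 1) ^ (N - 1) ≤ (N + 1) b (2 H + 1) ^ N` as `b ≤ X ^ k` and `X ^ (3 k) ≤ H` (for `N = 0` the second term is zero).  So `# κ ^ (2 k) b² ≤ (N + 1) b (2 H + 1) ^ N` (if `b = 0` the claim is trivial).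
-/

namespace MWS

open Finset

open Classical in
/-- the local function -/
noncomputable def VA3_f {ι : Type} [Fintype ι] (R : (p : ℕ) → Set (ι → ZMod p)) (p : ℕ)
    (a : ι → ZMod p) : ℝ :=
  (if a ∈ R p then 1 else 0) - (Nat.card (R p) : ℝ) / (p : ℝ) ^ (Fintype.card ι)

theorem VA3_rho {ι : Type} [Fintype ι] (R : (p : ℕ) → Set (ι → ZMod p)) {p : ℕ} (hp : p.Prime)
    {κ : ℝ} (hR : (Nat.card (R p) : ℝ) ≤ (1 - κ) * (p : ℝ) ^ (Fintype.card ι)) :
    0 ≤ (Nat.card (R p) : ℝ) / (p : ℝ) ^ (Fintype.card ι) ∧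
      (Nat.card (R p) : ℝ) / (p : ℝ) ^ (Fintype.card ι) ≤ 1 - κ := by
  have hp0 : (0 : ℝ) < (p : ℝ) ^ (Fintype.card ι) := by
    have : (0 : ℝ) < p := by exact_mod_cast hp.pos
    positivity
  refine ⟨by positivity, ?_⟩
  rw [div_le_iff₀ hp0]
  exact hR

theorem VA3_abs {ι : Type} [Fintype ι] (R : (p : ℕ) → Set (ι → ZMod p)) {p : ℕ} (hp : p.Prime)
    {κ : ℝ} (hκ : 0 < κ)
    (hR : (Nat.card (R p) : ℝ) ≤ (1 - κ) * (p : ℝ) ^ (Fintype.card ι)) (a : ι → ZMod p) :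
    |VA3_f R p a| ≤ 1 := by
  obtain ⟨h1, h2⟩ := VA3_rho R hp hR
  unfold VA3_f
  rw [abs_le]
  split_ifs <;> constructor <;> linarith

theorem VA3_low {ι : Type} [Fintype ι] (R : (p : ℕ) → Set (ι → ZMod p)) {p : ℕ} (hp : p.Prime)
    {κ : ℝ} (hR : (Nat.card (R p) : ℝ) ≤ (1 - κ) * (p : ℝ) ^ (Fintype.card ι)) {a : ι → ZMod p}
    (ha : a ∈ R p) : κ ≤ VA3_f R p a := by
  obtain ⟨h1, h2⟩ := VA3_rho R hp hR
  unfold VA3_f
  rw [if_pos ha]
  linarith

open Classical in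
theorem VA3_sum {ι : Type} [Fintype ι] [DecidableEq ι] (R : (p : ℕ) → Set (ι → ZMod p)) (p : ℕ)
    [NeZero p] : ∑ b : ι → ZMod p, VA3_f R p b = 0 := by
  unfold VA3_f
  rw [Finset.sum_sub_distrib, Finset.sum_const, Finset.card_univ, Fintype.card_fun, ZMod.card,
    Finset.sum_boole, nsmul_eq_mul]
  have h1 : Nat.card (R p) = (Finset.univ.filter fun b : ι → ZMod p => b ∈ R p).card :=
    Nat.subtype_card _ fun b => by simp
  have hp0 : (p : ℝ) ≠ 0 := by exact_mod_cast NeZero.ne p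
  rw [h1]
  push_cast
  rw [mul_div_cancel₀ _ (pow_ne_zero _ hp0)]
  exact sub_self _

theorem VA3_cast {q p : ℕ} [NeZero q] (h : p ∣ q) (c : ℤ) :
    (((((c : ℤ) : ZMod q)).val : ℕ) : ZMod p) = ((c : ℤ) : ZMod p) := by
  rw [ZMod.natCast_val, ZMod.cast_intCast h]

/-- the correlation of two different sets of primes -/
theorem VA3_corr {ι : Type} [Fintype ι] [DecidableEq ι] (S : Finset ℕ) (X k H : ℕ) (κ : ℝ)
    (hκ : 0 < κ) (R : (p : ℕ) → Set (ι → ZMod p)) (hS : ∀ p ∈ S, p.Prime ∧ p ≤ X)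
    (hR : ∀ p ∈ S, (Nat.card (R p) : ℝ) ≤ (1 - κ) * (p : ℝ) ^ (Fintype.card ι))
    {T T' : Finset ℕ} (hT : T ∈ S.powersetCard k) (hT' : T' ∈ S.powersetCard k) (hne : T ≠ T') :
    ∑ c ∈ Fintype.piFinset (fun _ : ι => Icc (-(H : ℤ)) H),
      (∏ p ∈ T, VA3_f R p (fun i => ((c i : ℤ) : ZMod p))) *
        ∏ p ∈ T', VA3_f R p (fun i => ((c i : ℤ) : ZMod p)) ≤
      (Fintype.card ι : ℝ) * (X : ℝ) ^ (2 * k) * (2 * (H : ℝ) + 1) ^ (Fintype.card ι - 1) := by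
  obtain ⟨hTS, hTc⟩ := Finset.mem_powersetCard.1 hT
  obtain ⟨hTS', hTc'⟩ := Finset.mem_powersetCard.1 hT'
  set P : Finset ℕ := T ∪ T' with hP
  have hPS : P ⊆ S := Finset.union_subset hTS hTS'
  have hPp : ∀ p ∈ P, p.Prime := fun p hp => (hS p (hPS hp)).1
  set q : ℕ := ∏ p ∈ P, p with hq
  have hq0 : q ≠ 0 := Finset.prod_ne_zero_iff.2 fun p hp => (hPp p hp).ne_zero
  have : NeZero q := ⟨hq0⟩
  set g : (p : ℕ) → (ι → ZMod p) → ℝ := fun p a =>
    (if p ∈ T then VA3_f R p a else 1) * (if p ∈ T' then VA3_f R p a else 1) with hg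
  have hg1 : ∀ p ∈ P, ∀ a, |g p a| ≤ 1 := by
    intro p hp a
    have h1 := VA3_abs R (hPp p hp) hκ (hR p (hPS hp)) a
    rw [hg]
    simp only [abs_mul]
    refine mul_le_one₀ ?_ (abs_nonneg _) ?_
    · split_ifs
      · exact h1
      · rw [abs_one]
    · split_ifs
      · exact h1
      · rw [abs_one]
  set G : (ι → ZMod q) → ℝ := fun a => ∏ p ∈ P, g p (fun i => ((a i).val : ZMod p)) with hG
  have hG1 : ∀ a, |G a| ≤ 1 := by
    intro a
    rw [hG]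
    simp only [Finset.abs_prod]
    exact Finset.prod_le_one (fun p _ => abs_nonneg _) fun p hp => hg1 p hp _
  obtain ⟨p₀, hp₀⟩ : ∃ p₀, ¬ (p₀ ∈ T ↔ p₀ ∈ T') := by
    by_contra hc
    push Not at hc
    exact hne (Finset.ext hc)
  have hp₀P : p₀ ∈ P := by
    rw [hP, Finset.mem_union]
    tauto
  have : NeZero p₀ := ⟨(hPp p₀ hp₀P).ne_zero⟩
  have hz : ∑ b : ι → ZMod p₀, g p₀ b = 0 := by
    have h1 : ∀ b, g p₀ b = VA3_f R p₀ b := by
      intro b
      rw [hg]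
      simp only
      by_cases h2 : p₀ ∈ T
      · have h3 : p₀ ∉ T' := by tauto
        rw [if_pos h2, if_neg h3, mul_one]
      · have h3 : p₀ ∈ T' := by tauto
        rw [if_neg h2, if_pos h3, one_mul]
    rw [Finset.sum_congr rfl fun b _ => h1 b]
    exact VA3_sum R p₀
  have hG0 : ∑ a, G a = 0 := crt_zero P hPp q rfl g p₀ hp₀P hz
  have hbox := boxsum q G hG1 hG0 H
  have hterm : ∀ c : ι → ℤ, G (fun i => ((c i : ℤ) : ZMod q)) =
      (∏ p ∈ T, VA3_f R p (fun i => ((c i : ℤ) : ZMod p))) *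
        ∏ p ∈ T', VA3_f R p (fun i => ((c i : ℤ) : ZMod p)) := by
    intro c
    rw [hG]
    simp only
    have h1 : ∀ p ∈ P, g p (fun i => ((((c i : ℤ) : ZMod q)).val : ZMod p)) =
        g p (fun i => ((c i : ℤ) : ZMod p)) := by
      intro p hp
      congr 1
      funext i
      exact VA3_cast (Finset.dvd_prod_of_mem _ hp) (c i)
    rw [Finset.prod_congr rfl h1, hg]
    simp only
    rw [Finset.prod_mul_distrib]
    congr 1
    · rw [Finset.prod_ite_mem, hP, Finset.union_inter_cancel_left]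
    · rw [Finset.prod_ite_mem, hP, Finset.union_inter_cancel_right]
  rw [Finset.sum_congr rfl fun c _ => (hterm c).symm]
  refine (le_abs_self _).trans (hbox.trans ?_)
  have hX1 : 1 ≤ X := (hPp p₀ hp₀P).one_lt.le.trans (hS p₀ (hPS hp₀P)).2
  have hqX : (q : ℝ) ≤ (X : ℝ) ^ (2 * k) := by
    have h1 : q ≤ X ^ P.card := by
      rw [hq, ← Finset.prod_const]
      exact Finset.prod_le_prod' fun p hp => (hS p (hPS hp)).2
    have h2 : P.card ≤ 2 * k := by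
      rw [hP]
      refine (Finset.card_union_le _ _).trans ?_
      omega
    exact_mod_cast h1.trans (Nat.pow_le_pow_right hX1 h2)
  have h3 : (0 : ℝ) ≤ (2 * (H : ℝ) + 1) ^ (Fintype.card ι - 1) := by positivity
  exact mul_le_mul_of_nonneg_right (mul_le_mul_of_nonneg_left hqX (Nat.cast_nonneg _)) h3

theorem momentN {ι : Type} [Fintype ι] [DecidableEq ι] (S : Finset ℕ) (X k H : ℕ) (κ : ℝ) (hκ : 0 < κ) (hκ1 : κ ≤ 1)
    (R : (p : ℕ) → Set (ι → ZMod p)) (hS : ∀ p ∈ S, p.Prime ∧ p ≤ X)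
    (hR : ∀ p ∈ S, (Nat.card (R p) : ℝ) ≤ (1 - κ) * (p : ℝ) ^ (Fintype.card ι)) (hH : X ^ (3 * k) ≤ H) (h1 : 1 ≤ H) :
    (Nat.card {c : ι → ℤ // (∀ i, |c i| ≤ (H : ℤ)) ∧ ∀ p ∈ S, (fun i => ((c i : ℤ) : ZMod p)) ∈ R p} : ℝ) *
      κ ^ (2 * k) * (S.card.choose k : ℝ) ≤ ((Fintype.card ι : ℝ) + 1) * (2 * (H : ℝ) + 1) ^ (Fintype.card ι) := by
  classical
  set N : ℕ := Fintype.card ι with hN
  set B : Finset (ι → ℤ) := Fintype.piFinset (fun _ : ι => Icc (-(H : ℤ)) H) with hB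
  have hBc : (B.card : ℝ) = (2 * (H : ℝ) + 1) ^ N := by
    have h2 : (Icc (-(H : ℤ)) H).card = 2 * H + 1 := by
      rw [Int.card_Icc]
      omega
    rw [hB, Fintype.card_piFinset, Finset.prod_const, h2, Finset.card_univ]
    push_cast
    rfl
  set Gs : Finset (ι → ℤ) := B.filter fun c => ∀ p ∈ S, (fun i => ((c i : ℤ) : ZMod p)) ∈ R p
    with hGs
  have hcard : Nat.card {c : ι → ℤ // (∀ i, |c i| ≤ (H : ℤ)) ∧
      ∀ p ∈ S, (fun i => ((c i : ℤ) : ZMod p)) ∈ R p} = Gs.card := by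
    refine Nat.subtype_card _ fun c => ?_
    rw [hGs, Finset.mem_filter, hB, Fintype.mem_piFinset]
    refine and_congr (forall_congr' fun i => ?_) Iff.rfl
    rw [Finset.mem_Icc, abs_le]
  rw [hcard]
  set b : ℝ := (S.card.choose k : ℝ) with hb
  have hb0 : 0 ≤ b := Nat.cast_nonneg _
  have hK : (0 : ℝ) ≤ 2 * (H : ℝ) + 1 := by positivity
  rcases hb0.eq_or_lt with hb1 | hb1
  · rw [← hb1, mul_zero]
    positivity
  set Z : (ι → ℤ) → ℝ := fun c => ∑ T ∈ S.powersetCard k,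
    ∏ p ∈ T, VA3_f R p (fun i => ((c i : ℤ) : ZMod p)) with hZ
  have hpc : ((S.powersetCard k).card : ℝ) = b := by
    rw [Finset.card_powersetCard]
  have hlow : ∀ c ∈ Gs, κ ^ k * b ≤ Z c := by
    intro c hc
    have hc' := (Finset.mem_filter.1 hc).2
    have h2 : ∑ _T ∈ S.powersetCard k, κ ^ k ≤ Z c := by
      refine Finset.sum_le_sum fun T hT => ?_
      obtain ⟨hTS, hTc⟩ := Finset.mem_powersetCard.1 hT
      rw [← hTc, ← Finset.prod_const]
      exact Finset.prod_le_prod (fun p _ => hκ.le) fun p hp =>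
        VA3_low R (hS p (hTS hp)).1 (hR p (hTS hp)) (hc' p (hTS hp))
    rw [Finset.sum_const, nsmul_eq_mul, hpc, mul_comm] at h2
    exact h2
  have hsq : ∀ c, Z c ^ 2 = ∑ T ∈ S.powersetCard k, ∑ T' ∈ S.powersetCard k,
      (∏ p ∈ T, VA3_f R p (fun i => ((c i : ℤ) : ZMod p))) *
        ∏ p ∈ T', VA3_f R p (fun i => ((c i : ℤ) : ZMod p)) := by
    intro c
    rw [sq, hZ, Finset.sum_mul_sum]
  set W : ℝ := (N : ℝ) * (X : ℝ) ^ (2 * k) * (2 * (H : ℝ) + 1) ^ (N - 1) with hW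
  have hW0 : 0 ≤ W := by positivity
  have hup : ∑ c ∈ B, Z c ^ 2 ≤ ∑ T ∈ S.powersetCard k, ∑ T' ∈ S.powersetCard k,
      (W + if T = T' then (2 * (H : ℝ) + 1) ^ N else 0) := by
    have h2 : ∑ c ∈ B, Z c ^ 2 = ∑ T ∈ S.powersetCard k, ∑ T' ∈ S.powersetCard k,
        ∑ c ∈ B, (∏ p ∈ T, VA3_f R p (fun i => ((c i : ℤ) : ZMod p))) *
          ∏ p ∈ T', VA3_f R p (fun i => ((c i : ℤ) : ZMod p)) := by
      rw [Finset.sum_congr rfl fun c _ => hsq c, Finset.sum_comm]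
      refine Finset.sum_congr rfl fun T _ => ?_
      rw [Finset.sum_comm]
    rw [h2]
    refine Finset.sum_le_sum fun T hT => Finset.sum_le_sum fun T' hT' => ?_
    by_cases hTT : T = T'
    · rw [if_pos hTT, ← hTT]
      have h3 : ∀ c ∈ B, (∏ p ∈ T, VA3_f R p (fun i => ((c i : ℤ) : ZMod p))) *
          ∏ p ∈ T, VA3_f R p (fun i => ((c i : ℤ) : ZMod p)) ≤ 1 := by
        intro c _
        obtain ⟨hTS, hTc⟩ := Finset.mem_powersetCard.1 hT
        have h4 : |∏ p ∈ T, VA3_f R p (fun i => ((c i : ℤ) : ZMod p))| ≤ 1 := by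
          rw [Finset.abs_prod]
          exact Finset.prod_le_one (fun p _ => abs_nonneg _) fun p hp =>
            VA3_abs R (hS p (hTS hp)).1 hκ (hR p (hTS hp)) _
        rw [← abs_mul_abs_self]
        exact mul_le_one₀ h4 (abs_nonneg _) h4
      have h5 := Finset.sum_le_sum h3
      rw [Finset.sum_const, nsmul_eq_mul, hBc, mul_one] at h5
      linarith
    · rw [if_neg hTT, add_zero]
      exact VA3_corr S X k H κ hκ R hS hR hT hT' hTT
  have hup2 : ∑ T ∈ S.powersetCard k, ∑ T' ∈ S.powersetCard k,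
      (W + if T = T' then (2 * (H : ℝ) + 1) ^ N else 0) = b * (b * W) + b * (2 * (H : ℝ) + 1) ^ N := by
    have h2 : ∀ T ∈ S.powersetCard k, ∑ T' ∈ S.powersetCard k,
        (W + if T = T' then (2 * (H : ℝ) + 1) ^ N else 0) = b * W + (2 * (H : ℝ) + 1) ^ N := by
      intro T hT
      rw [Finset.sum_add_distrib, Finset.sum_const, nsmul_eq_mul, hpc, Finset.sum_ite_eq,
        if_pos hT]
    rw [Finset.sum_congr rfl h2, Finset.sum_const, nsmul_eq_mul, hpc]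
    ring
  have hbX : b ≤ (X : ℝ) ^ k := by
    have h2 : S.card ≤ X := by
      have h3 : S ⊆ Finset.Icc 1 X := fun p hp => by
        rw [Finset.mem_Icc]
        exact ⟨(hS p hp).1.pos, (hS p hp).2⟩
      simpa using Finset.card_le_card h3
    have h4 : S.card.choose k ≤ X ^ k :=
      (Nat.choose_le_pow _ _).trans (Nat.pow_le_pow_left h2 k)
    rw [hb]
    exact_mod_cast h4
  have hbW : b * W ≤ (N : ℝ) * (2 * (H : ℝ) + 1) ^ N := by
    rcases Nat.eq_zero_or_pos N with h0 | h0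
    · rw [hW, h0]
      simp
    · have h2 : (X : ℝ) ^ k * (X : ℝ) ^ (2 * k) ≤ H := by
        rw [← pow_add]
        have : k + 2 * k = 3 * k := by ring
        rw [this]
        exact_mod_cast hH
      have h3 : b * (X : ℝ) ^ (2 * k) ≤ 2 * (H : ℝ) + 1 := by
        have h4 := mul_le_mul_of_nonneg_right hbX (show (0 : ℝ) ≤ (X : ℝ) ^ (2 * k) by positivity)
        have h5 : (0 : ℝ) ≤ H := Nat.cast_nonneg _
        linarith
      have h6 : (2 * (H : ℝ) + 1) ^ N = (2 * (H : ℝ) + 1) * (2 * (H : ℝ) + 1) ^ (N - 1) := by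
        rw [← pow_succ']
        congr 1
        omega
      calc b * W = (N : ℝ) * (b * (X : ℝ) ^ (2 * k)) * (2 * (H : ℝ) + 1) ^ (N - 1) := by
            rw [hW]; ring
        _ ≤ (N : ℝ) * (2 * (H : ℝ) + 1) * (2 * (H : ℝ) + 1) ^ (N - 1) := by
            refine mul_le_mul_of_nonneg_right ?_ (by positivity)
            exact mul_le_mul_of_nonneg_left h3 (Nat.cast_nonneg _)
        _ = (N : ℝ) * (2 * (H : ℝ) + 1) ^ N := by
            rw [h6]; ring
  have hfin : ∑ c ∈ B, Z c ^ 2 ≤ b * (((N : ℝ) + 1) * (2 * (H : ℝ) + 1) ^ N) := by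
    rw [hup2] at hup
    have h2 := mul_le_mul_of_nonneg_left hbW hb0
    linarith
  have hG2 : (Gs.card : ℝ) * (κ ^ k * b) ^ 2 ≤ b * (((N : ℝ) + 1) * (2 * (H : ℝ) + 1) ^ N) := by
    refine le_trans ?_ hfin
    have h2 : ∑ _c ∈ Gs, (κ ^ k * b) ^ 2 ≤ ∑ c ∈ Gs, Z c ^ 2 :=
      Finset.sum_le_sum fun c hc => pow_le_pow_left₀ (by positivity) (hlow c hc) 2
    rw [Finset.sum_const, nsmul_eq_mul] at h2
    exact h2.trans (Finset.sum_le_sum_of_subset_of_nonneg (Finset.filter_subset _ _)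
      fun c _ _ => sq_nonneg _)
  have h5 : b * ((Gs.card : ℝ) * κ ^ (2 * k) * b) ≤
      b * (((N : ℝ) + 1) * (2 * (H : ℝ) + 1) ^ N) := by
    have h6 : b * ((Gs.card : ℝ) * κ ^ (2 * k) * b) = (Gs.card : ℝ) * (κ ^ k * b) ^ 2 := by
      rw [mul_pow, ← pow_mul, mul_comm k 2]
      ring
    rw [h6]
    exact hG2
  exact le_of_mul_le_mul_left h5 hb1

end MWS
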