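import Pool.Agent.Lib.MP_10e784_agV.Defs
import Pool.Agent.Lib.MP_10e784_agW.GA
import Pool.Agent.Lib.MP_10e784_agW.RC
import Pool.Agent.Lib.MP_10e784_agW.RD

/-!
# LEAF VG: good primes and classes

PROOF of `gd_of`: `M' = 210 * M * (dsc α β).natAbs`: a prime not dividing it is not `2`, `3`, `5`, `7`, does not divide `M` nor `dsc α β`.
PROOF of `cls_of`: `classes` for `Pt ℚ α β` (`mw`).
PROOF of `rd_cls`: `kill` and `p + 1 ∣ L`, then `rd_class`.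
-/

namespace MWS

theorem gd_of {α β D : ℤ} {M : ℕ} (hd : dsc α β ≠ 0) (h : SSq α β D M) :
    Gd α β D (210 * M * (dsc α β).natAbs) := by
  refine ⟨hd, Nat.mul_ne_zero (Nat.mul_ne_zero (by norm_num) h.2.1) (Int.natAbs_ne_zero.mpr hd), ?_⟩
  intro p hp hpM
  refine ⟨?_, ?_, fun hsq => h.2.2 p hp ?_ hsq⟩
  · rintro rfl
    exact hpM (dvd_mul_of_dvd_left (dvd_mul_of_dvd_left (by norm_num) _) _)
  · intro hdiv
    exact hpM (dvd_mul_of_dvd_right (Int.natCast_dvd.mp hdiv) _)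
  · intro hdiv
    exact hpM (dvd_mul_of_dvd_left (dvd_mul_of_dvd_right hdiv _) _)

theorem gd_mul {α β D : ℤ} {M : ℕ} (h : Gd α β D M) (M' : ℕ) (hM' : M' ≠ 0) : Gd α β D (M * M') :=
  ⟨h.1, Nat.mul_ne_zero h.2.1 hM', fun p hp hpM =>
    h.2.2 p hp (fun hdiv => hpM (dvd_mul_of_dvd_left hdiv _))⟩

theorem cls_of {α β D : ℤ} {M : ℕ} (h : Gd α β D M) : ∃ s : ℕ, Cls α β D M s := by
  have := mw h.1
  obtain ⟨s, hs⟩ := classes (Pt ℚ α β)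
  exact ⟨s, fun L hL _ => hs L hL⟩

theorem rd_cls {p : ℕ} (hp : p.Prime) {α β D : ℤ} {M : ℕ} (h : Gd α β D M) (hM : ¬ p ∣ M)
    (hD : ¬ IsSquare ((D : ℤ) : ZMod p)) {L : ℕ} (hL : p + 1 ∣ L) (P Q : Pt ℚ α β) :
    rd p (P + L • Q) = rd p P := by
  have : Fact p.Prime := ⟨hp⟩
  obtain ⟨h2, h3, h4⟩ := h.2.2 p hp hM
  refine rd_class h2 h3 L (fun R => ?_) P Q
  obtain ⟨c, rfl⟩ := hL
  rw [mul_comm, mul_smul, kill h2 h3 (h4 hD), smul_zero]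

end MWS
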