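import Pool.Agent.Lib.MP_10e784_agW.FA

/-!
# LEAF VP: the choice of the parameters, uniform version

PROOF (as leaf FA of the folder agW).  `B = (1 + A)/2`, `1 < B < A`; `x = ℓ ^ B`, `ℓ = log H`; `η = min (B - 1) (1 - B/A) / 4 > 0`, `ε = 1 - 1/B`, `δ = ε / 50`; `k = ⌊ℓ / (3 log x)⌋₊`, `y = ⌊x ^ (1/A)⌋₊`, `L = (primorial y) ^ (Nat.log 2 ⌊x + 1⌋₊)`.
(1) - (4) as in `FA` (`dvd_prim`, `FA_event`).  (5) `s ≤ ℓ ^ η`: `s log L ≤ 4 ℓ^η x ^ (1/A) log (x + 1) = ℓ ^ (η + B/A + o(1)) ≤ δ ℓ` for `H` large (`η + B/A < 1`), so `L ^ s ≤ H ^ δ`.  (6) `(N + 1) 3 ^ N ≤ H ^ δ` for `H` large; `κ ^ (2 k) ≥ exp (- 2 k log (1/κ)) ≥ H ^ (-δ)` as `k ≤ ℓ / (3 log x)` and `log x → ∞`.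
(7) `m log (x / K) ≤ ℓ ^ (1 + η)` gives `m ≤ ℓ ^ (1 + η) ≤ x ^ ((1 + η)/B) ≤ x / (2 K log x) ≤ n / 2` for `H` large (`(1 + η)/B < 1`), so `n - m ≥ n / 2 ≥ x / (2 K log x)` and `choose (n - m) k ≥ ((n - m)/k) ^ k ≥ (x ^ (ε/2)) ^ k ≥ H ^ (ε / 12) ≥ H ^ (4 δ)` (`choose_lower`, `k log x ≥ ℓ / 6`).
Together `L ^ s (N + 1) 3 ^ N H ^ δ ≤ H ^ (3 δ) ≤ H ^ (-δ) H ^ (4 δ) ≤ κ ^ (2 k) choose (n - m) k`.
-/

namespace MWS

open Filter Topology

private theorem VP_event (A B δ η K κ : ℝ) (N : ℕ) (hB : 1 < B) (hδ : 0 < δ)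
    (hη1 : 1 + η < B) (hη2 : η + B / A < 1) (hK : 1 ≤ K) :
    ∀ᶠ l : ℝ in atTop,
      l ^ η * ((2 * Real.log (l ^ B + 1)) * (l ^ (B / A) * Real.log 4)) ≤ δ * l ∧
      Real.log (((N : ℝ) + 1) * 3 ^ N) ≤ δ * l ∧
      2 * Real.log (1 / κ) ≤ 3 * δ * Real.log (l ^ B) ∧
      1 ≤ Real.log (l ^ B / K) ∧ l ^ (1 + η) * (2 * K * Real.log (l ^ B)) ≤ l ^ B := by
  have hB0 : 0 < B := by linarith
  have hK0 : 0 < K := by linarith
  have t1 : Tendsto (fun l : ℝ => l ^ B) atTop atTop := tendsto_rpow_atTop hB0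
  have e0 : ∀ᶠ l : ℝ in atTop, 2 ≤ l := eventually_ge_atTop 2
  have hr : 0 < 1 - B / A - η := by linarith
  have hr' : 0 < B - (1 + η) := by linarith
  have hc4 : 0 < Real.log 4 := Real.log_pos (by norm_num)
  have hC : 0 < δ / (2 * (1 + B) * Real.log 4) := by positivity
  have e1 := (isLittleO_log_rpow_atTop hr).bound hC
  have e2 : ∀ᶠ l : ℝ in atTop, Real.log (((N : ℝ) + 1) * 3 ^ N) ≤ δ * l :=
    (tendsto_id.const_mul_atTop hδ).eventually_ge_atTop _
  have e3 : ∀ᶠ l : ℝ in atTop, 2 * Real.log (1 / κ) ≤ 3 * δ * Real.log (l ^ B) :=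
    ((Real.tendsto_log_atTop.comp t1).const_mul_atTop (by positivity : 0 < 3 * δ)).eventually_ge_atTop _
  have e4 : ∀ᶠ l : ℝ in atTop, 1 ≤ Real.log (l ^ B / K) :=
    (Real.tendsto_log_atTop.comp (t1.atTop_div_const hK0)).eventually_ge_atTop 1
  have e5 := (isLittleO_log_rpow_atTop hr').bound (show 0 < 1 / (2 * K * B) by positivity)
  filter_upwards [e0, e1, e2, e3, e4, e5] with l h0 h1 h2 h3 h4 h5
  have hl : 0 < l := by linarith
  have hlog : 0 ≤ Real.log l := Real.log_nonneg (by linarith)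
  have hlogB : Real.log (l ^ B) = B * Real.log l := Real.log_rpow hl B
  refine ⟨?_, h2, h3, h4, ?_⟩
  · rw [Real.norm_of_nonneg hlog, Real.norm_of_nonneg (Real.rpow_nonneg hl.le _)] at h1
    have g1 : Real.log (l ^ B + 1) ≤ (1 + B) * Real.log l := by
      have h7 : 1 ≤ l ^ B := Real.one_le_rpow (by linarith) hB0.le
      have h8 : l ^ B + 1 ≤ l * l ^ B := by nlinarith
      calc Real.log (l ^ B + 1) ≤ Real.log (l * l ^ B) := Real.log_le_log (by positivity) h8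
        _ = (1 + B) * Real.log l := by
          rw [Real.log_mul hl.ne' (by positivity), hlogB]
          ring
    have hpow : l ^ η * l ^ (B / A) * l ^ (1 - B / A - η) = l := by
      rw [← Real.rpow_add hl, ← Real.rpow_add hl]
      have : η + B / A + (1 - B / A - η) = 1 := by ring
      rw [this, Real.rpow_one]
    have hP : 0 < l ^ (B / A) := Real.rpow_pos_of_pos hl _
    have hQ : 0 < l ^ η := Real.rpow_pos_of_pos hl _
    calc l ^ η * ((2 * Real.log (l ^ B + 1)) * (l ^ (B / A) * Real.log 4))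
        ≤ l ^ η * ((2 * ((1 + B) * Real.log l)) * (l ^ (B / A) * Real.log 4)) := by gcongr
      _ = (l ^ η * l ^ (B / A)) * (2 * (1 + B) * Real.log 4) * Real.log l := by ring
      _ ≤ (l ^ η * l ^ (B / A)) * (2 * (1 + B) * Real.log 4) *
          (δ / (2 * (1 + B) * Real.log 4) * l ^ (1 - B / A - η)) := by gcongr
      _ = (2 * (1 + B) * Real.log 4) * (δ / (2 * (1 + B) * Real.log 4)) *
          (l ^ η * l ^ (B / A) * l ^ (1 - B / A - η)) := by ring
      _ = δ * l := by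
        rw [hpow, mul_div_cancel₀ _ (by positivity : (2 * (1 + B) * Real.log 4) ≠ 0)]
  · rw [Real.norm_of_nonneg hlog, Real.norm_of_nonneg (Real.rpow_nonneg hl.le _)] at h5
    have hP : 0 < l ^ (1 + η) := Real.rpow_pos_of_pos hl _
    calc l ^ (1 + η) * (2 * K * Real.log (l ^ B))
        = l ^ (1 + η) * (2 * K * B) * Real.log l := by rw [hlogB]; ring
      _ ≤ l ^ (1 + η) * (2 * K * B) * (1 / (2 * K * B) * l ^ (B - (1 + η))) := by gcongr
      _ = (2 * K * B) * (1 / (2 * K * B)) * (l ^ (1 + η) * l ^ (B - (1 + η))) := by ring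
      _ = l ^ B := by
        rw [mul_one_div_cancel (by positivity : (2 * K * B) ≠ 0), one_mul, ← Real.rpow_add hl]
        congr 1
        ring

theorem params2 (A : ℝ) (hA : 1 < A) (hA2 : A ≤ 2) : ∃ δ η : ℝ, 0 < δ ∧ 0 < η ∧ ∀ (K x0 κ : ℝ) (N : ℕ), 1 ≤ K →
    0 < κ → κ ≤ 1 → ∃ H0 : ℕ, ∀ H : ℕ, H0 ≤ H → ∃ (x : ℝ) (k L : ℕ), x0 ≤ x ∧ ⌊x⌋₊ ^ (3 * k) ≤ H ∧ 1 ≤ L ∧
      (∀ n : ℕ, 1 ≤ n → (n : ℝ) ≤ x + 1 → (∀ q : ℕ, q.Prime → q ∣ n → (q : ℝ) ^ A ≤ x) → n ∣ L) ∧
      (∀ s n m : ℕ, (s : ℝ) ≤ (Real.log H) ^ η → x / (K * Real.log x) ≤ (n : ℝ) →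
        (m : ℝ) * Real.log (x / K) ≤ (Real.log H) ^ (1 + η) →
        1 ≤ n - m ∧ (L : ℝ) ^ s * (((N : ℝ) + 1) * 3 ^ N) * (H : ℝ) ^ δ ≤ κ ^ (2 * k) * ((n - m).choose k : ℝ)) := by
  obtain ⟨B, hB⟩ : ∃ B : ℝ, B = (1 + A) / 2 := ⟨_, rfl⟩
  have hB1 : 1 < B := by rw [hB]; linarith
  have hBA : B < A := by rw [hB]; linarith
  have hB0 : 0 < B := by linarith
  have hA0 : 0 < A := by linarith
  obtain ⟨δ, hδ⟩ : ∃ δ : ℝ, δ = (1 - 1 / B) / 50 := ⟨_, rfl⟩
  have hε : 0 < 1 - 1 / B := by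
    rw [sub_pos, div_lt_one hB0]
    exact hB1
  have hBA1 : 0 < 1 - B / A := by
    rw [sub_pos, div_lt_one hA0]
    exact hBA
  have hδ0 : 0 < δ := by rw [hδ]; positivity
  obtain ⟨η, hη⟩ : ∃ η : ℝ, η = min (B - 1) (1 - B / A) / 4 := ⟨_, rfl⟩
  have hη0 : 0 < η := by
    rw [hη]
    have : 0 < min (B - 1) (1 - B / A) := lt_min (by linarith) hBA1
    positivity
  have hη1 : 1 + η < B := by
    have h1 : min (B - 1) (1 - B / A) ≤ B - 1 := min_le_left _ _
    rw [hη]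
    linarith
  have hη2 : η + B / A < 1 := by
    have h1 : min (B - 1) (1 - B / A) ≤ 1 - B / A := min_le_right _ _
    rw [hη]
    linarith
  refine ⟨δ, η, hδ0, hη0, fun K x0 κ N hK hκ hκ1 => ?_⟩
  obtain ⟨l0, hl0⟩ := eventually_atTop.1 (FA_event A B δ K x0 0 hA hB1 hBA hδ0 hK)
  obtain ⟨l1, hl1⟩ := eventually_atTop.1 (VP_event A B δ η K κ N hB1 hδ0 hη1 hη2 hK)
  refine ⟨⌈Real.exp (max l0 l1)⌉₊, fun H hH => ?_⟩
  have hK0 : 0 < K := by linarith
  have hHe : Real.exp (max l0 l1) ≤ H := (Nat.le_ceil _).trans (by exact_mod_cast hH)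
  have hH0 : (0 : ℝ) < H := (Real.exp_pos _).trans_le hHe
  obtain ⟨l, hl⟩ : ∃ l : ℝ, l = Real.log H := ⟨_, rfl⟩
  have hel : Real.exp l = H := by rw [hl, Real.exp_log hH0]
  have hll : max l0 l1 ≤ l := by
    rw [hl, Real.le_log_iff_exp_le hH0]
    exact hHe
  obtain ⟨h2, h1, hlx, hKl, _, hN, hl6⟩ := hl0 l ((le_max_left _ _).trans hll)
  obtain ⟨hLs, hNN, hκl, hxK, hmx⟩ := hl1 l ((le_max_right _ _).trans hll)
  have hlp : 0 < l := by linarith
  obtain ⟨x, hx⟩ : ∃ x : ℝ, x = l ^ B := ⟨_, rfl⟩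
  rw [← hx] at h1 hlx hKl hLs hl6 hκl hxK hmx
  have hx0 : 0 < x := by rw [hx]; positivity
  have hlogx : Real.log x = B * Real.log l := by rw [hx, Real.log_rpow hlp]
  have hlx0 : 0 < Real.log x := by linarith
  obtain ⟨k, hk⟩ : ∃ k : ℕ, k = ⌊l / (3 * Real.log x)⌋₊ := ⟨_, rfl⟩
  have hkle : (k : ℝ) ≤ l / (3 * Real.log x) := by
    rw [hk]
    exact Nat.floor_le (by positivity)
  have hklt : l / (3 * Real.log x) < k + 1 := by
    rw [hk]
    exact Nat.lt_floor_add_one _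
  have h3k : 3 * k * Real.log x ≤ l := by
    rw [le_div_iff₀ (by positivity)] at hkle
    linarith
  have hk6 : l / 6 ≤ k * Real.log x := by
    rw [div_lt_iff₀ (by positivity)] at hklt
    linarith
  have hkpos : 0 < (k : ℝ) := by
    by_contra hne
    push Not at hne
    have : (k : ℝ) * Real.log x ≤ 0 := mul_nonpos_of_nonpos_of_nonneg hne hlx0.le
    linarith
  have hk1 : 1 ≤ k := by exact_mod_cast hkpos
  obtain ⟨y, hy⟩ : ∃ y : ℕ, y = ⌊x ^ (1 / A)⌋₊ := ⟨_, rfl⟩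
  obtain ⟨j, hj⟩ : ∃ j : ℕ, j = Nat.log 2 ⌊x + 1⌋₊ := ⟨_, rfl⟩
  refine ⟨x, k, (primorial y) ^ j, h1, ?_, ?_, ?_, ?_⟩
  · -- the product of `3 k` factors
    have g1 : ((⌊x⌋₊ : ℝ)) ^ (3 * k) ≤ H := by
      calc ((⌊x⌋₊ : ℝ)) ^ (3 * k) ≤ x ^ (3 * k) :=
            pow_le_pow_left₀ (Nat.cast_nonneg _) (Nat.floor_le hx0.le) _
        _ = Real.exp (3 * k * Real.log x) := by
            rw [← Real.exp_log hx0, ← Real.exp_nat_mul, Real.exp_log hx0]
            push_cast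
            rfl
        _ ≤ Real.exp l := Real.exp_le_exp.2 h3k
        _ = H := hel
    exact_mod_cast g1
  · exact Nat.one_le_iff_ne_zero.2 (pow_ne_zero _ (primorial_pos y).ne')
  · intro n hn1 hnx hq
    rw [hj]
    refine dvd_prim n ⌊x + 1⌋₊ y hn1 (Nat.le_floor hnx) fun q hqp hqn => ?_
    rw [hy]
    refine Nat.le_floor ?_
    have g1 := hq q hqp hqn
    have g2 : (0 : ℝ) ≤ q := Nat.cast_nonneg _
    calc (q : ℝ) = ((q : ℝ) ^ A) ^ (1 / A) := by
          rw [← Real.rpow_mul g2, mul_one_div_cancel hA0.ne', Real.rpow_one]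
      _ ≤ x ^ (1 / A) := Real.rpow_le_rpow (by positivity) g1 (by positivity)
  · intro s n m hs hn hm
    rw [← hl] at hs hm
    -- the size of `L`
    have hL : (((primorial y) ^ j : ℕ) : ℝ) ^ s ≤ (H : ℝ) ^ δ := by
      have hprim : ((primorial y : ℕ) : ℝ) ≤ (4 : ℝ) ^ y := by
        exact_mod_cast primorial_le_four_pow y
      have hj2 : (j : ℝ) ≤ 2 * Real.log (x + 1) := by
        have g1 : ((2 : ℕ) : ℝ) ^ j ≤ x + 1 := by
          have g2 : 2 ^ j ≤ ⌊x + 1⌋₊ := by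
            rw [hj]
            refine Nat.pow_log_le_self 2 (Nat.pos_iff_ne_zero.1 (Nat.floor_pos.2 (by linarith)))
          calc ((2 : ℕ) : ℝ) ^ j = ((2 ^ j : ℕ) : ℝ) := by push_cast; rfl
            _ ≤ (⌊x + 1⌋₊ : ℝ) := by exact_mod_cast g2
            _ ≤ x + 1 := Nat.floor_le (by linarith)
        have g3 := Real.log_le_log (by positivity) g1
        rw [Real.log_pow] at g3
        have g4 : (0.5 : ℝ) ≤ Real.log 2 := by
          have := Real.log_two_gt_d9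
          linarith
        push_cast at g3
        have g5 : (j : ℝ) * 0.5 ≤ j * Real.log 2 := mul_le_mul_of_nonneg_left g4 (Nat.cast_nonneg _)
        linarith
      have hyx : (y : ℝ) ≤ l ^ (B / A) := by
        have g1 : (y : ℝ) ≤ x ^ (1 / A) := by
          rw [hy]
          exact Nat.floor_le (by positivity)
        refine g1.trans (le_of_eq ?_)
        rw [hx, ← Real.rpow_mul hlp.le]
        congr 1
        ring
      have hlogp : Real.log (((primorial y : ℕ) : ℝ)) ≤ y * Real.log 4 := by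
        have g1 := Real.log_le_log (by exact_mod_cast primorial_pos y) hprim
        rwa [Real.log_pow] at g1
      have hp0 : (0 : ℝ) < ((primorial y : ℕ) : ℝ) := by exact_mod_cast primorial_pos y
      have hc4 : 0 < Real.log 4 := Real.log_pos (by norm_num)
      have e1 : (((primorial y) ^ j : ℕ) : ℝ) ^ s
          = Real.exp (s * (j * Real.log ((primorial y : ℕ) : ℝ))) := by
        rw [Real.exp_nat_mul, Real.exp_nat_mul, Real.exp_log hp0]
        push_cast
        rfl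
      have e2 : (H : ℝ) ^ δ = Real.exp (δ * l) := by
        rw [Real.rpow_def_of_pos hH0, ← hl, mul_comm]
      rw [e1, e2]
      refine Real.exp_le_exp.2 (le_trans ?_ hLs)
      have hlog1 : 0 ≤ Real.log (x + 1) := Real.log_nonneg (by linarith)
      have hBA0 : 0 ≤ l ^ (B / A) := Real.rpow_nonneg hlp.le _
      have e3 : (j : ℝ) * Real.log ((primorial y : ℕ) : ℝ)
          ≤ (2 * Real.log (x + 1)) * (l ^ (B / A) * Real.log 4) := by
        calc (j : ℝ) * Real.log ((primorial y : ℕ) : ℝ) ≤ j * (y * Real.log 4) := by gcongr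
          _ ≤ (2 * Real.log (x + 1)) * (l ^ (B / A) * Real.log 4) := by gcongr
      calc (s : ℝ) * (j * Real.log ((primorial y : ℕ) : ℝ))
          ≤ s * ((2 * Real.log (x + 1)) * (l ^ (B / A) * Real.log 4)) :=
            mul_le_mul_of_nonneg_left e3 (Nat.cast_nonneg _)
        _ ≤ l ^ η * ((2 * Real.log (x + 1)) * (l ^ (B / A) * Real.log 4)) :=
            mul_le_mul_of_nonneg_right hs (by positivity)
    -- the constant
    have hNH : ((N : ℝ) + 1) * 3 ^ N ≤ (H : ℝ) ^ δ := by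
      have hpos : (0 : ℝ) < ((N : ℝ) + 1) * 3 ^ N := by positivity
      rw [Real.rpow_def_of_pos hH0, ← hl, mul_comm l δ, ← Real.log_le_iff_le_exp hpos]
      exact hNN
    have hκH : (H : ℝ) ^ (-δ) ≤ κ ^ (2 * k) := by
      have e1 : κ ^ (2 * k) = Real.exp (-(2 * k * Real.log (1 / κ))) := by
        rw [one_div, Real.log_inv, mul_neg, neg_neg]
        have : (2 * (k : ℝ)) * Real.log κ = ((2 * k : ℕ) : ℝ) * Real.log κ := by push_cast; ring
        rw [this, Real.exp_nat_mul, Real.exp_log hκ]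
      rw [e1, Real.rpow_def_of_pos hH0, ← hl]
      refine Real.exp_le_exp.2 ?_
      have g1 : 2 * (k : ℝ) * Real.log (1 / κ) ≤ δ * l := by
        have g2 : (k : ℝ) * (2 * Real.log (1 / κ)) ≤ k * (3 * δ * Real.log x) :=
          mul_le_mul_of_nonneg_left hκl hkpos.le
        have g3 : δ * (3 * k * Real.log x) ≤ δ * l := mul_le_mul_of_nonneg_left h3k hδ0.le
        nlinarith
      linarith
    -- the size of `n - m`
    have hm1 : (m : ℝ) ≤ l ^ (1 + η) := by
      have : (m : ℝ) * 1 ≤ m * Real.log (x / K) := mul_le_mul_of_nonneg_left hxK (Nat.cast_nonneg _)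
      linarith
    have hm2 : (m : ℝ) ≤ x / (2 * K * Real.log x) := by
      refine hm1.trans ?_
      rw [le_div_iff₀ (by positivity)]
      exact hmx
    have hq : x / (K * Real.log x) = x / (2 * K * Real.log x) + x / (2 * K * Real.log x) := by
      field_simp
      norm_num
    have hnm : x / (2 * K * Real.log x) ≤ (n : ℝ) - m := by linarith
    have hpos : 0 < x / (2 * K * Real.log x) := by positivity
    have hmn : m < n := by
      have : (m : ℝ) < n := by linarith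
      exact_mod_cast this
    obtain ⟨M, hM⟩ : ∃ M : ℕ, M = n - m := ⟨_, rfl⟩
    have hMr : (M : ℝ) = (n : ℝ) - m := by
      rw [hM, Nat.cast_sub hmn.le]
    have hNx : x / (2 * K * Real.log x) ≤ M := by rw [hMr]; exact hnm
    have hratio : l ^ ((B - 1) / 2) ≤ (M : ℝ) / k := by
      rw [le_div_iff₀ hkpos]
      have g1 : l ^ ((B - 1) / 2) * k ≤ l ^ ((B - 1) / 2) * (l / (3 * Real.log x)) := by gcongr
      have g2 : x = l ^ ((B - 1) / 2) * l ^ ((B - 1) / 2) * l := by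
        rw [hx, ← Real.rpow_add hlp, ← Real.rpow_add_one hlp.ne']
        congr 1
        ring
      have hP : 0 < l ^ ((B - 1) / 2) := Real.rpow_pos_of_pos hlp _
      refine g1.trans (le_trans ?_ hNx)
      set P : ℝ := l ^ ((B - 1) / 2) with hPd
      have g3 : P * (l / (3 * Real.log x)) = (P * l / Real.log x) * (1 / 3) := by
        field_simp
      have g4 : x / (2 * K * Real.log x) = (P * l / Real.log x) * (P / (2 * K)) := by
        rw [g2]
        field_simp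
      have g5 : 1 / 3 ≤ P / (2 * K) := by
        rw [div_le_div_iff₀ (by norm_num) (by positivity)]
        rw [div_mul_eq_mul_div, le_div_iff₀ (by positivity)] at hN
        linarith
      rw [g3, g4]
      exact mul_le_mul_of_nonneg_left g5 (by positivity)
    have hkN : k ≤ M := by
      have g1 : 1 ≤ (M : ℝ) / k :=
        (Real.one_le_rpow (by linarith) (by linarith : 0 ≤ (B - 1) / 2)).trans hratio
      rw [le_div_iff₀ hkpos, one_mul] at g1
      exact_mod_cast g1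
    have hchoose := choose_lower M k hk1 hkN
    have hexp : (H : ℝ) ^ (4 * δ) ≤ ((M : ℝ) / k) ^ k := by
      calc (H : ℝ) ^ (4 * δ) = Real.exp (4 * δ * l) := by
            rw [Real.rpow_def_of_pos hH0, ← hl, mul_comm]
        _ ≤ Real.exp (k * ((B - 1) / 2 * Real.log l)) := by
            refine Real.exp_le_exp.2 ?_
            have g1 : (k : ℝ) * ((B - 1) / 2 * Real.log l) = (1 - 1 / B) / 2 * (k * Real.log x) := by
              rw [hlogx]
              field_simp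
            rw [g1]
            calc 4 * δ * l ≤ (1 - 1 / B) / 2 * (l / 6) := by
                  rw [hδ]
                  nlinarith [mul_pos hε hlp]
              _ ≤ (1 - 1 / B) / 2 * (k * Real.log x) := mul_le_mul_of_nonneg_left hk6 (by positivity)
        _ = (l ^ ((B - 1) / 2)) ^ k := by
            rw [Real.exp_nat_mul, Real.rpow_def_of_pos hlp, mul_comm (Real.log l)]
        _ ≤ ((M : ℝ) / k) ^ k := pow_le_pow_left₀ (by positivity) hratio _
    refine ⟨by omega, ?_⟩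
    rw [← hM]
    have hHδ : 0 < (H : ℝ) ^ δ := Real.rpow_pos_of_pos hH0 _
    calc (((primorial y) ^ j : ℕ) : ℝ) ^ s * (((N : ℝ) + 1) * 3 ^ N) * (H : ℝ) ^ δ
        ≤ (H : ℝ) ^ δ * (H : ℝ) ^ δ * (H : ℝ) ^ δ := by gcongr
      _ = (H : ℝ) ^ (-δ) * (H : ℝ) ^ (4 * δ) := by
          rw [← Real.rpow_add hH0, ← Real.rpow_add hH0, ← Real.rpow_add hH0]
          congr 1
          ring
      _ ≤ κ ^ (2 * k) * (M.choose k : ℝ) :=
          mul_le_mul hκH (hexp.trans hchoose) (Real.rpow_nonneg hH0.le _) (by positivity)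

end MWS
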