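import Pool.Agent.Lib.MP_10e784_agV.Defs
import Pool.Agent.Lib.MP_10e784_agV.VA3
import Pool.Agent.Lib.MP_10e784_agV.VP
import Pool.Agent.Lib.MP_10e784_agV.VG
import Pool.Agent.Lib.MP_10e784_agW.SD

/-!
# VM: the Mordell-Weil sieve on average (assembly, helper29)

PROOF.  `A` from `smooth`, `δ, η` from `params2`; `S` the primes of `SS D A K x` not dividing `M`; the classes `r i`, `i < L ^ s`, from `Cls`; for `p ∈ S` the reduction of `P` depends only on its class (`rd_cls`), so the `c` of the statement lie in the union over `i` of the sets of `momentN` for `R p (rd p (r i))`.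
-/

namespace MWS

open Finset

/-- the box as a finite set -/
theorem VM_box {ι : Type} [Fintype ι] [DecidableEq ι] (H : ℕ) (c : ι → ℤ) :
    c ∈ Fintype.piFinset (fun _ : ι => Icc (-(H : ℤ)) H) ↔ ∀ i, |c i| ≤ (H : ℤ) := by
  rw [Fintype.mem_piFinset]
  exact forall_congr' fun i => by rw [mem_Icc, abs_le]

theorem VM_card {ι : Type} [Fintype ι] [DecidableEq ι] (H : ℕ) (Q : (ι → ℤ) → Prop) [DecidablePred Q] :
    Nat.card {c : ι → ℤ // (∀ i, |c i| ≤ (H : ℤ)) ∧ Q c} =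
      ((Fintype.piFinset (fun _ : ι => Icc (-(H : ℤ)) H)).filter Q).card := by
  refine Nat.subtype_card _ fun c => ?_
  rw [mem_filter, VM_box]

/-- the union bound over the classes -/
theorem VM_union {ι : Type} [Fintype ι] [DecidableEq ι] {H N : ℕ} (Q : (ι → ℤ) → Prop) (R : Fin N → (ι → ℤ) → Prop)
    (h : ∀ c, (∀ i, |c i| ≤ (H : ℤ)) → Q c → ∃ i, R i c) (b T : ℝ) (hb : 0 ≤ b)
    (hR : ∀ i, (Nat.card {c : ι → ℤ // (∀ i, |c i| ≤ (H : ℤ)) ∧ R i c} : ℝ) * b ≤ T) :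
    (Nat.card {c : ι → ℤ // (∀ i, |c i| ≤ (H : ℤ)) ∧ Q c} : ℝ) * b ≤ N * T := by
  classical
  set B := Fintype.piFinset (fun _ : ι => Icc (-(H : ℤ)) H) with hB
  have h1 : (B.filter Q).card ≤ ∑ i : Fin N, (B.filter (R i)).card := by
    refine (card_le_card (t := univ.biUnion fun i : Fin N => B.filter (R i)) ?_).trans card_biUnion_le
    intro c hc
    rw [mem_filter] at hc
    obtain ⟨i, hi⟩ := h c ((VM_box H c).1 hc.1) hc.2
    exact mem_biUnion.2 ⟨i, mem_univ _, mem_filter.2 ⟨hc.1, hi⟩⟩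
  rw [VM_card]
  calc ((B.filter Q).card : ℝ) * b ≤ ((∑ i : Fin N, (B.filter (R i)).card : ℕ) : ℝ) * b :=
        mul_le_mul_of_nonneg_right (by exact_mod_cast h1) hb
    _ = ∑ i : Fin N, ((B.filter (R i)).card : ℝ) * b := by push_cast; rw [sum_mul]
    _ ≤ ∑ _i : Fin N, T := by
        refine sum_le_sum fun i _ => ?_
        have h2 := hR i
        rwa [VM_card] at h2
    _ = N * T := by simp

/-- the primes of a set larger than `y` dividing `M` -/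
theorem VM_div (S : Finset ℕ) (hS : ∀ p ∈ S, p.Prime) {M : ℕ} (hM : M ≠ 0) {y : ℝ} (hy : 0 < y)
    (h : ∀ p ∈ S, y ≤ (p : ℝ)) (hd : ∀ p ∈ S, p ∣ M) : (S.card : ℝ) * Real.log y ≤ Real.log M := by
  have h1 : ∏ p ∈ S, p ∣ M := Finset.prod_primes_dvd M (fun p hp => (hS p hp).prime) hd
  have h2 : ∏ p ∈ S, p ≤ M := Nat.le_of_dvd (Nat.pos_of_ne_zero hM) h1
  have h3 : y ^ S.card ≤ (M : ℝ) := by
    calc y ^ S.card = ∏ _p ∈ S, y := by rw [prod_const]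
      _ ≤ ∏ p ∈ S, (p : ℝ) := prod_le_prod (fun p _ => hy.le) h
      _ = ((∏ p ∈ S, p : ℕ) : ℝ) := by push_cast; rfl
      _ ≤ M := by exact_mod_cast h2
  have h4 := Real.log_le_log (pow_pos hy _) h3
  rwa [Real.log_pow] at h4

theorem sieve : ∃ δ η : ℝ, 0 < δ ∧ 0 < η ∧ ∀ D : ℤ, ¬ IsSquare D → ∀ (N : ℕ) (κ : ℝ), 0 < κ → κ ≤ 1 →
    ∃ H0 : ℕ, ∀ (α β : ℤ) (M s : ℕ), Gd α β D M → Cls α β D M s → ∀ H : ℕ, H0 ≤ H →
      (s : ℝ) ≤ (Real.log H) ^ η → Real.log M ≤ (Real.log H) ^ (1 + η) →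
      ∀ (ι : Type) [Fintype ι] [DecidableEq ι], Fintype.card ι = N →
      ∀ R : (p : ℕ) → Option (ZMod p × ZMod p) → Set (ι → ZMod p),
        (∀ p : ℕ, p.Prime → ¬ p ∣ M → ∀ z, (Nat.card (R p z) : ℝ) ≤ (1 - κ) * (p : ℝ) ^ N) →
        (Nat.card {c : ι → ℤ // (∀ i, |c i| ≤ (H : ℤ)) ∧ ∃ P : Pt ℚ α β, ∀ p : ℕ, p.Prime → ¬ p ∣ M →
          (fun i => ((c i : ℤ) : ZMod p)) ∈ R p (rd p P)} : ℝ) ≤ (H : ℝ) ^ ((N : ℝ) - δ) := by
  classical
  obtain ⟨A, hA1, hA2, hsm⟩ := smooth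
  obtain ⟨δ, η, hδ, hη, hpar⟩ := params2 A hA1 hA2
  refine ⟨δ, η, hδ, hη, fun D hD N κ hκ hκ1 => ?_⟩
  obtain ⟨K, hK, x0, hx0, hS⟩ := hsm D hD
  obtain ⟨H0, hH0⟩ := hpar K (max x0 (K * 2)) κ N hK hκ hκ1
  refine ⟨max H0 1, fun α β M s hG hC H hH hs hM ι _ _ hι R hR => ?_⟩
  have hH1 : 1 ≤ H := (le_max_right _ _).trans hH
  have hHr : (1 : ℝ) ≤ H := by exact_mod_cast hH1
  have hHpos : (0 : ℝ) < H := by linarith
  obtain ⟨x, k, L, hx, hXk, hL, hdvd, hch⟩ := hH0 H ((le_max_left _ _).trans hH)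
  have hx0' : x0 ≤ x := (le_max_left _ _).trans hx
  have hx2 : (2 : ℝ) ≤ x := hx0.trans hx0'
  have hKpos : (0 : ℝ) < K := by linarith
  have hxK : (2 : ℝ) ≤ x / K := by
    rw [le_div_iff₀ hKpos]
    have := (le_max_right _ _).trans hx
    linarith
  have hmem : ∀ p ∈ SS D A K x, p.Prime ∧ x / K < (p : ℝ) ∧ p ≤ ⌊x⌋₊ ∧
      ¬ IsSquare ((D : ℤ) : ZMod p) ∧ ∀ q : ℕ, q.Prime → q ∣ p + 1 → (q : ℝ) ^ A ≤ x := by
    intro p hp
    rw [SS, mem_filter, mem_Ioc] at hp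
    exact ⟨hp.2.1, Nat.lt_of_floor_lt hp.1.1, hp.1.2, hp.2.2.1, hp.2.2.2⟩
  set T := (SS D A K x).filter (fun p => p ∣ M) with hT
  set S := (SS D A K x).filter (fun p => ¬ p ∣ M) with hSdef
  have hTlog : (T.card : ℝ) * Real.log (x / K) ≤ (Real.log H) ^ (1 + η) := by
    refine (VM_div T ?_ hG.2.1 (by linarith) ?_ ?_).trans hM
    · intro p hp
      exact (hmem p (mem_filter.1 hp).1).1
    · intro p hp
      exact (hmem p (mem_filter.1 hp).1).2.1.le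
    · intro p hp
      exact (mem_filter.1 hp).2
  have hcard : T.card + S.card = (SS D A K x).card := card_filter_add_card_filter_not _
  obtain ⟨hn1, hn2⟩ := hch s (SS D A K x).card T.card hs (hS x hx0') hTlog
  have hcard' : (SS D A K x).card - T.card = S.card := by omega
  rw [hcard'] at hn1 hn2
  have hpL : ∀ p ∈ S, p + 1 ∣ L := by
    intro p hp
    obtain ⟨h1, h2, h3, h4, h5⟩ := hmem p (mem_filter.1 hp).1
    refine hdvd (p + 1) (by omega) ?_ h5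
    have h7 : (p : ℝ) ≤ x := (Nat.cast_le.2 h3).trans (Nat.floor_le (by linarith))
    push_cast
    linarith
  obtain ⟨r, hr⟩ := hC L hL (by
    obtain ⟨p, hp⟩ := card_pos.1 (by omega : 0 < S.card)
    obtain ⟨h1, h2, h3, h4, h5⟩ := hmem p (mem_filter.1 hp).1
    exact ⟨p, h1, (mem_filter.1 hp).2, h4, hpL p hp⟩)
  have hunion := VM_union (ι := ι) (H := H) (N := L ^ s)
    (fun c => ∃ P : Pt ℚ α β, ∀ p : ℕ, p.Prime → ¬ p ∣ M → (fun i => ((c i : ℤ) : ZMod p)) ∈ R p (rd p P))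
    (fun i c => ∀ p ∈ S, (fun i => ((c i : ℤ) : ZMod p)) ∈ R p (rd p (r i)))
    (by
      rintro c - ⟨P, hP⟩
      obtain ⟨i, Q, hi⟩ := hr P
      refine ⟨i, fun p hp => ?_⟩
      obtain ⟨h1, h2, h3, h4, h5⟩ := hmem p (mem_filter.1 hp).1
      have h6 := hP p h1 (mem_filter.1 hp).2
      rwa [hi, rd_cls h1 hG (mem_filter.1 hp).2 h4 (hpL p hp)] at h6)
    (κ ^ (2 * k) * (S.card.choose k : ℝ)) (((N : ℝ) + 1) * (2 * (H : ℝ) + 1) ^ N) (by positivity)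
    (fun i => by
      have h := momentN (ι := ι) S ⌊x⌋₊ k H κ hκ hκ1 (fun p => R p (rd p (r i)))
        (fun p hp => ⟨(hmem p (mem_filter.1 hp).1).1, (hmem p (mem_filter.1 hp).1).2.2.1⟩)
        (fun p hp => by
          rw [hι]
          exact hR p (hmem p (mem_filter.1 hp).1).1 (mem_filter.1 hp).2 _) hXk hH1
      rw [hι, mul_assoc] at h
      exact h)
  have hLpos : (0 : ℝ) < (L : ℝ) ^ s := by
    have : (0 : ℝ) < L := by exact_mod_cast hL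
    positivity
  set W := (Nat.card {c : ι → ℤ // (∀ i, |c i| ≤ (H : ℤ)) ∧ ∃ P : Pt ℚ α β, ∀ p : ℕ, p.Prime → ¬ p ∣ M →
          (fun i => ((c i : ℤ) : ZMod p)) ∈ R p (rd p P)} : ℝ) with hW
  have hW0 : 0 ≤ W := Nat.cast_nonneg _
  have hpos2 : (0 : ℝ) < (H : ℝ) ^ δ := Real.rpow_pos_of_pos hHpos _
  have hE : (0 : ℝ) < (L : ℝ) ^ s * (((N : ℝ) + 1) * 3 ^ N) := by positivity
  have h3 : ((L : ℝ) ^ s * (((N : ℝ) + 1) * 3 ^ N)) * (W * (H : ℝ) ^ δ) ≤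
      ((L : ℝ) ^ s * (((N : ℝ) + 1) * 3 ^ N)) * (H : ℝ) ^ N := by
    calc ((L : ℝ) ^ s * (((N : ℝ) + 1) * 3 ^ N)) * (W * (H : ℝ) ^ δ)
        = W * ((L : ℝ) ^ s * (((N : ℝ) + 1) * 3 ^ N) * (H : ℝ) ^ δ) := by ring
      _ ≤ W * (κ ^ (2 * k) * (S.card.choose k : ℝ)) := mul_le_mul_of_nonneg_left hn2 hW0
      _ ≤ ((L ^ s : ℕ) : ℝ) * (((N : ℝ) + 1) * (2 * (H : ℝ) + 1) ^ N) := hunion
      _ ≤ (L : ℝ) ^ s * (((N : ℝ) + 1) * (3 * (H : ℝ)) ^ N) := by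
          push_cast
          refine mul_le_mul_of_nonneg_left ?_ hLpos.le
          refine mul_le_mul_of_nonneg_left ?_ (by positivity)
          exact pow_le_pow_left₀ (by positivity) (by linarith) _
      _ = ((L : ℝ) ^ s * (((N : ℝ) + 1) * 3 ^ N)) * (H : ℝ) ^ N := by rw [mul_pow]; ring
  have h4 := le_of_mul_le_mul_left h3 hE
  have h5 : (H : ℝ) ^ N = (H : ℝ) ^ ((N : ℝ) - δ) * (H : ℝ) ^ δ := by
    rw [← Real.rpow_add hHpos, sub_add_cancel, Real.rpow_natCast]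
  rw [h5] at h4
  exact le_of_mul_le_mul_right h4 hpos2

end MWS
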