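import Pool.Agent.Lib.MP_10e784_agV.C5
import Pool.Agent.Lib.MP_10e784_agW.RD

/-!
# LEAF C6: the kernel of reduction has no torsion

PROOF of `ker_free`.  `P = (x, y)` with `p ∣ x.den`, `τ (a, b) = a / b` for a point `(a, b)`, `k = v (τ P) ≥ 1`.  By induction on `n ≥ 1`: if `n P ≠ 0` for `1 ≤ j ≤ n` then `n P = (x_n, y_n)`, `p ∣ x_n.den`, `v (τ (n P)) ≥ k` and `τ (n P) - n τ P` is `0` or of valuation `≥ 5 k`.
Step: `n P + P + (-(n + 1) P) = 0`, `τ (-R) = -τ R`; the three points are in the kernel (`exists_red`: the kernel is a subgroup) and have `v τ ≥ k`: for `(n + 1) P`: a priori put `m = min (k, v (τ ((n+1) P)))`, `t_sum` gives `τ ((n + 1) P) = τ (n P) + τ P + O(p^(5 m))` with `5 m > m`, and `v (τ (n P)), v (τ P) ≥ k`, so if `v (τ ((n+1)P)) < k` then `m = v(τ((n+1)P))` and the right side has valuation `> m`, contradiction; so `m = k`.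
If `q` is prime, `q P = 0`: `(q - 1) P = -P`, `τ ((q - 1) P) = -τ P`, so `q τ P` is `0` or has valuation `≥ 5 k`; but `v (q τ P) = v q + k ≤ 1 + k < 5 k`.  (`q = 2`: `P = -P` gives `y = 0`, `τ`: impossible, or the same argument with `n = 1`.)
PROOF of `tors_card`.  The restriction of the reduction homomorphism `ρ` (`exists_red`) to the torsion subgroup is injective: if `ρ τ = 0`, `τ ≠ 0` of finite order then some multiple of `τ` has prime order and lies in the kernel: contradiction to `ker_free`.  So `card torsion ≤ card (Pt (ZMod p) α β) = na α β p + 1 = p + 1` (as in the proof of `kill`, leaf RD).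
-/

namespace MWS

/-- valuation at least `m`, or zero -/
private def C6_ge (p : ℕ) (m : ℤ) (z : ℚ) : Prop := z = 0 ∨ m ≤ padicValRat p z

private theorem C6_add {p : ℕ} [Fact p.Prime] {m : ℤ} {a b : ℚ} (ha : C6_ge p m a)
    (hb : C6_ge p m b) : C6_ge p m (a + b) := by
  by_cases h : a + b = 0
  · exact Or.inl h
  · rcases ha with rfl | ha
    · rw [zero_add]; exact hb
    · rcases hb with rfl | hb
      · rw [add_zero]; exact Or.inr ha
      · exact Or.inr ((le_min ha hb).trans (padicValRat.min_le_padicValRat_add h))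

private theorem C6_neg {p : ℕ} [Fact p.Prime] {m : ℤ} {a : ℚ} (ha : C6_ge p m a) :
    C6_ge p m (-a) := by
  rcases ha with rfl | ha
  · exact Or.inl neg_zero
  · right
    rw [padicValRat.neg]
    exact ha

private theorem C6_mono {p : ℕ} {m m' : ℤ} {a : ℚ} (h : m' ≤ m) (ha : C6_ge p m a) :
    C6_ge p m' a := by
  rcases ha with ha | ha
  · exact Or.inl ha
  · exact Or.inr (h.trans ha)

private theorem C6_eq {F : Type*} [Field F] [DecidableEq F] {α β : ℤ} {x y : F}
    (h : (EW F α β).toAffine.Nonsingular x y) : y ^ 2 = x ^ 3 + (α : F) * x + (β : F) :=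
  (EW_eqn α β x y).1 h.1

private theorem C6_negY {F : Type*} [Field F] {α β : ℤ} (x y : F) :
    (EW F α β).toAffine.negY x y = -y := by
  simp [WeierstrassCurve.Affine.negY, EW]

private theorem C6_two {p : ℕ} [Fact p.Prime] (hp2 : p ≠ 2) : (2 : ZMod p) ≠ 0 := by
  intro h
  have h1 : ((2 : ℕ) : ZMod p) = 0 := by exact_mod_cast h
  rw [ZMod.natCast_eq_zero_iff] at h1
  exact hp2 ((Nat.prime_dvd_prime_iff_eq Fact.out Nat.prime_two).1 h1)

/-- the step: the third point -/
private theorem C6_step {p : ℕ} [hp : Fact p.Prime] {α β : ℤ} {x y a b c d : ℚ}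
    {h : (EW ℚ α β).toAffine.Nonsingular x y} {h1 : (EW ℚ α β).toAffine.Nonsingular a b}
    {h2 : (EW ℚ α β).toAffine.Nonsingular c d} (gx : p ∣ x.den) (ga : p ∣ a.den) (gc : p ∣ c.den)
    (hs : (.some c d h2 : Pt ℚ α β) = .some a b h1 + .some x y h)
    (ka : padicValRat p (x / y) ≤ padicValRat p (a / b)) (n : ℕ)
    (hn : C6_ge p (5 * padicValRat p (x / y)) (a / b - n * (x / y))) :
    padicValRat p (x / y) ≤ padicValRat p (c / d) ∧
      C6_ge p (5 * padicValRat p (x / y)) (c / d - ((n + 1 : ℕ) : ℚ) * (x / y)) := by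
  obtain ⟨hx0, hy0, hk1, -, -⟩ := t_val hp.out (C6_eq h) gx
  obtain ⟨hc0, hd0, hc1, -, -⟩ := t_val hp.out (C6_eq h2) gc
  obtain ⟨k, hk⟩ : ∃ k, k = padicValRat p (x / y) := ⟨_, rfl⟩
  obtain ⟨l, hl⟩ : ∃ l, l = padicValRat p (c / d) := ⟨_, rfl⟩
  have hsum : (.some a b h1 : Pt ℚ α β) + .some x y h +
      .some c ((EW ℚ α β).toAffine.negY c d)
        ((WeierstrassCurve.Affine.nonsingular_neg (W' := (EW ℚ α β).toAffine) c d).2 h2) = 0 := by
    have e := add_neg_cancel (.some c d h2 : Pt ℚ α β)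
    rw [WeierstrassCurve.Affine.Point.neg_some] at e
    rw [← hs]
    exact e
  have hv3 : padicValRat p (c / (EW ℚ α β).toAffine.negY c d) = l := by
    rw [C6_negY, div_neg, padicValRat.neg, hl]
  have hts := t_sum hp.out hsum ga gx gc (min k l) (le_min (hk ▸ hk1) (hl ▸ hc1))
    ((min_le_left _ _).trans (hk ▸ ka)) ((min_le_left _ _).trans hk.le)
    ((min_le_right _ _).trans hv3.ge)
  rw [C6_negY, div_neg] at hts
  have hE : C6_ge p (5 * min k l) (a / b + x / y + -(c / d)) := hts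
  have hcd : c / d ≠ 0 := div_ne_zero hc0 hd0
  have hkl : k ≤ l := by
    by_contra hlt
    push Not at hlt
    have hm : min k l = l := min_eq_right hlt.le
    rw [hm] at hE
    have h3 : C6_ge p (l + 1) (a / b) := Or.inr (by omega)
    have h4 : C6_ge p (l + 1) (x / y) := Or.inr (by omega)
    have h5 : C6_ge p (l + 1) (a / b + x / y + -(c / d)) := C6_mono (by omega) hE
    have h6 := C6_add (C6_add h3 h4) (C6_neg h5)
    have e1 : a / b + x / y + -(a / b + x / y + -(c / d)) = c / d := by ring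
    rw [e1] at h6
    rcases h6 with h6 | h6
    · exact hcd h6
    · omega
  rw [min_eq_left hkl] at hE
  rw [← hk] at hn
  refine ⟨by rw [← hk, ← hl]; exact hkl, ?_⟩
  rw [← hk]
  have h6 := C6_add hn (C6_neg hE)
  have e1 : a / b - n * (x / y) + -(a / b + x / y + -(c / d)) =
      c / d - ((n + 1 : ℕ) : ℚ) * (x / y) := by
    push_cast
    ring
  rw [e1] at h6
  exact h6

theorem ker_free {p : ℕ} [Fact p.Prime] {α β : ℤ} (hp2 : p ≠ 2) (hd : ¬ (p : ℤ) ∣ dsc α β) {x y : ℚ}
    (h : (EW ℚ α β).toAffine.Nonsingular x y) (hx : p ∣ x.den) (q : ℕ) (hq : q.Prime) :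
    q • (.some x y h : Pt ℚ α β) ≠ 0 := by
  intro h0
  have hp : p.Prime := Fact.out
  obtain ⟨P, hP⟩ : ∃ P : Pt ℚ α β, P = .some x y h := ⟨_, rfl⟩
  have hP0 : P ≠ 0 := by
    rw [hP]
    exact WeierstrassCurve.Affine.Point.some_ne_zero h
  rw [← hP] at h0
  have hne : ∀ j : ℕ, 0 < j → j < q → j • P ≠ 0 := by
    intro j hj hjq hj0
    have h1 : addOrderOf P ∣ q := addOrderOf_dvd_of_nsmul_eq_zero h0
    have h2 : addOrderOf P ∣ j := addOrderOf_dvd_of_nsmul_eq_zero hj0
    rcases (Nat.dvd_prime hq).1 h1 with h3 | h3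
    · exact hP0 (AddMonoid.addOrderOf_eq_one_iff.1 h3)
    · rw [h3] at h2
      have := Nat.le_of_dvd hj h2
      omega
  obtain ⟨ρ, hρ⟩ := exists_red (p := p) (α := α) (β := β) hp2 hd
  have hρP : ρ P = 0 := by
    rw [hP]
    exact (hρ x y h).1 hx
  obtain ⟨hx0, hy0, hk1, -, -⟩ := t_val hp (C6_eq h) hx
  have key : ∀ n : ℕ, 0 < n → n < q → ∃ (a b : ℚ) (h1 : (EW ℚ α β).toAffine.Nonsingular a b),
      n • P = .some a b h1 ∧ p ∣ a.den ∧ padicValRat p (x / y) ≤ padicValRat p (a / b) ∧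
      C6_ge p (5 * padicValRat p (x / y)) (a / b - n * (x / y)) := by
    intro n hn
    induction n, hn using Nat.le_induction with
    | base =>
      intro _
      refine ⟨x, y, h, ?_, hx, le_refl _, Or.inl ?_⟩
      · exact (one_nsmul P).trans hP
      · simp
    | succ n hn ih =>
      intro hlt
      obtain ⟨a, b, h1, e1, ga, ka, hE⟩ := ih (by omega)
      have hR0 := hne (n + 1) (by omega) hlt
      obtain ⟨R, hR⟩ : ∃ R : Pt ℚ α β, R = (n + 1) • P := ⟨_, rfl⟩
      rw [← hR] at hR0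
      rcases R with _ | ⟨c, d, h2⟩
      · exact absurd rfl hR0
      · have hρR : ρ (.some c d h2) = 0 := by
          rw [hR, map_nsmul, hρP, smul_zero]
        have gc : p ∣ c.den := by
          by_contra hc
          obtain ⟨h', e'⟩ := (hρ c d h2).2 hc
          rw [hρR] at e'
          exact WeierstrassCurve.Affine.Point.some_ne_zero h' e'.symm
        have hs : (.some c d h2 : Pt ℚ α β) = .some a b h1 + .some x y h := by
          rw [hR, succ_nsmul, e1, hP]
        obtain ⟨k2, hE2⟩ := C6_step hx ga gc hs ka n hE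
        exact ⟨c, d, h2, hR.symm, gc, k2, hE2⟩
  have hq2 := hq.two_le
  obtain ⟨a, b, h1, e1, -, -, hE⟩ := key (q - 1) (by omega) (by omega)
  have e2 : (q - 1) • P = -P := by
    have h3 : (q - 1) • P + P = 0 := by
      rw [← succ_nsmul, Nat.sub_add_cancel (by omega), h0]
    exact eq_neg_of_add_eq_zero_left h3
  rw [e2, hP, WeierstrassCurve.Affine.Point.neg_some] at e1
  obtain ⟨e3, e4⟩ := WeierstrassCurve.Affine.Point.some.inj e1
  rw [C6_negY] at e4
  rw [← e3, ← e4] at hE
  have e5 : x / -y - ((q - 1 : ℕ) : ℚ) * (x / y) = -((q : ℚ) * (x / y)) := by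
    rw [Nat.cast_sub (by omega : 1 ≤ q), div_neg]
    push_cast
    ring
  rw [e5] at hE
  have hq0 : (q : ℚ) ≠ 0 := by exact_mod_cast hq.ne_zero
  have hxy : x / y ≠ 0 := div_ne_zero hx0 hy0
  rcases hE with hE | hE
  · exact (neg_ne_zero.2 (mul_ne_zero hq0 hxy)) hE
  · rw [padicValRat.neg, padicValRat.mul hq0 hxy] at hE
    have h3 : padicValRat p (q : ℚ) ≤ 1 := by
      rw [padicValRat.of_nat]
      have h4 : padicValNat p q ≤ 1 := by
        by_cases hpq : p = q
        · rw [hpq]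
          have : Fact q.Prime := ⟨hq⟩
          rw [padicValNat_self]
        · rw [padicValNat.eq_zero_of_not_dvd]
          · omega
          · exact fun hdv => hpq ((Nat.prime_dvd_prime_iff_eq hp hq).1 hdv)
      exact_mod_cast h4
    omega

/-- the points and the affine points -/
private noncomputable def C6_equiv {p : ℕ} [Fact p.Prime] {α β : ℤ} (hp2 : p ≠ 2)
    (hd : ¬ (p : ℤ) ∣ dsc α β) :
    Pt (ZMod p) α β ≃ Option {z : ZMod p × ZMod p // z.2 ^ 2 = z.1 ^ 3 + (α : ZMod p) * z.1 + (β : ZMod p)} where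
  toFun
    | .zero => none
    | .some x y h => some ⟨(x, y), (EW_nons α β (C6_two hp2)
        (fun h0 => hd ((ZMod.intCast_zmod_eq_zero_iff_dvd _ _).1 h0)) x y).1 h⟩
  invFun
    | none => .zero
    | some z => .some z.1.1 z.1.2 ((EW_nons α β (C6_two hp2)
        (fun h0 => hd ((ZMod.intCast_zmod_eq_zero_iff_dvd _ _).1 h0)) z.1.1 z.1.2).2 z.2)
  left_inv := by
    rintro (_ | ⟨x, y, h⟩) <;> rfl
  right_inv := by
    rintro (_ | ⟨⟨x, y⟩, h⟩) <;> rfl

theorem tors_card {p : ℕ} [Fact p.Prime] {α β : ℤ} (hp2 : p ≠ 2) (hd : ¬ (p : ℤ) ∣ dsc α β) (hn : na α β p = p) :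
    Nat.card (AddCommGroup.torsion (Pt ℚ α β)) ≤ p + 1 := by
  have h1 : Nat.card (Pt (ZMod p) α β) = p + 1 := by
    have : Finite {z : ZMod p × ZMod p // z.2 ^ 2 = z.1 ^ 3 + (α : ZMod p) * z.1 + (β : ZMod p)} :=
      inferInstance
    rw [Nat.card_congr (C6_equiv hp2 hd), Finite.card_option]
    unfold na at hn
    rw [hn]
  have hfin : Finite (Pt (ZMod p) α β) := Nat.finite_of_card_ne_zero (by rw [h1]; omega)
  obtain ⟨ρ, hρ⟩ := exists_red (p := p) (α := α) (β := β) hp2 hd
  rw [← h1]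
  refine Nat.card_le_card_of_injective (fun t : AddCommGroup.torsion (Pt ℚ α β) => ρ t) ?_
  have hinj : Function.Injective (ρ.comp (AddCommGroup.torsion (Pt ℚ α β)).subtype) := by
    rw [injective_iff_map_eq_zero]
    rintro ⟨t, ht⟩ h0
    have h0' : ρ t = 0 := h0
    by_contra hne
    have ht0 : t ≠ 0 := fun h => hne (Subtype.ext h)
    have hfo : 0 < addOrderOf t := IsOfFinAddOrder.addOrderOf_pos ht
    have ho1 : addOrderOf t ≠ 1 := fun h => ht0 (AddMonoid.addOrderOf_eq_one_iff.1 h)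
    obtain ⟨q, hq, hqd⟩ := Nat.exists_prime_and_dvd ho1
    obtain ⟨m, hm⟩ := hqd
    have hm0 : 0 < m := by
      rcases Nat.eq_zero_or_pos m with h | h
      · rw [h, mul_zero] at hm
        omega
      · exact h
    obtain ⟨σ, hσ⟩ : ∃ σ : Pt ℚ α β, σ = m • t := ⟨_, rfl⟩
    have hσ0 : σ ≠ 0 := by
      rw [hσ]
      intro h
      have h3 := Nat.le_of_dvd hm0 (addOrderOf_dvd_of_nsmul_eq_zero h)
      have h4 := hq.two_le
      rw [hm] at h3
      nlinarith
    have hqσ : q • σ = 0 := by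
      rw [hσ, ← mul_nsmul', ← hm]
      exact addOrderOf_nsmul_eq_zero t
    have hρσ : ρ σ = 0 := by rw [hσ, map_nsmul, h0', smul_zero]
    rcases σ with _ | ⟨x, y, h⟩
    · exact hσ0 rfl
    · have hx : p ∣ x.den := by
        by_contra hc
        obtain ⟨h', e'⟩ := (hρ x y h).2 hc
        rw [hρσ] at e'
        exact WeierstrassCurve.Affine.Point.some_ne_zero h' e'.symm
      exact ker_free hp2 hd h hx q hq hqσ
  exact hinj

end MWS
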