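import Pool.Agent.Lib.MP_10e784_agV.VB1

/-!
# LEAF VB2: the local conditions

PROOF of `locA`.  `λ_l, μ_l` from `bv_red` (for the degree `d j l`; they may depend on `j` and `l`).  Multiply `∑_k c(j, k) ∏_l bv(P_l)(k_l) = 0` by `∏_l λ_l`, apply `rc p` (all terms are integral at `p`; `rc_mul`, `rc_add`, `rc_int`, induction over the finite sum and product): `∏ μ_l * ∑_k c(j, k) ∏_l bv (rd p P_l) (k_l) = 0` and `∏ μ_l ≠ 0`.
PROOF of `locB`.  Scale `(u, v) ∈ ℚ² ∖ 0` to a pair which is integral at `p` and not `(0, 0)` modulo `p` (for instance to coprime integers: multiply by the common denominator and divide by the gcd); `FB` is homogeneous of degree `n` in `(u, v)`.  Multiply by `λ` of `bv_red` and apply `rc p`.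
-/

namespace MWS

/-- `p`-integral with residue `r` -/
private def VB2r (p : ℕ) (x : ℚ) (r : ZMod p) : Prop := ¬ p ∣ x.den ∧ rc p x = r

private theorem VB2r_add {p : ℕ} (hp : p.Prime) {x y : ℚ} {r s : ZMod p} (hx : VB2r p x r)
    (hy : VB2r p y s) : VB2r p (x + y) (r + s) := by
  have h := rc_add hp hx.1 hy.1
  exact ⟨h.1, by rw [h.2, hx.2, hy.2]⟩

private theorem VB2r_mul {p : ℕ} (hp : p.Prime) {x y : ℚ} {r s : ZMod p} (hx : VB2r p x r)
    (hy : VB2r p y s) : VB2r p (x * y) (r * s) := by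
  have h := rc_mul hp hx.1 hy.1
  exact ⟨h.1, by rw [h.2, hx.2, hy.2]⟩

private theorem VB2r_int {p : ℕ} (hp : p.Prime) (a : ℤ) : VB2r p (a : ℚ) (a : ZMod p) := rc_int hp a

private theorem VB2r_pow {p : ℕ} (hp : p.Prime) {x : ℚ} {r : ZMod p} (hx : VB2r p x r) (n : ℕ) :
    VB2r p (x ^ n) (r ^ n) := by
  induction n with
  | zero =>
    have h := VB2r_int hp 1
    simpa using h
  | succ n ih =>
    rw [pow_succ, pow_succ]
    exact VB2r_mul hp ih hx

private theorem VB2r_sum {p : ℕ} (hp : p.Prime) {ι : Type*} (s : Finset ι) (f : ι → ℚ)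
    (g : ι → ZMod p) (h : ∀ i ∈ s, VB2r p (f i) (g i)) :
    VB2r p (∑ i ∈ s, f i) (∑ i ∈ s, g i) := by
  classical
  induction s using Finset.induction_on with
  | empty =>
    have h := VB2r_int hp 0
    simpa using h
  | insert a s ha ih =>
    rw [Finset.sum_insert ha, Finset.sum_insert ha]
    exact VB2r_add hp (h a (Finset.mem_insert_self a s))
      (ih fun i hi => h i (Finset.mem_insert_of_mem hi))

private theorem VB2r_prod {p : ℕ} (hp : p.Prime) {ι : Type*} (s : Finset ι) (f : ι → ℚ)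
    (g : ι → ZMod p) (h : ∀ i ∈ s, VB2r p (f i) (g i)) :
    VB2r p (∏ i ∈ s, f i) (∏ i ∈ s, g i) := by
  classical
  induction s using Finset.induction_on with
  | empty =>
    have h := VB2r_int hp 1
    simpa using h
  | insert a s ha ih =>
    rw [Finset.prod_insert ha, Finset.prod_insert ha]
    exact VB2r_mul hp (h a (Finset.mem_insert_self a s))
      (ih fun i hi => h i (Finset.mem_insert_of_mem hi))

private theorem VB2r_zero {p : ℕ} (hp : p.Prime) {r : ZMod p} (h : VB2r p 0 r) : r = 0 := by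
  have h1 := VB2r_int hp 0
  rw [Int.cast_zero, Int.cast_zero] at h1
  rw [← h.2, h1.2]

theorem locA {p : ℕ} (hp : p.Prime) {g J : ℕ} {α β : Fin g → ℤ} {d : Fin J → Fin g → ℕ} (hd : ∀ j l, 1 ≤ d j l)
    (c : CA d → ℤ) (P : (l : Fin g) → Pt ℚ (α l) (β l)) (j : Fin J)
    (h : SA (fun t => ((c t : ℤ) : ℚ)) (fun l => op (P l)) j = 0) :
    SA (fun t => ((c t : ℤ) : ZMod p)) (fun l => rd p (P l)) j = 0 := by
  have : Fact p.Prime := ⟨hp⟩
  choose lam mu hl hm hk using fun l => bv_red hp (hd j l) (P l)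
  have h1 : VB2r p ((∏ l, lam l) * SA (fun t => ((c t : ℤ) : ℚ)) (fun l => op (P l)) j)
      ((∏ l, mu l) * SA (fun t => ((c t : ℤ) : ZMod p)) (fun l => rd p (P l)) j) := by
    unfold SA
    rw [Finset.mul_sum, Finset.mul_sum]
    refine VB2r_sum hp _ _ _ fun k _ => ?_
    have e1 : (∏ l, lam l) * (((c ⟨j, k⟩ : ℤ) : ℚ) * ∏ l, bv (op (P l)) (k l)) =
        ((c ⟨j, k⟩ : ℤ) : ℚ) * ∏ l, (lam l * bv (op (P l)) (k l)) := by
      rw [Finset.prod_mul_distrib]
      ring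
    have e2 : (∏ l, mu l) * (((c ⟨j, k⟩ : ℤ) : ZMod p) * ∏ l, bv (rd p (P l)) (k l)) =
        ((c ⟨j, k⟩ : ℤ) : ZMod p) * ∏ l, (mu l * bv (rd p (P l)) (k l)) := by
      rw [Finset.prod_mul_distrib]
      ring
    rw [e1, e2]
    exact VB2r_mul hp (VB2r_int hp _) (VB2r_prod hp _ _ _ fun l _ => hk l (k l))
  rw [h, mul_zero] at h1
  have h2 := VB2r_zero hp h1
  rcases mul_eq_zero.1 h2 with h3 | h3
  · exact absurd h3 (Finset.prod_ne_zero_iff.2 fun l _ => hm l)
  · exact h3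

private theorem VB2_scale (u v : ℚ) (huv : u ≠ 0 ∨ v ≠ 0) :
    ∃ (s : ℚ) (a b : ℤ), s * u = a ∧ s * v = b ∧ IsCoprime a b := by
  by_cases hv : v = 0
  · have hu : u ≠ 0 := by
      rcases huv with h | h
      · exact h
      · exact absurd hv h
    refine ⟨u⁻¹, 1, 0, ?_, ?_, isCoprime_one_left⟩
    · rw [inv_mul_cancel₀ hu, Int.cast_one]
    · rw [hv, mul_zero, Int.cast_zero]
  · refine ⟨((u / v).den : ℚ) / v, (u / v).num, ((u / v).den : ℤ), ?_, ?_, ?_⟩
    · have h1 : ((u / v).den : ℚ) * (u / v) = ((u / v).num : ℚ) := Rat.den_mul_eq_num _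
      rw [← h1]
      ring
    · rw [div_mul_cancel₀ _ hv, Int.cast_natCast]
    · have h1 := (u / v).reduced
      rw [Int.isCoprime_iff_gcd_eq_one]
      exact h1

theorem locB {p : ℕ} (hp : p.Prime) {α β : ℤ} {n d : ℕ} (hd : 1 ≤ d) (c : Fin (n + 1) × Bs d → ℤ) (P : Pt ℚ α β)
    (u v : ℚ) (huv : u ≠ 0 ∨ v ≠ 0) (h : FB (fun t => ((c t : ℤ) : ℚ)) (op P) u v = 0) :
    ∃ a b : ZMod p, (a ≠ 0 ∨ b ≠ 0) ∧ FB (fun t => ((c t : ℤ) : ZMod p)) (rd p P) a b = 0 := by
  have : Fact p.Prime := ⟨hp⟩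
  obtain ⟨s, a, b, ha, hb, hab⟩ := VB2_scale u v huv
  obtain ⟨lam, mu, hl, hm, hk⟩ := bv_red hp hd P
  refine ⟨(a : ZMod p), (b : ZMod p), ?_, ?_⟩
  · by_contra hcon
    rw [not_or, not_not, not_not, ZMod.intCast_zmod_eq_zero_iff_dvd,
      ZMod.intCast_zmod_eq_zero_iff_dvd] at hcon
    have h1 : IsUnit (p : ℤ) := hab.isUnit_of_dvd' hcon.1 hcon.2
    rw [Int.isUnit_iff_natAbs_eq, Int.natAbs_natCast] at h1
    exact hp.one_lt.ne' h1
  · have h0 : FB (fun t => ((c t : ℤ) : ℚ)) (op P) a b = 0 := by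
      have h1 : FB (fun t => ((c t : ℤ) : ℚ)) (op P) (s * u) (s * v) =
          s ^ n * FB (fun t => ((c t : ℤ) : ℚ)) (op P) u v := by
        unfold FB
        rw [Finset.mul_sum]
        refine Finset.sum_congr rfl fun i _ => ?_
        have hi : (i : ℕ) ≤ n := Nat.lt_succ_iff.1 i.2
        have e : s ^ n = s ^ (i : ℕ) * s ^ (n - (i : ℕ)) := by rw [← pow_add, Nat.add_sub_cancel' hi]
        rw [mul_pow, mul_pow, e]
        ring
      rw [ha, hb, h, mul_zero] at h1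
      exact h1
    have h1 : VB2r p (lam * FB (fun t => ((c t : ℤ) : ℚ)) (op P) a b)
        (mu * FB (fun t => ((c t : ℤ) : ZMod p)) (rd p P) (a : ZMod p) (b : ZMod p)) := by
      unfold FB
      rw [Finset.mul_sum, Finset.mul_sum]
      refine VB2r_sum hp _ _ _ fun i _ => ?_
      rw [← mul_assoc, ← mul_assoc, ← mul_assoc, ← mul_assoc, Finset.mul_sum, Finset.mul_sum]
      refine VB2r_mul hp (VB2r_mul hp (VB2r_sum hp _ _ _ fun k _ => ?_)
        (VB2r_pow hp (VB2r_int hp a) _)) (VB2r_pow hp (VB2r_int hp b) _)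
      rw [mul_left_comm, mul_left_comm mu]
      exact VB2r_mul hp (VB2r_int hp _) (hk k)
    rw [h0, mul_zero] at h1
    rcases mul_eq_zero.1 (VB2r_zero hp h1) with h3 | h3
    · exact absurd h3 hm
    · exact h3

end MWS
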