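import Mathlib

/-!
# LEAF VD2: binary forms with a zero over `ZMod p`

PROOF.  For `t : Fin (n + 1) → ZMod p` let `N t` be the number of `a ∈ ZMod p` with `∑_i t_i a^i = 0`.  The form has a nontrivial zero `(a : b)` iff `N t ≥ 1` (zero with `b ≠ 0`: divide by `b`) or `t_n = 0` (zero `(1 : 0)`; `0 ^ 0 = 1`).
For `r ≤ 3 ≤ n + 1` and distinct `a_1, .., a_r` the evaluations `t ↦ (∑_i t_i a_j^i)_j` are surjective onto `(ZMod p)^r` (Vandermonde in `t_0, t_1, t_2`, or Lagrange interpolation by a polynomial of degree `≤ r - 1 ≤ n`), so exactly `p ^ (n + 1 - r)` of the `t` vanish at all of them.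
Bonferroni: `[N ≥ 1] ≤ N - choose N 2 + choose N 3` for all natural numbers `N` (as real numbers: `N = 0, 1, 2, 3` directly, `choose N 3 ≥ choose N 2` for `N ≥ 5`, ..).  Sum over `t`: `∑ N = p · p^n`, `∑ choose N 2 = choose p 2 · p^(n-1)`, `∑ choose N 3 = choose p 3 · p^(n-2)`:
`#{N ≥ 1} ≤ p^(n+1) (1 - (1/2) (1 - 1/p) + 1/6) = p^(n+1) (2/3 + 1/(2p))`; plus `#{t_n = 0} = p^n`.  Total `≤ (2/3 + 3/(2p)) p^(n+1) ≤ (5/6) p^(n+1)` for `p ≥ 9`.
-/

namespace MWS

open Finset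

private theorem VD2_bonf (N : ℕ) (hN : 1 ≤ N) : 1 + N.choose 2 ≤ N + N.choose 3 := by
  obtain ⟨M, rfl⟩ : ∃ M, N = M + 1 := ⟨N - 1, by omega⟩
  have h3 : (M + 1).choose 3 = M.choose 2 + M.choose 3 := Nat.choose_succ_succ' M 2
  have h2 : (M + 1).choose 2 = M.choose 1 + M.choose 2 := Nat.choose_succ_succ' M 1
  rw [h3, h2, Nat.choose_one_right]
  omega

/-- evaluation of `∑ t_i X^i` at the points of `s` -/
private noncomputable def VD2_ev {p : ℕ} [Fact p.Prime] (n : ℕ) (s : Finset (ZMod p)) :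
    (Fin (n + 1) → ZMod p) →ₗ[ZMod p] (s → ZMod p) where
  toFun t a := ∑ i : Fin (n + 1), t i * a.1 ^ (i : ℕ)
  map_add' t u := by
    funext a
    simp only [Pi.add_apply, add_mul, Finset.sum_add_distrib]
  map_smul' c t := by
    funext a
    simp only [Pi.smul_apply, smul_eq_mul, RingHom.id_apply, Finset.mul_sum, mul_assoc]

private theorem VD2_surj {p : ℕ} [Fact p.Prime] (n : ℕ) (s : Finset (ZMod p)) (hs : s.card ≤ n + 1) :
    Function.Surjective (VD2_ev n s) := by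
  classical
  intro v
  set P : Polynomial (ZMod p) := Lagrange.interpolate s id (fun a => if h : a ∈ s then v ⟨a, h⟩ else 0) with hP
  have hdeg : P.degree < s.card := Lagrange.degree_interpolate_lt _ (Set.injOn_id _)
  have hn : P.degree < ((n + 1 : ℕ) : WithBot ℕ) :=
    lt_of_lt_of_le hdeg (by exact_mod_cast hs)
  refine ⟨fun i => P.coeff i, ?_⟩
  funext a
  have hev : P.eval a.1 = v a := by
    have h := Lagrange.eval_interpolate_at_node (fun a => if h : a ∈ s then v ⟨a, h⟩ else 0)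
      (Set.injOn_id (s : Set (ZMod p))) a.2
    simp only [id] at h
    rw [hP]
    rw [h, dif_pos a.2]
  rw [← hev]
  change ∑ i : Fin (n + 1), P.coeff i * a.1 ^ (i : ℕ) = P.eval a.1
  have hnat : P.natDegree < n + 1 := by
    by_cases h0 : P = 0
    · rw [h0]; simp
    · exact (Polynomial.natDegree_lt_iff_degree_lt h0).2 hn
  rw [Polynomial.eval_eq_sum_range' hnat, Finset.sum_range]

private theorem VD2_cnt {p : ℕ} [Fact p.Prime] {n : ℕ} (s : Finset (ZMod p)) (hs : s.card ≤ n + 1) :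
    (univ.filter fun t : Fin (n + 1) → ZMod p =>
      ∀ a ∈ s, ∑ i : Fin (n + 1), t i * a ^ (i : ℕ) = 0).card = p ^ (n + 1 - s.card) := by
  classical
  have hk : Module.finrank (ZMod p) (LinearMap.ker (VD2_ev n s)) = n + 1 - s.card := by
    have h := LinearMap.finrank_range_add_finrank_ker (VD2_ev n s)
    rw [LinearMap.range_eq_top.2 (VD2_surj n s hs), finrank_top, Module.finrank_pi, Module.finrank_pi,
      Fintype.card_fin, Fintype.card_coe] at h
    omega
  have hc : Fintype.card (LinearMap.ker (VD2_ev (p := p) n s)) = p ^ (n + 1 - s.card) := by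
    rw [Module.card_eq_pow_finrank (K := ZMod p), hk, ZMod.card]
  rw [← hc, ← Fintype.card_coe]
  refine Fintype.card_congr (Equiv.subtypeEquivRight fun t => ?_)
  rw [Finset.mem_filter, LinearMap.mem_ker]
  constructor
  · intro h
    funext a
    exact h.2 a.1 a.2
  · intro h
    refine ⟨Finset.mem_univ _, fun a ha => ?_⟩
    exact congrFun h ⟨a, ha⟩

/-- the zeros of `∑ t_i X^i` -/
private noncomputable def VD2_Z {p : ℕ} [Fact p.Prime] {n : ℕ} (t : Fin (n + 1) → ZMod p) : Finset (ZMod p) :=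
  univ.filter fun a => ∑ i : Fin (n + 1), t i * a ^ (i : ℕ) = 0

private theorem VD2_sum {p : ℕ} [Fact p.Prime] {n : ℕ} (r : ℕ) (hr : r ≤ n + 1) :
    ∑ t : Fin (n + 1) → ZMod p, (VD2_Z t).card.choose r = p.choose r * p ^ (n + 1 - r) := by
  classical
  have h1 : ∀ t : Fin (n + 1) → ZMod p, (VD2_Z t).card.choose r =
      ∑ s ∈ (univ : Finset (ZMod p)).powersetCard r, if s ⊆ VD2_Z t then 1 else 0 := by
    intro t
    rw [← Finset.card_powersetCard, ← Finset.card_filter]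
    refine congrArg Finset.card ?_
    ext s
    simp only [Finset.mem_powersetCard, Finset.mem_filter, Finset.subset_univ, true_and]
    tauto
  rw [Finset.sum_congr rfl fun t _ => h1 t, Finset.sum_comm]
  have h2 : ∀ s ∈ (univ : Finset (ZMod p)).powersetCard r,
      (∑ t : Fin (n + 1) → ZMod p, if s ⊆ VD2_Z t then 1 else 0) = p ^ (n + 1 - r) := by
    intro s hs
    have hsc : s.card = r := (Finset.mem_powersetCard.1 hs).2
    rw [← Finset.card_filter]
    rw [← hsc] at hr ⊢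
    rw [← VD2_cnt s hr]
    refine congrArg Finset.card ?_
    ext t
    simp only [Finset.mem_filter, Finset.mem_univ, true_and, VD2_Z, Finset.subset_iff]
  rw [Finset.sum_congr rfl h2, Finset.sum_const, Finset.card_powersetCard, Finset.card_univ, ZMod.card,
    smul_eq_mul]

private theorem VD2_last {p : ℕ} [Fact p.Prime] {n : ℕ} :
    (univ.filter fun t : Fin (n + 1) → ZMod p => t (Fin.last n) = 0).card = p ^ n := by
  classical
  have h : (univ.filter fun t : Fin (n + 1) → ZMod p => t (Fin.last n) = 0).card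
      = Fintype.card (Fin n → ZMod p) := by
    rw [← Fintype.card_coe]
    refine Fintype.card_congr
      { toFun := fun t i => t.1 i.castSucc
        invFun := fun u => ⟨Fin.snoc u 0, by simp⟩
        left_inv := ?_
        right_inv := ?_ }
    · intro t
      apply Subtype.ext
      funext i
      refine Fin.lastCases ?_ (fun j => ?_) i
      · have h2 := (Finset.mem_filter.1 t.2).2
        simp [h2]
      · simp
    · intro u
      funext i
      simp
  rw [h, Fintype.card_fun, ZMod.card, Fintype.card_fin]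

private theorem VD2_pos {p : ℕ} [Fact p.Prime] {n : ℕ} :
    (univ.filter fun t : Fin (n + 1) → ZMod p => 1 ≤ (VD2_Z t).card).card +
      ∑ t : Fin (n + 1) → ZMod p, (VD2_Z t).card.choose 2 ≤
    ∑ t : Fin (n + 1) → ZMod p, (VD2_Z t).card.choose 1 + ∑ t : Fin (n + 1) → ZMod p, (VD2_Z t).card.choose 3 := by
  classical
  rw [Finset.card_filter, ← Finset.sum_add_distrib, ← Finset.sum_add_distrib]
  refine Finset.sum_le_sum fun t _ => ?_
  rw [Nat.choose_one_right]
  by_cases h : 1 ≤ (VD2_Z t).card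
  · rw [if_pos h]
    exact VD2_bonf _ h
  · rw [if_neg h]
    have h0 : (VD2_Z t).card = 0 := by omega
    rw [h0]
    simp

private theorem VD2_cover {p : ℕ} [Fact p.Prime] {n : ℕ} (t : Fin (n + 1) → ZMod p)
    (h : ∃ a b : ZMod p, (a ≠ 0 ∨ b ≠ 0) ∧
      ∑ i : Fin (n + 1), t i * a ^ (i : ℕ) * b ^ (n - (i : ℕ)) = 0) :
    1 ≤ (VD2_Z t).card ∨ t (Fin.last n) = 0 := by
  classical
  obtain ⟨a, b, hab, hs⟩ := h
  by_cases hb : b = 0
  · right
    have ha : a ≠ 0 := by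
      rcases hab with h | h
      · exact h
      · exact absurd hb h
    subst hb
    rw [Fin.sum_univ_castSucc] at hs
    have h0 : ∑ i : Fin n, t i.castSucc * a ^ ((i.castSucc : Fin (n + 1)) : ℕ) *
        (0 : ZMod p) ^ (n - ((i.castSucc : Fin (n + 1)) : ℕ)) = 0 := by
      refine Finset.sum_eq_zero fun i _ => ?_
      have hi : (i : ℕ) < n := i.2
      rw [Fin.val_castSucc, zero_pow (by omega), mul_zero]
    rw [h0, zero_add, Fin.val_last, Nat.sub_self, pow_zero, mul_one] at hs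
    rcases mul_eq_zero.1 hs with h | h
    · exact h
    · exact absurd h (pow_ne_zero _ ha)
  · left
    rw [Nat.one_le_iff_ne_zero, ← Nat.pos_iff_ne_zero, Finset.card_pos]
    refine ⟨a / b, ?_⟩
    rw [VD2_Z, Finset.mem_filter]
    refine ⟨Finset.mem_univ _, ?_⟩
    have h1 : (∑ i : Fin (n + 1), t i * (a / b) ^ (i : ℕ)) * b ^ n = 0 := by
      rw [Finset.sum_mul, ← hs]
      refine Finset.sum_congr rfl fun i _ => ?_
      have hi : (i : ℕ) ≤ n := Nat.lt_succ_iff.1 i.2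
      have h2 : b ^ n = b ^ (i : ℕ) * b ^ (n - (i : ℕ)) := by
        rw [← pow_add]
        congr 1
        omega
      rw [h2, div_pow]
      have h3 : b ^ (i : ℕ) ≠ 0 := pow_ne_zero _ hb
      field_simp
    rcases mul_eq_zero.1 h1 with h | h
    · exact h
    · exact absurd h (pow_ne_zero _ hb)

theorem forms {p : ℕ} [Fact p.Prime] (hp : 11 ≤ p) {n : ℕ} (hn : 2 ≤ n) :
    (Nat.card {t : Fin (n + 1) → ZMod p // ∃ a b : ZMod p, (a ≠ 0 ∨ b ≠ 0) ∧
      ∑ i : Fin (n + 1), t i * a ^ (i : ℕ) * b ^ (n - (i : ℕ)) = 0} : ℝ) ≤ (1 - 1 / 6) * (p : ℝ) ^ (n + 1) := by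
  classical
  obtain ⟨m, rfl⟩ : ∃ m, n = m + 2 := ⟨n - 2, by omega⟩
  set A := univ.filter fun t : Fin (m + 2 + 1) → ZMod p => 1 ≤ (VD2_Z t).card with hA
  set B := univ.filter fun t : Fin (m + 2 + 1) → ZMod p => t (Fin.last (m + 2)) = 0 with hB
  have hle : Nat.card {t : Fin (m + 2 + 1) → ZMod p // ∃ a b : ZMod p, (a ≠ 0 ∨ b ≠ 0) ∧
      ∑ i : Fin (m + 2 + 1), t i * a ^ (i : ℕ) * b ^ (m + 2 - (i : ℕ)) = 0} ≤ A.card + B.card := by
    rw [Nat.card_eq_fintype_card, Fintype.card_subtype]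
    refine le_trans (Finset.card_le_card ?_) (Finset.card_union_le A B)
    intro t ht
    rw [Finset.mem_filter] at ht
    rw [Finset.mem_union, hA, hB, Finset.mem_filter, Finset.mem_filter]
    rcases VD2_cover t ht.2 with h | h
    · exact Or.inl ⟨Finset.mem_univ _, h⟩
    · exact Or.inr ⟨Finset.mem_univ _, h⟩
  have hpos := VD2_pos (p := p) (n := m + 2)
  rw [VD2_sum 1 (by omega), VD2_sum 2 (by omega), VD2_sum 3 (by omega), ← hA] at hpos
  have hBc : B.card = p ^ (m + 2) := VD2_last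
  rw [Nat.choose_one_right] at hpos
  have e1 : m + 2 + 1 - 1 = m + 2 := by omega
  have e2 : m + 2 + 1 - 2 = m + 1 := by omega
  have e3 : m + 2 + 1 - 3 = m := by omega
  rw [e1, e2, e3] at hpos
  have hc2 : ((p.choose 2 : ℕ) : ℝ) = (p : ℝ) * ((p : ℝ) - 1) / 2 := Nat.cast_choose_two ℝ p
  have hc3 : ((p.choose 3 : ℕ) : ℝ) = (p : ℝ) * ((p : ℝ) - 1) * ((p : ℝ) - 2) / 6 := by
    have h := Nat.cast_choose_eq_ascPochhammer_div ℝ p 3
    rw [h]
    have h4 : ((p - (3 - 1) : ℕ) : ℝ) = (p : ℝ) - 2 := by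
      rw [Nat.cast_sub (by omega)]
      norm_num
    rw [h4]
    simp only [ascPochhammer_succ_right, ascPochhammer_zero, Polynomial.eval_mul, Polynomial.eval_add,
      Polynomial.eval_X, Polynomial.eval_one, Polynomial.eval_natCast, Nat.factorial]
    push_cast
    ring
  have hposR : (A.card : ℝ) + (p : ℝ) * ((p : ℝ) - 1) / 2 * (p : ℝ) ^ (m + 1) ≤
      (p : ℝ) * (p : ℝ) ^ (m + 2) + (p : ℝ) * ((p : ℝ) - 1) * ((p : ℝ) - 2) / 6 * (p : ℝ) ^ m := by
    rw [← hc2, ← hc3]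
    exact_mod_cast hpos
  have hleR : (Nat.card {t : Fin (m + 2 + 1) → ZMod p // ∃ a b : ZMod p, (a ≠ 0 ∨ b ≠ 0) ∧
      ∑ i : Fin (m + 2 + 1), t i * a ^ (i : ℕ) * b ^ (m + 2 - (i : ℕ)) = 0} : ℝ) ≤
      (A.card : ℝ) + (p : ℝ) ^ (m + 2) := by
    rw [hBc] at hle
    exact_mod_cast hle
  refine le_trans hleR ?_
  have hp' : (11 : ℝ) ≤ (p : ℝ) := by exact_mod_cast hp
  have hpm : (0 : ℝ) < (p : ℝ) ^ m := by positivity
  have hkey : (p : ℝ) * (p : ℝ) ^ (m + 2) + (p : ℝ) * ((p : ℝ) - 1) * ((p : ℝ) - 2) / 6 * (p : ℝ) ^ m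
      - (p : ℝ) * ((p : ℝ) - 1) / 2 * (p : ℝ) ^ (m + 1) + (p : ℝ) ^ (m + 2)
      = (p : ℝ) ^ m * ((p : ℝ) ^ 3 * (2 / 3) + (p : ℝ) ^ 2 + (p : ℝ) / 3) := by
    rw [pow_add, pow_add, pow_one]
    ring
  have hfin : (p : ℝ) ^ m * ((p : ℝ) ^ 3 * (2 / 3) + (p : ℝ) ^ 2 + (p : ℝ) / 3) ≤
      (1 - 1 / 6) * (p : ℝ) ^ (m + 2 + 1) := by
    have h1 : (1 - 1 / 6) * (p : ℝ) ^ (m + 2 + 1) = (p : ℝ) ^ m * ((5 / 6) * (p : ℝ) ^ 3) := by
      rw [show m + 2 + 1 = m + 3 from rfl, pow_add]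
      ring
    rw [h1]
    refine mul_le_mul_of_nonneg_left ?_ hpm.le
    nlinarith [mul_nonneg (by linarith : (0 : ℝ) ≤ (p : ℝ)) (mul_nonneg (by linarith : (0 : ℝ) ≤ (p : ℝ) - 11) (by linarith : (0 : ℝ) ≤ (p : ℝ)))]
  linarith

end MWS
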