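import Pool.Agent.Lib.MP_10e784_agV.VD1
import Pool.Agent.Lib.MP_10e784_agV.VD2

/-!
# LEAF VD3: the density for curves on `P¹ × E`

PROOF.  `card_fib` (`κ = Fin (n + 1)`, `ι = Bs d`, `w = bv z`, `bv_ne`) and `forms`; `card (Bs d) = 2 d` for `d ≥ 1`.
-/

namespace MWS

open Finset

theorem dens_form {p : ℕ} [Fact p.Prime] (hp : 11 ≤ p) {n d : ℕ} (hn : 2 ≤ n) (hd : 1 ≤ d)
    (z : Option (ZMod p × ZMod p)) :
    (Nat.card {c : Fin (n + 1) × Bs d → ZMod p // ∃ a b : ZMod p, (a ≠ 0 ∨ b ≠ 0) ∧ FB c z a b = 0} : ℝ) ≤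
      (1 - 1 / 6) * (p : ℝ) ^ ((n + 1) * (2 * d)) := by
  have h1 := card_fib (κ := Fin (n + 1)) (ι := Bs d) (bv z) (bv_ne z)
    {t : Fin (n + 1) → ZMod p | ∃ a b : ZMod p, (a ≠ 0 ∨ b ≠ 0) ∧
      ∑ i : Fin (n + 1), t i * a ^ (i : ℕ) * b ^ (n - (i : ℕ)) = 0}
  have h2 := forms hp hn
  have hc : Fintype.card (Bs d) = 2 * d := by
    rw [Fintype.card_sum, Fintype.card_fin, Fintype.card_fin]
    omega
  rw [Fintype.card_fin, hc] at h1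
  have hp0 : (0 : ℝ) < (p : ℝ) ^ (n + 1) := by
    have : (0 : ℝ) < p := by exact_mod_cast (by omega : 0 < p)
    positivity
  have h3 : (Nat.card {c : Fin (n + 1) × Bs d → ZMod p // ∃ a b : ZMod p, (a ≠ 0 ∨ b ≠ 0) ∧
      FB c z a b = 0} : ℝ) * (p : ℝ) ^ (n + 1) =
      (Nat.card {t : Fin (n + 1) → ZMod p // ∃ a b : ZMod p, (a ≠ 0 ∨ b ≠ 0) ∧
      ∑ i : Fin (n + 1), t i * a ^ (i : ℕ) * b ^ (n - (i : ℕ)) = 0} : ℝ) *
        (p : ℝ) ^ ((n + 1) * (2 * d)) := by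
    exact_mod_cast h1
  have h4 : (Nat.card {c : Fin (n + 1) × Bs d → ZMod p // ∃ a b : ZMod p, (a ≠ 0 ∨ b ≠ 0) ∧
      FB c z a b = 0} : ℝ) * (p : ℝ) ^ (n + 1) ≤
      ((1 - 1 / 6) * (p : ℝ) ^ ((n + 1) * (2 * d))) * (p : ℝ) ^ (n + 1) := by
    rw [h3]
    calc _ ≤ ((1 - 1 / 6) * (p : ℝ) ^ (n + 1)) * (p : ℝ) ^ ((n + 1) * (2 * d)) :=
          mul_le_mul_of_nonneg_right h2 (by positivity)
      _ = _ := by ring
  exact le_of_mul_le_mul_right h4 hp0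

end MWS
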