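import Pool.Agent.Lib.MP_10e784_agW.RA

/-!
# LEAF C2: two-descent on `y² = x³ + α x`, identities

PROOF of `prod_sq`: `lin_of_sum` gives `l, n` with `β - n² = -(x₁ x₂ x₃)`, `β = 0`.
PROOF of `mu_prod`.  `lin_of_sum`: `y_i = l x_i + n`, `x_i = r_i²`, `n² = (r₁ r₂ r₃)²`.  With `u_i = 2 (r_i² + y_i / r_i) = 2 (r_i² + l r_i + n / r_i)`.  Case `n = - r₁ r₂ r₃`: `u₁ = 2 (r₁² + l r₁ - r₂ r₃) = (l + r₁ + r₂ + r₃) (l + r₁ - r₂ - r₃)` by `l² = r₁² + r₂² + r₃²` (`e1`), and cyclically;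
`(l + r₁ + r₂ + r₃)(l + r₁ - r₂ - r₃)(l - r₁ + r₂ - r₃)(l - r₁ - r₂ + r₃) = -4 α` by `e1`, `e2` (`α - 2 l n = r₁² r₂² + r₁² r₃² + r₂² r₃²`), so `u₁ u₂ u₃ = -4 α (l + r₁ + r₂ + r₃)²`, `- α u₁ u₂ u₃ = (2 α (l + ..))²`.
Case `n = r₁ r₂ r₃`: replace `r₁` by `-r₁`: `u₁' = 2 (r₁² - y₁ / r₁)`, `u₁ u₁' = 4 (r₁⁴ - y₁² / r₁²) = -4 α` (`y₁² = r₁² (r₁⁴ + α)`), so `u₁ u₂ u₃ = (-4 α / u₁') u₂ u₃ = (-4 α) (u₁' u₂ u₃) / u₁'² = (-4 α)² (l + ..)² / u₁'²` is a square (`u₁' ≠ 0` as `u₁ u₁' = -4 α ≠ 0`).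
PROOF of `halve`.  `u = 2 (r² + y / r) = w²`, `w ≠ 0` (`u (2 (r² - y/r)) = -4 α ≠ 0`).  `Q = (a, w a)` with `a = w (w + 2 r) / 2`: `a ≠ 0` and `w² a² = a³ + α a`, since `a² - w² a + α = 0` (from `u² - 4 r² u - 4 α = 0`, i.e. `w⁴ - 4 r² w² - 4 α = 0`).  `2 Q`: slope `(3 a² + α)/(2 w a)`;
computing with `α = w² a - a²`: slope `= (2 a² + w² a)/(2 w a) = (2 a + w²)/(2 w)`, `x(2Q) = slope² - 2 a = (w² - 2 a)²/(4 w²) = r²` as `w² - 2 a = -2 r w`, and `y(2Q) = - (slope (r² - a) + w a) = ± y`: if it is `y` take `Q`, if it is `-y` take `-Q`.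
(Or: show `Q + Q + R' = 0` for `R' = (r², y')` with `sum_of_lin`, `l = slope`, `n = w a - l a`.)
-/

namespace MWS

theorem prod_sq {α : ℤ} {x₁ y₁ x₂ y₂ x₃ y₃ : ℚ}
    {h₁ : (EW ℚ α 0).toAffine.Nonsingular x₁ y₁} {h₂ : (EW ℚ α 0).toAffine.Nonsingular x₂ y₂}
    {h₃ : (EW ℚ α 0).toAffine.Nonsingular x₃ y₃}
    (h : (.some x₁ y₁ h₁ : Pt ℚ α 0) + .some x₂ y₂ h₂ + .some x₃ y₃ h₃ = 0) : IsSquare (x₁ * x₂ * x₃) := by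
  obtain ⟨l, n, hl⟩ := lin_of_sum α 0 two_ne_zero x₁ y₁ x₂ y₂ x₃ y₃ h₁ h₂ h₃ h
  have h3 := hl.e3
  rw [Int.cast_zero] at h3
  exact ⟨n, by linear_combination h3⟩

private theorem C2_core {l r₁ r₂ r₃ α : ℚ} (e1 : l ^ 2 = r₁ ^ 2 + r₂ ^ 2 + r₃ ^ 2)
    (e2 : α + 2 * l * (r₁ * r₂ * r₃) = r₁ ^ 2 * r₂ ^ 2 + r₁ ^ 2 * r₃ ^ 2 + r₂ ^ 2 * r₃ ^ 2) :
    2 * (r₁ ^ 2 + (l * r₁ - r₂ * r₃)) * (2 * (r₂ ^ 2 + (l * r₂ - r₁ * r₃))) *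
      (2 * (r₃ ^ 2 + (l * r₃ - r₁ * r₂))) = -4 * α * (l + r₁ + r₂ + r₃) ^ 2 := by
  have a1 : 2 * (r₁ ^ 2 + (l * r₁ - r₂ * r₃)) = (l + r₁ + r₂ + r₃) * (l + r₁ - r₂ - r₃) := by
    linear_combination -e1
  have a2 : 2 * (r₂ ^ 2 + (l * r₂ - r₁ * r₃)) = (l + r₁ + r₂ + r₃) * (l - r₁ + r₂ - r₃) := by
    linear_combination -e1
  have a3 : 2 * (r₃ ^ 2 + (l * r₃ - r₁ * r₂)) = (l + r₁ + r₂ + r₃) * (l - r₁ - r₂ + r₃) := by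
    linear_combination -e1
  have a4 : (l + r₁ + r₂ + r₃) * (l + r₁ - r₂ - r₃) * ((l - r₁ + r₂ - r₃) * (l - r₁ - r₂ + r₃)) =
      -4 * α := by
    linear_combination (l ^ 2 - (r₁ ^ 2 + r₂ ^ 2 + r₃ ^ 2)) * e1 + 4 * e2
  rw [a1, a2, a3]
  linear_combination (l + r₁ + r₂ + r₃) ^ 2 * a4

theorem mu_prod {α : ℤ} (hα : α ≠ 0) {r₁ y₁ r₂ y₂ r₃ y₃ : ℚ} (g₁ : r₁ ≠ 0) (g₂ : r₂ ≠ 0) (g₃ : r₃ ≠ 0)
    {h₁ : (EW ℚ α 0).toAffine.Nonsingular (r₁ ^ 2) y₁} {h₂ : (EW ℚ α 0).toAffine.Nonsingular (r₂ ^ 2) y₂}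
    {h₃ : (EW ℚ α 0).toAffine.Nonsingular (r₃ ^ 2) y₃}
    (h : (.some (r₁ ^ 2) y₁ h₁ : Pt ℚ α 0) + .some (r₂ ^ 2) y₂ h₂ + .some (r₃ ^ 2) y₃ h₃ = 0) :
    IsSquare (2 * (r₁ ^ 2 + y₁ / r₁) * (2 * (r₂ ^ 2 + y₂ / r₂)) * (2 * (r₃ ^ 2 + y₃ / r₃))) ∨
      IsSquare (-α * (2 * (r₁ ^ 2 + y₁ / r₁) * (2 * (r₂ ^ 2 + y₂ / r₂)) * (2 * (r₃ ^ 2 + y₃ / r₃)))) := by
  obtain ⟨l, n, hl⟩ := lin_of_sum α 0 two_ne_zero _ y₁ _ y₂ _ y₃ h₁ h₂ h₃ h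
  obtain ⟨hy1, hy2, hy3, e1, e2, e3⟩ := hl
  rw [Int.cast_zero] at e3
  have hα' : (α : ℚ) ≠ 0 := by exact_mod_cast hα
  have hn : (n - r₁ * r₂ * r₃) * (n + r₁ * r₂ * r₃) = 0 := by linear_combination -e3
  rcases mul_eq_zero.1 hn with hn | hn
  · -- `n = r₁ r₂ r₃`
    left
    have hn' : n = r₁ * r₂ * r₃ := by linear_combination hn
    have q1 : -(y₁ / r₁) = l * (-r₁) - r₂ * r₃ := by
      rw [hy1, hn']
      field_simp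
      ring
    have q2 : y₂ / r₂ = l * r₂ - (-r₁) * r₃ := by
      rw [hy2, hn']
      field_simp
      ring
    have q3 : y₃ / r₃ = l * r₃ - (-r₁) * r₂ := by
      rw [hy3, hn']
      field_simp
      ring
    have hc := C2_core (l := l) (r₁ := -r₁) (r₂ := r₂) (r₃ := r₃) (α := (α : ℚ))
      (by linear_combination e1) (by rw [hn'] at e2; linear_combination e2)
    rw [← q1, ← q2, ← q3] at hc
    have heq : y₁ ^ 2 = (r₁ ^ 2) ^ 3 + (α : ℚ) * r₁ ^ 2 + ((0 : ℤ) : ℚ) := (EW_eqn α 0 _ _).1 h₁.1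
    rw [Int.cast_zero, add_zero] at heq
    have huu : 2 * (r₁ ^ 2 + y₁ / r₁) * (2 * ((-r₁) ^ 2 + -(y₁ / r₁))) = -4 * α := by
      field_simp
      linear_combination -4 * heq
    have hu0 : 2 * ((-r₁) ^ 2 + -(y₁ / r₁)) ≠ 0 := by
      intro h0
      rw [h0, mul_zero] at huu
      exact hα' (by linarith)
    set u := 2 * (r₁ ^ 2 + y₁ / r₁) with hu
    set u' := 2 * ((-r₁) ^ 2 + -(y₁ / r₁)) with hu'
    set v := 2 * (r₂ ^ 2 + y₂ / r₂) with hv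
    set w := 2 * (r₃ ^ 2 + y₃ / r₃) with hw
    refine ⟨4 * α * (l + -r₁ + r₂ + r₃) / u', ?_⟩
    rw [div_mul_div_comm, eq_div_iff (mul_ne_zero hu0 hu0)]
    have : u * v * w * (u' * u') = (u * u') * (u' * v * w) := by ring
    rw [this, huu, hc]
    ring
  · -- `n = - r₁ r₂ r₃`
    right
    have hn' : n = -(r₁ * r₂ * r₃) := by linear_combination hn
    have q1 : y₁ / r₁ = l * r₁ - r₂ * r₃ := by
      rw [hy1, hn']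
      field_simp
      ring
    have q2 : y₂ / r₂ = l * r₂ - r₁ * r₃ := by
      rw [hy2, hn']
      field_simp
      ring
    have q3 : y₃ / r₃ = l * r₃ - r₁ * r₂ := by
      rw [hy3, hn']
      field_simp
      ring
    have hc := C2_core (l := l) (r₁ := r₁) (r₂ := r₂) (r₃ := r₃) (α := (α : ℚ))
      e1 (by rw [hn'] at e2; linear_combination e2)
    rw [← q1, ← q2, ← q3] at hc
    refine ⟨2 * α * (l + r₁ + r₂ + r₃), ?_⟩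
    rw [hc]
    ring

theorem halve {α : ℤ} (hα : α ≠ 0) {r y : ℚ} (hr : r ≠ 0) (h : (EW ℚ α 0).toAffine.Nonsingular (r ^ 2) y)
    (hu : IsSquare (2 * (r ^ 2 + y / r))) : ∃ Q : Pt ℚ α 0, (2 : ℕ) • Q = .some (r ^ 2) y h := by
  have hα' : (α : ℚ) ≠ 0 := by exact_mod_cast hα
  have hd : ((dsc α 0 : ℤ) : ℚ) ≠ 0 := by
    unfold dsc
    push_cast
    have : (4 : ℚ) * (α : ℚ) ^ 3 ≠ 0 := mul_ne_zero (by norm_num) (pow_ne_zero 3 hα')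
    simpa using this
  have heq : y ^ 2 = (r ^ 2) ^ 3 + (α : ℚ) * r ^ 2 + ((0 : ℤ) : ℚ) := (EW_eqn α 0 _ _).1 h.1
  rw [Int.cast_zero, add_zero] at heq
  obtain ⟨w, hw⟩ := hu
  have hy : y = r * w ^ 2 / 2 - r ^ 3 := by
    field_simp at hw
    linear_combination hw / 2
  have hH : w ^ 2 * (4 * r ^ 2 - w ^ 2) = -4 * α := by
    have h1 : r ^ 2 * (w ^ 2 * (4 * r ^ 2 - w ^ 2)) = r ^ 2 * (-4 * α) := by
      rw [hy] at heq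
      linear_combination -4 * heq
    exact mul_left_cancel₀ (pow_ne_zero 2 hr) h1
  obtain ⟨a, ha⟩ : ∃ a : ℚ, a = w * (w + 2 * r) / 2 := ⟨_, rfl⟩
  have hα2 : (α : ℚ) = w ^ 2 * a - a ^ 2 := by
    rw [ha]
    linear_combination hH / 4
  have hQ : (EW ℚ α 0).toAffine.Nonsingular a (w * a) := by
    rw [EW_nons α 0 two_ne_zero hd, Int.cast_zero, hα2]
    ring
  have hR : (EW ℚ α 0).toAffine.Nonsingular (r ^ 2) (-y) := by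
    rw [EW_nons α 0 two_ne_zero hd, Int.cast_zero]
    linear_combination heq
  have hlin : Lin α 0 (w + r) (-(a * r)) a (w * a) a (w * a) (r ^ 2) (-y) := by
    refine ⟨by ring, by ring, ?_, ?_, ?_, ?_⟩
    · rw [hy, ha]
      ring
    · rw [ha]
      ring
    · rw [hα2, ha]
      ring
    · rw [Int.cast_zero]
      ring
  have hsum := sum_of_lin α 0 two_ne_zero hd a (w * a) a (w * a) (r ^ 2) (-y) (w + r) (-(a * r)) hQ hQ hR hlin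
  refine ⟨.some a (w * a) hQ, ?_⟩
  have hneg : (.some (r ^ 2) (-y) hR : Pt ℚ α 0) = -.some (r ^ 2) y h := by
    rw [WeierstrassCurve.Affine.Point.neg_some, WeierstrassCurve.Affine.Point.some.injEq]
    refine ⟨rfl, ?_⟩
    show -y = -y - (0 : ℚ) * r ^ 2 - 0
    ring
  rw [hneg] at hsum
  rw [two_nsmul]
  exact add_neg_eq_zero.1 hsum

end MWS
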