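import Pool.Agent.Lib.MP_10e784_agV.C1
import Pool.Agent.Lib.MP_10e784_agV.C2

/-!
# LEAF C3: the number of classes modulo 2

PROOF.  `S₁` = the primes dividing `α`, `S₂` = the primes dividing `4 α` (`= (2 * α).natAbs.primeFactors`), `f₁, f₂` from `classes_sq`.  Let `T = (0, 0)`.  The points `P ∉ {O, T}` are `(x, y)` with `x ≠ 0` (`x = 0` gives `y = 0`) and `v_p x` is even for `p ∤ α` (`val_even`).
`E₀` = the points `R = (r², y)`, `r ≠ 0`, with an invariant `u = 2 (r² + y/r)`: `u ≠ 0`, `(2 r u)² = u³ - 4 α u`, so `v_p u` is even for `p ∤ 4 α` (`val_even` for `a = -4 α`).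
(1) `P, Q ∉ {O, T}`, `f₁ (x P) = f₁ (x Q)`: `R = P + Q` is `O`, `T` or in `E₀` (`prod_sq` for `P, Q, -R` and `x P x Q` a square), and `P = Q + R - 2 Q`.
(2) `R, R' ∈ E₀` (with chosen `r, r'`), `f₂ u = f₂ u'`: `R'' = -(R + R')` is `O`, `T`, or `(r''², y'')`, `r'' ≠ 0` (`prod_sq`: `r² r'² x''` is a square) and by `mu_prod` and `IsSquare (u u')`: `u''` or `-α u''` is a square; in the second case replace `r''` by `-r''` (`u'' · 2 (r''² - y''/r'') = -4 α`): `halve` gives `R'' ∈ 2 E`.  So `R = R' + 2 (..)`, or `R = R' + T + 2 (..)` (as `-(R + R') ∈ {O, T} + 2 E` and `2 R' ∈ 2 E`).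
Representatives: for each value `i` of `f₁` a point `Q_i ∉ {O, T}` with `f₁ (x Q_i) = i` (if there is one, else `0`), for each value `j` of `f₂` a point `R_j ∈ E₀` (if there is one, else `0`).  Every `P` is congruent modulo `2 E` to `a T + [Q_i] + [R_j]`, where `a ∈ {0, 1}` and each bracket may be missing: at most `2 (2 ^ (ω + 1) + 1) (2 ^ (ω + 1) + 1) ≤ 2 ^ (2 ω + 5)` classes,
`ω = card S₂`.  (The statement allows `2 ^ (2 ω + 6)`.)
-/

namespace MWS

/-- Two-step count of the classes modulo two. -/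
private theorem C3_abs {E : Type*} [AddCommGroup E] {κ₁ κ₂ : Type} (C₁ : κ₁ → E → Prop) (M : E → Prop)
    (C₂ : κ₂ → E → Prop) (T : E) (h1 : ∀ P, ∃ i, C₁ i P)
    (h2 : ∀ i P Q, C₁ i P → C₁ i Q → ∃ R W, M R ∧ P = Q + R + 2 • W)
    (h3 : ∀ R, M R → ∃ j, C₂ j R)
    (h4 : ∀ j R R', C₂ j R → C₂ j R' → ∃ W, R = R' + 2 • W ∨ R = R' + T + 2 • W) :
    ∃ r : κ₁ × κ₂ × Bool → E, ∀ P, ∃ k, ∃ Q, P = r k + 2 • Q := by
  classical
  have hp : ∀ i, ∃ p : E, (∃ P, C₁ i P) → C₁ i p := by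
    intro i
    by_cases h : ∃ P, C₁ i P
    · exact ⟨h.choose, fun _ => h.choose_spec⟩
    · exact ⟨0, fun h' => absurd h' h⟩
  have hq : ∀ j, ∃ q : E, (∃ R, C₂ j R) → C₂ j q := by
    intro j
    by_cases h : ∃ R, C₂ j R
    · exact ⟨h.choose, fun _ => h.choose_spec⟩
    · exact ⟨0, fun h' => absurd h' h⟩
  choose p hp using hp
  choose q hq using hq
  refine ⟨fun k => p k.1 + q k.2.1 + if k.2.2 then T else 0, fun P => ?_⟩
  obtain ⟨i, hi⟩ := h1 P
  obtain ⟨R, W, hR, e1⟩ := h2 i P (p i) hi (hp i ⟨P, hi⟩)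
  obtain ⟨j, hj⟩ := h3 R hR
  obtain ⟨W', e2⟩ := h4 j R (q j) hj (hq j ⟨R, hj⟩)
  rcases e2 with e2 | e2
  · refine ⟨(i, j, false), W + W', ?_⟩
    rw [e1, e2]
    simp only [Bool.false_eq_true, if_false]
    abel
  · refine ⟨(i, j, true), W + W', ?_⟩
    rw [e1, e2]
    simp only [if_true]
    abel

/-- Passing from a finite type of indices to `Fin N`. -/
private theorem C3_fin {E κ : Type*} [Zero E] [Fintype κ] {N : ℕ} (hN : Fintype.card κ ≤ N) (r : κ → E) :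
    ∃ r' : Fin N → E, ∀ k, ∃ i, r' i = r k := by
  classical
  obtain ⟨e⟩ := Function.Embedding.nonempty_of_card_le (α := κ) (β := Fin N) (by simpa using hN)
  exact ⟨Function.extend e r 0, fun k => ⟨e k, e.injective.extend_apply _ _ _⟩⟩

/-- If `a b` is a square and `a ≠ 0` is a square then so is `b`. -/
private theorem C3_sq {a b : ℚ} (ha : a ≠ 0) (h1 : IsSquare a) (h2 : IsSquare (a * b)) : IsSquare b := by
  obtain ⟨c, hc⟩ := h1
  obtain ⟨d, hd⟩ := h2
  have hc0 : c ≠ 0 := by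
    rintro rfl
    exact ha (by simpa using hc)
  refine ⟨d / c, ?_⟩
  have : c * c * b = d * d := by rw [← hc]; exact hd
  field_simp
  linear_combination this

/-- The identity of the invariant `u`. -/
private theorem C3_u {α : ℤ} {r y : ℚ} (hr : r ≠ 0) (h : y ^ 2 = (r ^ 2) ^ 3 + α * r ^ 2) :
    2 * (r ^ 2 + y / r) * (2 * (r ^ 2 + y / (-r))) = -4 * α := by
  have e : y ^ 2 / r ^ 2 = r ^ 4 + α := by
    rw [h]
    field_simp
  have e1 : y / (-r) = -(y / r) := by rw [div_neg]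
  have e2 : (y / r) ^ 2 = r ^ 4 + α := by rw [div_pow]; exact e
  rw [e1]
  linear_combination -4 * e2

private theorem C3_u_ne {α : ℤ} (hα : α ≠ 0) {r y : ℚ} (hr : r ≠ 0) (h : y ^ 2 = (r ^ 2) ^ 3 + α * r ^ 2) :
    2 * (r ^ 2 + y / r) ≠ 0 := by
  intro h0
  have := C3_u hr h
  rw [h0, zero_mul] at this
  have hα' : (α : ℚ) ≠ 0 := Int.cast_ne_zero.2 hα
  exact hα' (by linarith)

private theorem C3_u_eq {α : ℤ} {r y : ℚ} (hr : r ≠ 0) (h : y ^ 2 = (r ^ 2) ^ 3 + α * r ^ 2) :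
    (2 * r * (2 * (r ^ 2 + y / r))) ^ 2 = (2 * (r ^ 2 + y / r)) ^ 3 + ((-4 * α : ℤ) : ℚ) * (2 * (r ^ 2 + y / r)) := by
  have e := C3_u hr h
  rw [div_neg] at e
  push_cast
  linear_combination (2 * (r ^ 2 + y / r)) * e

theorem reps2 {α : ℤ} (hα : α ≠ 0) : ∃ r : Fin (2 ^ (2 * (2 * α).natAbs.primeFactors.card + 6)) → Pt ℚ α 0,
    ∀ P : Pt ℚ α 0, ∃ i, ∃ Q : Pt ℚ α 0, P = r i + 2 • Q := by
  classical
  have hα' : (α : ℚ) ≠ 0 := Int.cast_ne_zero.2 hα
  have heqn : ∀ {x y : ℚ}, (EW ℚ α 0).toAffine.Nonsingular x y → y ^ 2 = x ^ 3 + α * x := by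
    intro x y h
    have := (EW_eqn α 0 x y).1 h.1
    simpa using this
  have hT : (EW ℚ α 0).toAffine.Nonsingular 0 0 := by
    rw [EW_nons α 0 two_ne_zero]
    · simp
    · unfold dsc
      push_cast
      intro h
      apply hα'
      have : (α : ℚ) ^ 3 = 0 := by linarith
      exact pow_eq_zero_iff (three_ne_zero) |>.1 this
  obtain ⟨T, hTdef⟩ : ∃ T : Pt ℚ α 0, T = .some 0 0 hT := ⟨_, rfl⟩
  have hTof : ∀ {x y : ℚ} (h : (EW ℚ α 0).toAffine.Nonsingular x y), x = 0 → (.some x y h : Pt ℚ α 0) = T := by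
    intro x y h hx
    subst hx
    have := heqn h
    have hy : y = 0 := by
      have : y ^ 2 = 0 := by simpa using this
      exact pow_eq_zero_iff two_ne_zero |>.1 this
    subst hy
    rw [hTdef]
  -- primes outside of `S`
  have hS : ∀ p : ℕ, p.Prime → p ∉ (2 * α).natAbs.primeFactors → ¬ (p : ℤ) ∣ 2 * α := by
    intro p hp hpS hd
    apply hpS
    rw [Nat.mem_primeFactors]
    refine ⟨hp, Int.natCast_dvd.1 hd, ?_⟩
    rw [Int.natAbs_ne_zero]
    exact mul_ne_zero two_ne_zero hα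
  have hS1 : ∀ p : ℕ, p.Prime → p ∉ (2 * α).natAbs.primeFactors → ¬ (p : ℤ) ∣ α :=
    fun p hp hpS hd => hS p hp hpS (Dvd.dvd.mul_left hd 2)
  have hS2 : ∀ p : ℕ, p.Prime → p ∉ (2 * α).natAbs.primeFactors → ¬ (p : ℤ) ∣ -4 * α := by
    intro p hp hpS hd
    have hp' : Prime (p : ℤ) := Nat.prime_iff_prime_int.1 hp
    have h4 : (-4 * α : ℤ) = (-2) * (2 * α) := by ring
    rw [h4] at hd
    rcases hp'.dvd_or_dvd hd with h | h
    · exact hS p hp hpS (Dvd.dvd.mul_right ((dvd_neg (a := (p : ℤ)) (b := 2)).1 h) α)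
    · exact hS p hp hpS h
  obtain ⟨f, hf⟩ := classes_sq (2 * α).natAbs.primeFactors
  -- the first step
  have step1 : ∀ {x y x' y' : ℚ} (h : (EW ℚ α 0).toAffine.Nonsingular x y) (h' : (EW ℚ α 0).toAffine.Nonsingular x' y'),
      x ≠ 0 → x' ≠ 0 → IsSquare (x * x') →
      (-((.some x y h : Pt ℚ α 0) + .some x' y' h') = 0 ∨ -((.some x y h : Pt ℚ α 0) + .some x' y' h') = T ∨
        ∃ (r y'' : ℚ) (h'' : (EW ℚ α 0).toAffine.Nonsingular (r ^ 2) y''), r ≠ 0 ∧
          -((.some x y h : Pt ℚ α 0) + .some x' y' h') = .some (r ^ 2) y'' h'') := by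
    intro x y x' y' h h' hx hx' hsq
    obtain ⟨N, hc⟩ : ∃ N : Pt ℚ α 0, N = -((.some x y h : Pt ℚ α 0) + .some x' y' h') := ⟨_, rfl⟩
    rw [← hc]
    rcases N with _ | ⟨x3, y3, h3⟩
    · exact Or.inl rfl
    · right
      have hsum : (.some x y h : Pt ℚ α 0) + .some x' y' h' + .some x3 y3 h3 = 0 := by
        rw [hc]
        exact add_neg_cancel _
      have hs3 : IsSquare x3 := C3_sq (mul_ne_zero hx hx') hsq (prod_sq hsum)
      obtain ⟨r, hr⟩ := hs3
      by_cases hr0 : r = 0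
      · left
        exact hTof h3 (by rw [hr, hr0, mul_zero])
      · right
        have hr2 : x3 = r ^ 2 := by rw [hr, sq]
        subst hr2
        exact ⟨r, y3, h3, hr0, rfl⟩
  -- the second step
  have step2 : ∀ {r y r' y' : ℚ} (h : (EW ℚ α 0).toAffine.Nonsingular (r ^ 2) y)
      (h' : (EW ℚ α 0).toAffine.Nonsingular (r' ^ 2) y'),
      r ≠ 0 → r' ≠ 0 → f (2 * (r ^ 2 + y / r)) = f (2 * (r' ^ 2 + y' / r')) →
      ∃ W : Pt ℚ α 0, (.some (r ^ 2) y h : Pt ℚ α 0) = .some (r' ^ 2) y' h' + 2 • W ∨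
        (.some (r ^ 2) y h : Pt ℚ α 0) = .some (r' ^ 2) y' h' + T + 2 • W := by
    intro r y r' y' h h' hr hr' hff
    have eqr := heqn h
    have eqr' := heqn h'
    have hu := C3_u_ne hα hr eqr
    have hu' := C3_u_ne hα hr' eqr'
    have huu : IsSquare (2 * (r ^ 2 + y / r) * (2 * (r' ^ 2 + y' / r'))) := by
      refine hf _ _ hu hu' (fun p hp hpS => ?_) (fun p hp hpS => ?_) hff
      · exact val_even hp (hS2 p hp hpS) hu (C3_u_eq hr eqr)
      · exact val_even hp (hS2 p hp hpS) hu' (C3_u_eq hr' eqr')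
    have hsq : IsSquare (r ^ 2 * r' ^ 2) := ⟨r * r', by ring⟩
    obtain ⟨P, hP⟩ : ∃ P : Pt ℚ α 0, P = .some (r ^ 2) y h := ⟨_, rfl⟩
    obtain ⟨P', hP'⟩ : ∃ P' : Pt ℚ α 0, P' = .some (r' ^ 2) y' h' := ⟨_, rfl⟩
    have hcase := step1 h h' (pow_ne_zero 2 hr) (pow_ne_zero 2 hr') hsq
    rw [← hP, ← hP'] at hcase ⊢
    rcases hcase with h0 | h0 | ⟨r3, y3, h3, hr3, h0⟩
    · refine ⟨-P', Or.inl ?_⟩
      have : P = -P' := by
        have := neg_eq_zero.1 h0
        exact eq_neg_of_add_eq_zero_left this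
      rw [this]
      abel
    · refine ⟨-P' - T, Or.inr ?_⟩
      have : P = -P' - T := by
        rw [← h0]
        abel
      rw [this]
      abel
    · -- `-(P + P')` is twice a point
      have hsum : P + P' + .some (r3 ^ 2) y3 h3 = 0 := by
        rw [← h0]
        exact add_neg_cancel _
      have eq3 := heqn h3
      have hu3 := C3_u_ne hα hr3 eq3
      have hdouble : ∃ Q : Pt ℚ α 0, (2 : ℕ) • Q = .some (r3 ^ 2) y3 h3 := by
        rw [hP, hP'] at hsum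
        rcases mu_prod hα hr hr' hr3 hsum with hm | hm
        · exact halve hα hr3 h3 (C3_sq (mul_ne_zero hu hu') huu hm)
        · have hm' : IsSquare ((2 * (r ^ 2 + y / r) * (2 * (r' ^ 2 + y' / r'))) * (-α * (2 * (r3 ^ 2 + y3 / r3)))) := by
            have e : (2 * (r ^ 2 + y / r) * (2 * (r' ^ 2 + y' / r'))) * (-α * (2 * (r3 ^ 2 + y3 / r3))) =
                -α * (2 * (r ^ 2 + y / r) * (2 * (r' ^ 2 + y' / r')) * (2 * (r3 ^ 2 + y3 / r3))) := by ring
            rw [e]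
            exact hm
          have hm2 := C3_sq (mul_ne_zero hu hu') huu hm'
          have hneg : IsSquare (2 * ((-r3) ^ 2 + y3 / (-r3))) := by
            obtain ⟨c, hc⟩ := hm2
            refine ⟨2 * c / (2 * (r3 ^ 2 + y3 / r3)), ?_⟩
            have e := C3_u hr3 eq3
            obtain ⟨u, hudef⟩ : ∃ u : ℚ, u = 2 * (r3 ^ 2 + y3 / r3) := ⟨_, rfl⟩
            obtain ⟨v, hvdef⟩ : ∃ v : ℚ, v = 2 * ((-r3) ^ 2 + y3 / (-r3)) := ⟨_, rfl⟩
            have hvdef' : 2 * (r3 ^ 2 + y3 / (-r3)) = v := by rw [hvdef]; ring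
            rw [← hudef] at hc hu3 e ⊢
            rw [hvdef'] at e
            rw [← hvdef]
            field_simp
            linear_combination u * e + 4 * hc
          have h3' : (EW ℚ α 0).toAffine.Nonsingular ((-r3) ^ 2) y3 := by rw [neg_sq]; exact h3
          obtain ⟨Q, hQ⟩ := halve hα (neg_ne_zero.2 hr3) h3' hneg
          refine ⟨Q, ?_⟩
          rw [hQ]
          simp only [neg_sq]
      obtain ⟨Q, hQ⟩ := hdouble
      refine ⟨-P' - Q, Or.inl ?_⟩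
      have : P = -P' - 2 • Q := by
        rw [hQ, ← h0]
        abel
      rw [this]
      abel
  -- assembly
  obtain ⟨r, hr⟩ := C3_abs (E := Pt ℚ α 0) (κ₁ := Option (Fin (2 ^ ((2 * α).natAbs.primeFactors.card + 1))))
    (κ₂ := Option (Fin (2 ^ ((2 * α).natAbs.primeFactors.card + 1))))
    (fun i P => i.elim (P = 0 ∨ P = T) (fun j => ∃ (x y : ℚ) (h : (EW ℚ α 0).toAffine.Nonsingular x y),
      P = .some x y h ∧ x ≠ 0 ∧ f x = j))
    (fun R => R = 0 ∨ R = T ∨ ∃ (r y : ℚ) (h : (EW ℚ α 0).toAffine.Nonsingular (r ^ 2) y), r ≠ 0 ∧ R = .some (r ^ 2) y h)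
    (fun i P => i.elim (P = 0 ∨ P = T) (fun j => ∃ (r y : ℚ) (h : (EW ℚ α 0).toAffine.Nonsingular (r ^ 2) y),
      P = .some (r ^ 2) y h ∧ r ≠ 0 ∧ f (2 * (r ^ 2 + y / r)) = j))
    T
    (by
      rintro (_ | ⟨x, y, h⟩)
      · exact ⟨none, Or.inl rfl⟩
      · by_cases hx : x = 0
        · exact ⟨none, Or.inr (hTof h hx)⟩
        · exact ⟨some (f x), x, y, h, rfl, hx, rfl⟩)
    (by
      rintro (_ | j) P Q hP hQ
      · rcases hP with rfl | rfl <;> rcases hQ with rfl | rfl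
        · exact ⟨0, 0, Or.inl rfl, by simp⟩
        · exact ⟨Q, -Q, Or.inr (Or.inl rfl), by abel⟩
        · exact ⟨P, 0, Or.inr (Or.inl rfl), by simp⟩
        · exact ⟨0, 0, Or.inl rfl, by simp⟩
      · obtain ⟨x, y, h, hPe, hx, hfx⟩ := hP
        obtain ⟨x', y', h', hQe, hx', hfx'⟩ := hQ
        have hsq : IsSquare (x * x') := by
          refine hf _ _ hx hx' (fun p hp hpS => ?_) (fun p hp hpS => ?_) (hfx.trans hfx'.symm)
          · exact val_even hp (hS1 p hp hpS) hx (heqn h)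
          · exact val_even hp (hS1 p hp hpS) hx' (heqn h')
        have hcase := step1 h h' hx hx' hsq
        rw [← hPe, ← hQe] at hcase
        refine ⟨-(P + Q), P, ?_, by abel⟩
        rcases hcase with h0 | h0 | ⟨r3, y3, h3, hr3, h0⟩
        · exact Or.inl h0
        · exact Or.inr (Or.inl h0)
        · exact Or.inr (Or.inr ⟨r3, y3, h3, hr3, h0⟩))
    (by
      rintro R (h0 | h0 | ⟨r3, y3, h3, hr3, h0⟩)
      · exact ⟨none, Or.inl h0⟩
      · exact ⟨none, Or.inr h0⟩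
      · exact ⟨some (f (2 * (r3 ^ 2 + y3 / r3))), r3, y3, h3, h0, hr3, rfl⟩)
    (by
      rintro (_ | j) P Q hP hQ
      · rcases hP with rfl | rfl <;> rcases hQ with rfl | rfl
        · exact ⟨0, Or.inl (by simp)⟩
        · exact ⟨-Q, Or.inr (by abel)⟩
        · exact ⟨0, Or.inr (by simp)⟩
        · exact ⟨0, Or.inl (by simp)⟩
      · obtain ⟨r1, y, h, hPe, hx, hfx⟩ := hP
        obtain ⟨r2, y', h', hQe, hx', hfx'⟩ := hQ
        rw [hPe, hQe]
        exact step2 h h' hx hx' (hfx.trans hfx'.symm))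
  have hcard : Fintype.card (Option (Fin (2 ^ ((2 * α).natAbs.primeFactors.card + 1))) ×
      Option (Fin (2 ^ ((2 * α).natAbs.primeFactors.card + 1))) × Bool) ≤
      2 ^ (2 * (2 * α).natAbs.primeFactors.card + 6) := by
    simp only [Fintype.card_prod, Fintype.card_option, Fintype.card_fin, Fintype.card_bool]
    obtain ⟨a, ha⟩ : ∃ a : ℕ, a = 2 ^ (2 * α).natAbs.primeFactors.card := ⟨_, rfl⟩
    have ha1 : 1 ≤ a := by rw [ha]; exact Nat.one_le_two_pow
    rw [pow_succ, pow_add, pow_mul', ← ha]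
    nlinarith
  obtain ⟨r', hr'⟩ := C3_fin hcard r
  refine ⟨r', fun P => ?_⟩
  obtain ⟨k, Q, hPQ⟩ := hr P
  obtain ⟨i, hi⟩ := hr' k
  exact ⟨i, Q, by rw [hi]; exact hPQ⟩

end MWS
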