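import Pool.Agent.Lib.MP_10e784_agV.Defs
import Pool.Agent.Lib.MP_10e784_agV.C3
import Pool.Agent.Lib.MP_10e784_agV.C4
import Pool.Agent.Lib.MP_10e784_agV.C6
import Pool.Agent.Lib.MP_10e784_agW.GA

/-!
# LEAF C7: the curves `y² = x³ + α x`: good primes and classes

PROOF of `gd_1728`: `ssq_1728` is the case `β = 0` of `cm` (leaf RD of the folder agW; its proof: `x ↦ -x` changes the sign of `quadraticChar (x³ + α x)` if `-1` is not a square modulo `p`), `dsc α 0 = 4 α³`; primes not dividing `210 α`.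
PROOF of `cls_1728`: `cls_fg` with `t = 2 ω + 6` (`reps2`, `mw`), torsion: `tors_card` for the prime `p` of the hypothesis of `Cls`, `p + 1 ≤ L`.
-/

namespace MWS

theorem gd_1728 {α : ℤ} (hα : α ≠ 0) : Gd α 0 (-1) (210 * α.natAbs) := by
  have hdsc : dsc α 0 = 4 * α ^ 3 := by
    unfold dsc
    ring
  refine ⟨?_, ?_, ?_⟩
  · rw [hdsc]
    exact mul_ne_zero (by norm_num) (pow_ne_zero _ hα)
  · exact mul_ne_zero (by norm_num) (Int.natAbs_ne_zero.2 hα)
  · intro p hp hpM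
    have : Fact p.Prime := ⟨hp⟩
    have hp2 : p ≠ 2 := by
      rintro rfl
      exact hpM (Dvd.dvd.mul_right (by norm_num) _)
    refine ⟨hp2, ?_, ?_⟩
    · rw [hdsc]
      intro h
      have hpZ : Prime (p : ℤ) := Nat.prime_iff_prime_int.1 hp
      rcases hpZ.dvd_or_dvd h with h1 | h1
      · have h2 : (p : ℤ) ∣ 2 := by
          have h3 : (4 : ℤ) = 2 ^ 2 := by norm_num
          rw [h3] at h1
          exact hpZ.dvd_of_dvd_pow h1
        have h3 : p ∣ 2 := by exact_mod_cast h2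
        exact hp2 ((Nat.prime_dvd_prime_iff_eq hp Nat.prime_two).1 h3)
      · have h2 : (p : ℤ) ∣ α := hpZ.dvd_of_dvd_pow h1
        exact hpM (Dvd.dvd.mul_left (Int.natCast_dvd.1 h2) _)
    · intro hsq
      refine RD_neg hp2 α ?_
      have e : (((-1 : ℤ)) : ZMod p) = -1 := by push_cast; ring
      rwa [e] at hsq

theorem cls_1728 {α : ℤ} (hα : α ≠ 0) :
    Cls α 0 (-1) (210 * α.natAbs) (2 * (2 * α).natAbs.primeFactors.card + 7) := by
  intro L hL hp
  obtain ⟨p, hp, hpM, hsq, hdvd⟩ := hp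
  have : Fact p.Prime := ⟨hp⟩
  obtain ⟨hd, -, hgd⟩ := gd_1728 hα
  obtain ⟨hp2, hpd, hna⟩ := hgd p hp hpM
  have hfin : Module.Finite ℤ (Pt ℚ α 0) := mw hd
  exact cls_fg (Pt ℚ α 0) (2 * (2 * α).natAbs.primeFactors.card + 6) (reps2 hα) L hL
    ((tors_card hp2 hpd (hna hsq)).trans (Nat.le_of_dvd hL hdvd))

end MWS
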