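import Mathlib

/-!
# LEAF C8: few integers have many prime factors

PROOF.  `∑_{1 ≤ a ≤ H} 2 ^ ω(a) ≤ ∑_{a ≤ H} d(a) ≤ H (1 + log H)` (`2 ^ ω ≤ d`: `Nat.card_divisors`..; `∑_{a ≤ H} d(a) = ∑_{e ≤ H} ⌊H/e⌋ ≤ H ∑ 1/e ≤ H (1 + log H)`), `ω (2 a) ≤ ω a + 1`; `α` and `-α`.  Markov: the number of `α` with `ω (2 α) ≥ t` is at most `2 · 2 · H (1 + log H) 2 ^ (-t)`.
-/

namespace MWS

open Finset in
private theorem C8_two_pow (a : ℕ) (ha : a ≠ 0) : 2 ^ a.primeFactors.card ≤ a.divisors.card := by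
  rw [Nat.card_divisors ha, ← Finset.prod_const]
  refine Finset.prod_le_prod' fun p hp => ?_
  have h1 : 0 < a.factorization p :=
    (Nat.prime_of_mem_primeFactors hp).factorization_pos_of_dvd ha (Nat.dvd_of_mem_primeFactors hp)
  omega

private theorem C8_two_mul (a : ℕ) (ha : a ≠ 0) :
    (2 * a).primeFactors.card ≤ a.primeFactors.card + 1 := by
  rw [Nat.primeFactors_mul (by norm_num) ha]
  refine (Finset.card_union_le _ _).trans ?_
  rw [Nat.Prime.primeFactors Nat.prime_two]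
  simp [add_comm]

private theorem C8_sum (H : ℕ) :
    ((∑ a ∈ Finset.Ioc 0 H, a.divisors.card : ℕ) : ℝ) ≤ H * (1 + Real.log H) := by
  have h1 : ∑ a ∈ Finset.Ioc 0 H, a.divisors.card = ∑ e ∈ Finset.Ioc 0 H, (H / e) := by
    rw [← ArithmeticFunction.sum_Ioc_sigma0_eq_sum_div]
    exact Finset.sum_congr rfl fun a _ => (ArithmeticFunction.sigma_zero_apply a).symm
  rw [h1]
  push_cast
  have h2 : ∑ e ∈ Finset.Ioc 0 H, ((H / e : ℕ) : ℝ) ≤ ∑ e ∈ Finset.Ioc 0 H, (H : ℝ) * (e : ℝ)⁻¹ := by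
    refine Finset.sum_le_sum fun e _ => ?_
    rw [← div_eq_mul_inv]
    exact Nat.cast_div_le
  refine h2.trans ?_
  rw [← Finset.mul_sum]
  refine mul_le_mul_of_nonneg_left ?_ (Nat.cast_nonneg _)
  have h3 := harmonic_le_one_add_log H
  have h4 : ((harmonic H : ℚ) : ℝ) = ∑ e ∈ Finset.Ioc 0 H, (e : ℝ)⁻¹ := by
    rw [harmonic_eq_sum_Icc]
    push_cast
    rfl
  rw [← h4]
  exact h3

theorem many_primes (H : ℕ) (h1 : 1 ≤ H) (t : ℕ) :
    (Nat.card {α : ℤ // α ≠ 0 ∧ |α| ≤ (H : ℤ) ∧ t ≤ (2 * α).natAbs.primeFactors.card} : ℝ) * 2 ^ t ≤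
      4 * H * (1 + Real.log H) := by
  classical
  set S : Finset ℕ := (Finset.Ioc 0 H).filter fun a => t ≤ (2 * a).primeFactors.card with hS
  have hcard : Nat.card {α : ℤ // α ≠ 0 ∧ |α| ≤ (H : ℤ) ∧ t ≤ (2 * α).natAbs.primeFactors.card} ≤
      2 * S.card := by
    let f : {α : ℤ // α ≠ 0 ∧ |α| ≤ (H : ℤ) ∧ t ≤ (2 * α).natAbs.primeFactors.card} →
        Bool × S := fun α => (decide (0 < α.1), ⟨α.1.natAbs, by
      rw [hS, Finset.mem_filter, Finset.mem_Ioc]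
      have h2 := α.2.2.1
      have h3 := α.2.2.2
      have h4 := α.2.1
      rw [Int.natAbs_mul] at h3
      refine ⟨⟨by omega, ?_⟩, by simpa using h3⟩
      have h5 : ((α.1.natAbs : ℕ) : ℤ) ≤ H := by
        rw [Int.natCast_natAbs]
        exact h2
      exact_mod_cast h5⟩)
    have hf : Function.Injective f := by
      intro α β h
      have h2 : decide (0 < α.1) = decide (0 < β.1) := congrArg Prod.fst h
      have h3 : α.1.natAbs = β.1.natAbs := congrArg (fun z => (z.2 : ℕ)) h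
      have h4 : (0 < α.1) ↔ (0 < β.1) := decide_eq_decide.1 h2
      have h5 := α.2.1
      have h6 := β.2.1
      apply Subtype.ext
      omega
    have h2 := Nat.card_le_card_of_injective f hf
    have h6 : Nat.card Bool = 2 := by rw [Nat.card_eq_fintype_card, Fintype.card_bool]
    have h7 : Nat.card S = S.card := by rw [Nat.card_eq_fintype_card, Fintype.card_coe]
    rw [Nat.card_prod, h6, h7] at h2
    exact h2
  have hS2 : S.card * 2 ^ t ≤ 2 * ∑ a ∈ Finset.Ioc 0 H, a.divisors.card := by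
    rw [Finset.mul_sum, ← smul_eq_mul, ← Finset.sum_const]
    refine (Finset.sum_le_sum (g := fun a => 2 * a.divisors.card) fun a ha => ?_).trans
      (Finset.sum_le_sum_of_subset (Finset.filter_subset _ _))
    rw [hS, Finset.mem_filter, Finset.mem_Ioc] at ha
    have ha0 : a ≠ 0 := by omega
    calc 2 ^ t ≤ 2 ^ (a.primeFactors.card + 1) :=
          Nat.pow_le_pow_right (by norm_num) (ha.2.trans (C8_two_mul a ha0))
      _ = 2 * 2 ^ a.primeFactors.card := by ring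
      _ ≤ 2 * a.divisors.card := Nat.mul_le_mul_left _ (C8_two_pow a ha0)
  have h3 : Nat.card {α : ℤ // α ≠ 0 ∧ |α| ≤ (H : ℤ) ∧ t ≤ (2 * α).natAbs.primeFactors.card} * 2 ^ t ≤
      4 * ∑ a ∈ Finset.Ioc 0 H, a.divisors.card := by
    calc _ ≤ 2 * S.card * 2 ^ t := Nat.mul_le_mul_right _ hcard
      _ = 2 * (S.card * 2 ^ t) := by ring
      _ ≤ 2 * (2 * ∑ a ∈ Finset.Ioc 0 H, a.divisors.card) := Nat.mul_le_mul_left _ hS2
      _ = _ := by ring
  have h4 : ((Nat.card {α : ℤ // α ≠ 0 ∧ |α| ≤ (H : ℤ) ∧ t ≤ (2 * α).natAbs.primeFactors.card} : ℕ) : ℝ)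
      * 2 ^ t ≤ 4 * ((∑ a ∈ Finset.Ioc 0 H, a.divisors.card : ℕ) : ℝ) := by
    exact_mod_cast h3
  refine h4.trans ?_
  have h5 := C8_sum H
  linarith

end MWS
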