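import Pool.Agent.Lib.MP_10e784_agV.VM
import Pool.Agent.Lib.MP_10e784_agV.VD1
import Pool.Agent.Lib.MP_10e784_agV.C7
import Pool.Agent.Lib.MP_10e784_agV.C8
import Pool.Agent.Lib.MP_10e784_agW.LA
import Pool.Agent.Lib.MP_10e784_agW.MB

/-!
# LEAF C9: all double covers of all the curves `y² = x³ + α x`

PROOF of `unif`.  `δ, η` from `sieve`; `D = -1`, `N = 2 d`, `κ = 1/3`, `M = 210 |α|`, `ι = Bs d` (`card = 2 d`), `R p z = {c | IsSquare (∑ k, c k * bv z k)}` (`dens_sq`, `p ≠ 2`).  The bijection `Cf d ≃ (Bs d → ℤ)`, `c ↦ Sum.elim c.1 c.2`; `phi c x y = ∑_k (Sum.elim c.1 c.2) k * bv (some (x, y)) k` and `lc c p z` is `IsSquare (∑ k, .. * bv z k)` for both kinds of `z`;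
`loc` gives `lc c p (rd p P)` for all primes.  `log (210 H) ≤ (log H) ^ (1 + η)` for `H` large.
PROOF of `main_C`.  `c₀ = η / 2` (with `η ≤ 1`).  For `H` large: the `α` with `2 ω(2α) + 7 ≤ (log H)^η` contribute at most `(2 H + 1) H ^ (2 d - δ)` (`unif`, `cls_1728`), the others: `ω(2 α) ≥ t := ⌊((log H)^η - 7)/2⌋₊`, at most `4 H (1 + log H) 2 ^ (-t)` of them (`many_primes`), each with at most `(2 H + 1)^(2 d)` (`box_card`).
`2 ^ (-t) (1 + log H) ≤ exp (-(log H) ^ c₀)` and `H ^ (-δ) ≤ exp (-(log H)^c₀)` for `H` large; small `H`: constant.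
-/

namespace MWS

open Finset

/-- subsets of a box are finite (they inject into the functions to `[-H, H]`) -/
private theorem C9_fin {ι : Type} [Fintype ι] [DecidableEq ι] (H : ℕ) (Q : (ι → ℤ) → Prop) :
    Finite {c : ι → ℤ // (∀ t, |c t| ≤ (H : ℤ)) ∧ Q c} := by
  let f : {c : ι → ℤ // (∀ t, |c t| ≤ (H : ℤ)) ∧ Q c} → ι → (Icc (-(H : ℤ)) H : Finset ℤ) :=
    fun c t => ⟨c.1 t, mem_Icc.2 (abs_le.1 (c.2.1 t))⟩
  have hf : Function.Injective f := by
    intro a b hab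
    refine Subtype.ext (funext fun t => ?_)
    exact congrArg Subtype.val (congrFun hab t)
  exact Finite.of_injective f hf

/-- the local condition in terms of the basis `bv`: for the point at infinity only the term of `x ^ d` remains, for an
affine point the sum is `phi c x y` -/
private theorem C9_sum {p d : ℕ} (c : Cf d) (z : Option (ZMod p × ZMod p)) (h : lc c p z) :
    IsSquare (∑ k : Bs d, ((Sum.elim c.1 c.2 k : ℤ) : ZMod p) * bv z k) := by
  rw [Fintype.sum_sum_type]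
  cases z with
  | none =>
    have h' : IsSquare ((c.1 (Fin.last d) : ℤ) : ZMod p) := h
    have e1 : ∑ i : Fin (d + 1), ((Sum.elim c.1 c.2 (Sum.inl i : Bs d) : ℤ) : ZMod p) *
        bv (none : Option (ZMod p × ZMod p)) (Sum.inl i : Bs d) = ((c.1 (Fin.last d) : ℤ) : ZMod p) := by
      rw [Finset.sum_eq_single (Fin.last d)]
      · show ((c.1 (Fin.last d) : ℤ) : ZMod p) * (if Fin.last d = Fin.last d then (1 : ZMod p) else 0) = _
        rw [if_pos rfl, mul_one]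
      · intro i _ hi
        show _ * (if i = Fin.last d then (1 : ZMod p) else 0) = 0
        rw [if_neg hi, mul_zero]
      · intro h; exact absurd (mem_univ _) h
    have e2 : ∑ i : Fin (d - 1), ((Sum.elim c.1 c.2 (Sum.inr i : Bs d) : ℤ) : ZMod p) *
        bv (none : Option (ZMod p × ZMod p)) (Sum.inr i : Bs d) = 0 :=
      Finset.sum_eq_zero fun i _ => mul_zero _
    rw [e1, e2, add_zero]
    exact h'
  | some z =>
    have h' : IsSquare (phi c z.1 z.2) := h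
    have e : ∑ i : Fin (d + 1), ((Sum.elim c.1 c.2 (Sum.inl i : Bs d) : ℤ) : ZMod p) *
        bv (some z) (Sum.inl i : Bs d) + ∑ i : Fin (d - 1), ((Sum.elim c.1 c.2 (Sum.inr i : Bs d) : ℤ) : ZMod p) *
        bv (some z) (Sum.inr i : Bs d) = phi c z.1 z.2 := by
      unfold phi
      rw [Finset.sum_mul]
      refine congrArg₂ _ rfl (Finset.sum_congr rfl fun i _ => ?_)
      show ((c.2 i : ℤ) : ZMod p) * (z.1 ^ (i : ℕ) * z.2) = ((c.2 i : ℤ) : ZMod p) * z.1 ^ (i : ℕ) * z.2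
      rw [mul_assoc]
    rw [e]
    exact h'

theorem unif : ∃ δ η : ℝ, 0 < δ ∧ 0 < η ∧ ∀ d : ℕ, 1 ≤ d → ∃ H0 : ℕ, ∀ H : ℕ, H0 ≤ H → ∀ α : ℤ, α ≠ 0 →
    |α| ≤ (H : ℤ) → ((2 * (2 * α).natAbs.primeFactors.card + 7 : ℕ) : ℝ) ≤ (Real.log H) ^ η →
      (Nat.card {c : Cf d // Bx H c ∧ ∃ P : Pt ℚ α 0, Ov c P} : ℝ) ≤ (H : ℝ) ^ ((2 * d : ℝ) - δ) := by
  obtain ⟨δ, η, hδ, hη, hs⟩ := sieve
  refine ⟨δ, η, hδ, hη, fun d hd => ?_⟩
  have hD : ¬ IsSquare (-1 : ℤ) := by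
    rintro ⟨r, hr⟩
    nlinarith [mul_self_nonneg r]
  obtain ⟨H0, hH0⟩ := hs (-1) hD (2 * d) (1 / 3) (by norm_num) (by norm_num)
  have hlog : Filter.Tendsto (fun H : ℕ => Real.log (H : ℝ)) Filter.atTop Filter.atTop :=
    Real.tendsto_log_atTop.comp tendsto_natCast_atTop_atTop
  have h1 : ∀ᶠ H : ℕ in Filter.atTop, (2 : ℝ) ≤ (Real.log (H : ℝ)) ^ η :=
    ((tendsto_rpow_atTop hη).comp hlog).eventually_ge_atTop _
  have h2 : ∀ᶠ H : ℕ in Filter.atTop, Real.log 210 ≤ Real.log (H : ℝ) := hlog.eventually_ge_atTop _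
  have h3 : ∀ᶠ H : ℕ in Filter.atTop, 1 ≤ Real.log (H : ℝ) := hlog.eventually_ge_atTop _
  obtain ⟨H1, hH1⟩ := Filter.eventually_atTop.1 (h1.and (h2.and h3))
  refine ⟨max (max H0 H1) 1, fun H hH α hα hαH hω => ?_⟩
  have hHpos : 1 ≤ H := (le_max_right _ _).trans hH
  have hHr : (0 : ℝ) < (H : ℝ) := by exact_mod_cast hHpos
  have hge0 : H0 ≤ H := ((le_max_left _ _).trans (le_max_left _ _)).trans hH
  have hge1 : H1 ≤ H := ((le_max_right _ _).trans (le_max_left _ _)).trans hH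
  obtain ⟨k1, k2, k3⟩ := hH1 H hge1
  have hαn : α.natAbs ≤ H := by
    have : (α.natAbs : ℤ) ≤ (H : ℤ) := by rwa [Int.natCast_natAbs]
    exact_mod_cast this
  have hM : Real.log ((210 * α.natAbs : ℕ) : ℝ) ≤ (Real.log (H : ℝ)) ^ (1 + η) := by
    have hpos : 0 < α.natAbs := Int.natAbs_pos.2 hα
    have e1 : Real.log ((210 * α.natAbs : ℕ) : ℝ) ≤ Real.log (210 * (H : ℝ)) := by
      refine Real.log_le_log (by exact_mod_cast (by omega : 0 < 210 * α.natAbs)) ?_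
      push_cast
      have : (α.natAbs : ℝ) ≤ (H : ℝ) := by exact_mod_cast hαn
      linarith
    have e2 : Real.log (210 * (H : ℝ)) = Real.log 210 + Real.log (H : ℝ) :=
      Real.log_mul (by norm_num) hHr.ne'
    have e3 : (Real.log (H : ℝ)) ^ (1 + η) = Real.log (H : ℝ) * (Real.log (H : ℝ)) ^ η := by
      rw [Real.rpow_add (by linarith : 0 < Real.log (H : ℝ)), Real.rpow_one]
    rw [e3]
    refine e1.trans ?_
    rw [e2]
    nlinarith
  have hcard : Fintype.card (Bs d) = 2 * d := by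
    rw [Fintype.card_sum, Fintype.card_fin, Fintype.card_fin]
    omega
  have h5 := hH0 α 0 (210 * α.natAbs) (2 * (2 * α).natAbs.primeFactors.card + 7) (gd_1728 hα) (cls_1728 hα) H hge0
    hω hM (Bs d) hcard (fun p z => {c : Bs d → ZMod p | IsSquare (∑ k, c k * bv z k)})
    (by
      intro p hp hpM z
      have : Fact p.Prime := ⟨hp⟩
      have hp2 : p ≠ 2 := by
        rintro rfl
        exact hpM ((by norm_num : 2 ∣ 210).mul_right _)
      exact dens_sq hp2 hd z)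
  have hfin := C9_fin (ι := Bs d) H fun c => ∃ P : Pt ℚ α 0, ∀ p : ℕ, p.Prime →
    ¬ p ∣ 210 * α.natAbs → (fun i => ((c i : ℤ) : ZMod p)) ∈
      {c : Bs d → ZMod p | IsSquare (∑ k, c k * bv (rd p P) k)}
  have h6 : Nat.card {c : Cf d // Bx H c ∧ ∃ P : Pt ℚ α 0, Ov c P} ≤
      Nat.card {c : Bs d → ℤ // (∀ i, |c i| ≤ (H : ℤ)) ∧ ∃ P : Pt ℚ α 0, ∀ p : ℕ, p.Prime →
        ¬ p ∣ 210 * α.natAbs → (fun i => ((c i : ℤ) : ZMod p)) ∈
          {c : Bs d → ZMod p | IsSquare (∑ k, c k * bv (rd p P) k)}} := by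
    refine Nat.card_le_card_of_injective (fun c => ⟨Sum.elim c.1.1 c.1.2, ?_, ?_⟩) ?_
    · rintro (i | i)
      · exact c.2.1.1 i
      · exact c.2.1.2 i
    · obtain ⟨P, h⟩ := c.2.2
      exact ⟨P, fun p hp _ => C9_sum c.1 (rd p P) (loc hp hd c.1 P h)⟩
    · intro a b hab
      have hab' : Sum.elim a.1.1 a.1.2 = Sum.elim b.1.1 b.1.2 := congrArg (fun x => x.1) hab
      refine Subtype.ext (Prod.ext (funext fun i => ?_) (funext fun i => ?_))
      · exact congrFun hab' (Sum.inl i)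
      · exact congrFun hab' (Sum.inr i)
  have h7 : (((2 * d : ℕ) : ℝ) - δ) = ((2 * d : ℝ) - δ) := by push_cast; ring
  rw [h7] at h5
  refine le_trans ?_ h5
  exact_mod_cast h6

/-- the growth conditions, `c = min η 1 / 2`: `L ^ c ≤ δ L` because `c < 1`, and `log (1 + L) ≤ log 2 + log L ≤ L ^ c`,
`2 L ^ c ≤ (log 2 / 4) L ^ η ≤ ((L ^ η - 9) / 2) log 2` because `c < η` and `L ^ η ≥ 18`, for `L = log H` large -/
private theorem C9_growth {δ η : ℝ} (hδ : 0 < δ) (hη : 0 < η) :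
    ∃ H1 : ℕ, ∀ H : ℕ, H1 ≤ H → (Real.log (H : ℝ)) ^ (min η 1 / 2) ≤ δ * Real.log (H : ℝ) ∧
      Real.log (1 + Real.log (H : ℝ)) + (Real.log (H : ℝ)) ^ (min η 1 / 2) ≤
        ((Real.log (H : ℝ)) ^ η - 9) / 2 * Real.log 2 := by
  have hm : 0 < min η 1 := lt_min hη one_pos
  have hc : 0 < min η 1 / 2 := by linarith
  have hcη : min η 1 / 2 < η := by have := min_le_left η 1; linarith
  have hc1 : min η 1 / 2 < 1 := by have := min_le_right η 1; linarith
  set c := min η 1 / 2 with hcdef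
  have hlog2 : 0 < Real.log 2 := Real.log_pos (by norm_num)
  -- in terms of `L → ∞`
  have gen : ∀ (a κ : ℝ), c < a → 0 < κ → ∀ᶠ L : ℝ in Filter.atTop, L ^ c ≤ κ * L ^ a := by
    intro a κ ha hκ
    have h := (tendsto_rpow_atTop (by linarith : 0 < a - c)).eventually_ge_atTop (κ⁻¹)
    filter_upwards [h, Filter.eventually_gt_atTop 0] with L hL hpos
    have e : L ^ a = L ^ c * L ^ (a - c) := by rw [← Real.rpow_add hpos, add_sub_cancel]
    rw [e]
    have e2 : 1 ≤ κ * L ^ (a - c) := by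
      calc (1 : ℝ) = κ * κ⁻¹ := (mul_inv_cancel₀ hκ.ne').symm
        _ ≤ κ * L ^ (a - c) := mul_le_mul_of_nonneg_left hL hκ.le
    calc L ^ c = L ^ c * 1 := (mul_one _).symm
      _ ≤ L ^ c * (κ * L ^ (a - c)) := mul_le_mul_of_nonneg_left e2 (Real.rpow_nonneg hpos.le _)
      _ = κ * (L ^ c * L ^ (a - c)) := by ring
  have g1 : ∀ᶠ L : ℝ in Filter.atTop, L ^ c ≤ δ * L := by
    filter_upwards [gen 1 δ hc1 hδ] with L hL
    rwa [Real.rpow_one] at hL
  have g2 : ∀ᶠ L : ℝ in Filter.atTop, L ^ c ≤ (Real.log 2 / 8) * L ^ η := gen η _ hcη (by positivity)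
  have g3 : ∀ᶠ L : ℝ in Filter.atTop, Real.log L ≤ (1 / 2) * L ^ c := by
    have h := (isLittleO_log_rpow_atTop hc).bound (by norm_num : (0 : ℝ) < 1 / 2)
    filter_upwards [h, Filter.eventually_gt_atTop 1] with L hL hpos
    rw [Real.norm_of_nonneg (Real.rpow_nonneg (by linarith) _), Real.norm_of_nonneg (Real.log_nonneg hpos.le)] at hL
    exact hL
  have g4 : ∀ᶠ L : ℝ in Filter.atTop, Real.log 2 ≤ (1 / 2) * L ^ c := by
    have h : Filter.Tendsto (fun L : ℝ => (1 / 2) * L ^ c) Filter.atTop Filter.atTop :=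
      (tendsto_rpow_atTop hc).const_mul_atTop (by norm_num)
    exact h.eventually_ge_atTop _
  have g5 : ∀ᶠ L : ℝ in Filter.atTop, 18 ≤ L ^ η := (tendsto_rpow_atTop hη).eventually_ge_atTop _
  have g : ∀ᶠ L : ℝ in Filter.atTop, L ^ c ≤ δ * L ∧ Real.log (1 + L) + L ^ c ≤ (L ^ η - 9) / 2 * Real.log 2 := by
    filter_upwards [g1, g2, g3, g4, g5, Filter.eventually_ge_atTop 1] with L k1 k2 k3 k4 k5 k6
    refine ⟨k1, ?_⟩
    have e1 : Real.log (1 + L) ≤ Real.log (2 * L) := Real.log_le_log (by linarith) (by linarith)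
    rw [Real.log_mul (by norm_num) (by linarith)] at e1
    have e2 : (L ^ η) / 2 ≤ L ^ η - 9 := by linarith
    have e3 : (L ^ η) / 4 * Real.log 2 ≤ (L ^ η - 9) / 2 * Real.log 2 :=
      mul_le_mul_of_nonneg_right (by linarith) hlog2.le
    nlinarith
  have hlog : Filter.Tendsto (fun H : ℕ => Real.log (H : ℝ)) Filter.atTop Filter.atTop :=
    Real.tendsto_log_atTop.comp tendsto_natCast_atTop_atTop
  exact Filter.eventually_atTop.1 (hlog.eventually g)

/-- the sum over `α`: those with `ω(2 α) < t` contribute at most `U` each, the others at most the whole box each -/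
private theorem C9_split {d H t : ℕ} (hd : 1 ≤ d) (h1 : 1 ≤ H) (U : ℝ) (hU : 0 ≤ U)
    (h : ∀ α : ℤ, α ≠ 0 → |α| ≤ (H : ℤ) → (2 * α).natAbs.primeFactors.card < t →
      (Nat.card {c : Cf d // Bx H c ∧ ∃ P : Pt ℚ α 0, Ov c P} : ℝ) ≤ U) :
    (Nat.card {z : ℤ × Cf d // z.1 ≠ 0 ∧ |z.1| ≤ (H : ℤ) ∧ Bx H z.2 ∧ ∃ P : Pt ℚ z.1 0, Ov z.2 P} : ℝ) ≤
      (2 * (H : ℝ) + 1) * U +
        (Nat.card {α : ℤ // α ≠ 0 ∧ |α| ≤ (H : ℤ) ∧ t ≤ (2 * α).natAbs.primeFactors.card} : ℝ) *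
          (2 * (H : ℝ) + 1) ^ (2 * d) := by
  classical
  set I : Finset ℤ := (Icc (-(H : ℤ)) H).filter (fun α => α ≠ 0) with hI
  have hmem : ∀ α : ℤ, α ∈ I ↔ α ≠ 0 ∧ |α| ≤ (H : ℤ) := by
    intro α
    rw [hI, mem_filter, mem_Icc, abs_le, and_comm]
  have hbox : ∀ α : ℤ, Finite {c : Cf d // Bx H c ∧ ∃ P : Pt ℚ α 0, Ov c P} := by
    intro α
    have := box_finite d H
    refine Finite.of_injective (β := {c : Cf d // Bx H c}) (fun c => ⟨c.1, c.2.1⟩) ?_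
    intro a b hab
    exact Subtype.ext (congrArg (fun x => x.1) hab)
  have hbox2 : ∀ α : ℤ, (Nat.card {c : Cf d // Bx H c ∧ ∃ P : Pt ℚ α 0, Ov c P} : ℝ) ≤
      (2 * (H : ℝ) + 1) ^ (2 * d) := by
    intro α
    have := box_finite d H
    have h8 : Nat.card {c : Cf d // Bx H c ∧ ∃ P : Pt ℚ α 0, Ov c P} ≤ Nat.card {c : Cf d // Bx H c} := by
      refine Nat.card_le_card_of_injective (fun c => ⟨c.1, c.2.1⟩) ?_
      intro a b hab
      exact Subtype.ext (congrArg (fun x => x.1) hab)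
    refine le_trans ?_ (box_card hd H)
    exact_mod_cast h8
  have hW : Nat.card {z : ℤ × Cf d // z.1 ≠ 0 ∧ |z.1| ≤ (H : ℤ) ∧ Bx H z.2 ∧ ∃ P : Pt ℚ z.1 0, Ov z.2 P} =
      ∑ α ∈ I, Nat.card {c : Cf d // Bx H c ∧ ∃ P : Pt ℚ α 0, Ov c P} := by
    rw [← Finset.sum_coe_sort I (fun α => Nat.card {c : Cf d // Bx H c ∧ ∃ P : Pt ℚ α 0, Ov c P}), ← Nat.card_sigma]
    refine Nat.card_congr
      { toFun := fun z => ⟨⟨z.1.1, (hmem _).2 ⟨z.2.1, z.2.2.1⟩⟩, ⟨z.1.2, z.2.2.2⟩⟩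
        invFun := fun z => ⟨(z.1.1, z.2.1), ((hmem _).1 z.1.2).1, ((hmem _).1 z.1.2).2, z.2.2⟩
        left_inv := fun z => rfl
        right_inv := fun z => rfl }
  rw [hW]
  push_cast
  have hbad : (((I.filter fun α => ¬ (2 * α).natAbs.primeFactors.card < t).card : ℕ) : ℝ) =
      (Nat.card {α : ℤ // α ≠ 0 ∧ |α| ≤ (H : ℤ) ∧ t ≤ (2 * α).natAbs.primeFactors.card} : ℝ) := by
    rw [Nat.subtype_card (I.filter fun α => ¬ (2 * α).natAbs.primeFactors.card < t)]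
    intro α
    rw [mem_filter, hmem, not_lt, and_assoc]
  have hIc : (I.card : ℝ) ≤ 2 * (H : ℝ) + 1 := by
    have : I.card ≤ 2 * H + 1 := (card_filter_le _ _).trans (by rw [Int.card_Icc]; omega)
    exact_mod_cast this
  rw [← Finset.sum_filter_add_sum_filter_not I (fun α => (2 * α).natAbs.primeFactors.card < t), ← hbad]
  refine add_le_add ?_ ?_
  · calc ∑ α ∈ I.filter (fun α => (2 * α).natAbs.primeFactors.card < t),
          (Nat.card {c : Cf d // Bx H c ∧ ∃ P : Pt ℚ α 0, Ov c P} : ℝ)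
        ≤ ∑ _α ∈ I.filter (fun α => (2 * α).natAbs.primeFactors.card < t), U := by
          refine sum_le_sum fun α hα => ?_
          rw [mem_filter, hmem] at hα
          exact h α hα.1.1 hα.1.2 hα.2
      _ = ((I.filter (fun α => (2 * α).natAbs.primeFactors.card < t)).card : ℝ) * U := by
          rw [sum_const, nsmul_eq_mul]
      _ ≤ (2 * (H : ℝ) + 1) * U := by
          refine mul_le_mul_of_nonneg_right (le_trans ?_ hIc) hU
          exact_mod_cast card_filter_le _ _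
  · calc ∑ α ∈ I.filter (fun α => ¬ (2 * α).natAbs.primeFactors.card < t),
          (Nat.card {c : Cf d // Bx H c ∧ ∃ P : Pt ℚ α 0, Ov c P} : ℝ)
        ≤ ∑ _α ∈ I.filter (fun α => ¬ (2 * α).natAbs.primeFactors.card < t), (2 * (H : ℝ) + 1) ^ (2 * d) :=
          sum_le_sum fun α _ => hbox2 α
      _ = _ := by rw [sum_const, nsmul_eq_mul]

theorem main_C : ∃ c₀ : ℝ, 0 < c₀ ∧ ∀ d : ℕ, 1 ≤ d → ∃ C : ℝ, ∀ H : ℕ, 1 ≤ H →
    (Nat.card {z : ℤ × Cf d // z.1 ≠ 0 ∧ |z.1| ≤ (H : ℤ) ∧ Bx H z.2 ∧ ∃ P : Pt ℚ z.1 0, Ov z.2 P} : ℝ) ≤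
      C * (H : ℝ) ^ (2 * d + 1) * Real.exp (-(Real.log H) ^ c₀) := by
  obtain ⟨δ, η, hδ, hη, hu⟩ := unif
  have hm : 0 < min η 1 := lt_min hη one_pos
  refine ⟨min η 1 / 2, by linarith, fun d hd => ?_⟩
  obtain ⟨H0, hH0⟩ := hu d hd
  obtain ⟨H1, hH1⟩ := C9_growth hδ hη
  set c₀ := min η 1 / 2 with hc0
  have hc0pos : 0 < c₀ := by rw [hc0]; linarith
  set H2 : ℕ := max (max H0 H1) 1 with hH2
  set C1 : ℝ := 3 + 4 * 3 ^ (2 * d) with hC1
  set C2 : ℝ := (2 * (H2 : ℝ) + 1) ^ (2 * d + 1) * Real.exp ((Real.log (H2 : ℝ)) ^ c₀) with hC2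
  have hH2pos : 1 ≤ H2 := le_max_right _ _
  refine ⟨max C1 C2, fun H hH => ?_⟩
  have hHr : (1 : ℝ) ≤ (H : ℝ) := by exact_mod_cast hH
  have hHp : (0 : ℝ) < (H : ℝ) := by linarith
  have hlogH : 0 ≤ Real.log (H : ℝ) := Real.log_nonneg hHr
  have hpow : (1 : ℝ) ≤ (H : ℝ) ^ (2 * d + 1) := one_le_pow₀ hHr
  have hexp : 0 < Real.exp (-(Real.log (H : ℝ)) ^ c₀) := Real.exp_pos _
  rcases lt_or_ge H H2 with hlt | hge
  · -- small `H`
    have h3 := C9_split (t := 0) hd hH 0 le_rfl (by intro α _ _ h; omega)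
    have h4 : (Nat.card {α : ℤ // α ≠ 0 ∧ |α| ≤ (H : ℤ) ∧ 0 ≤ (2 * α).natAbs.primeFactors.card} : ℝ) ≤
        2 * (H : ℝ) + 1 := by
      classical
      have e : Nat.card {α : ℤ // α ≠ 0 ∧ |α| ≤ (H : ℤ) ∧ 0 ≤ (2 * α).natAbs.primeFactors.card} =
          ((Icc (-(H : ℤ)) H).filter (fun α => α ≠ 0)).card := by
        refine Nat.subtype_card _ fun α => ?_
        rw [mem_filter, mem_Icc, ← abs_le]
        constructor
        · rintro ⟨a, b⟩; exact ⟨b, a, Nat.zero_le _⟩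
        · rintro ⟨a, b, _⟩; exact ⟨b, a⟩
      rw [e]
      have : ((Icc (-(H : ℤ)) H).filter (fun α => α ≠ 0)).card ≤ 2 * H + 1 :=
        (card_filter_le _ _).trans (by rw [Int.card_Icc]; omega)
      exact_mod_cast this
    have hle : (H : ℝ) ≤ (H2 : ℝ) := by exact_mod_cast hlt.le
    have h5 : (2 * (H : ℝ) + 1) * 0 +
        (Nat.card {α : ℤ // α ≠ 0 ∧ |α| ≤ (H : ℤ) ∧ 0 ≤ (2 * α).natAbs.primeFactors.card} : ℝ) *
          (2 * (H : ℝ) + 1) ^ (2 * d) ≤ (2 * (H2 : ℝ) + 1) ^ (2 * d + 1) := by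
      rw [mul_zero, zero_add, pow_succ, mul_comm ((2 * (H2 : ℝ) + 1) ^ (2 * d))]
      refine mul_le_mul (h4.trans (by linarith)) ?_ (by positivity) (by positivity)
      exact pow_le_pow_left₀ (by positivity) (by linarith) _
    refine (h3.trans h5).trans ?_
    have h6 : (2 * (H2 : ℝ) + 1) ^ (2 * d + 1) = C2 * Real.exp (-(Real.log (H2 : ℝ)) ^ c₀) := by
      rw [hC2, mul_assoc, ← Real.exp_add, add_neg_cancel, Real.exp_zero, mul_one]
    have hC2pos : 0 ≤ C2 := by positivity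
    have h7 : Real.exp (-(Real.log (H2 : ℝ)) ^ c₀) ≤ Real.exp (-(Real.log (H : ℝ)) ^ c₀) := by
      refine Real.exp_le_exp.2 (neg_le_neg ?_)
      exact Real.rpow_le_rpow hlogH (Real.log_le_log hHp hle) hc0pos.le
    rw [h6]
    calc C2 * Real.exp (-(Real.log (H2 : ℝ)) ^ c₀) ≤ C2 * Real.exp (-(Real.log (H : ℝ)) ^ c₀) :=
          mul_le_mul_of_nonneg_left h7 hC2pos
      _ ≤ (max C1 C2 * (H : ℝ) ^ (2 * d + 1)) * Real.exp (-(Real.log (H : ℝ)) ^ c₀) := by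
          refine mul_le_mul_of_nonneg_right ?_ hexp.le
          exact (le_max_right C1 C2).trans
            (le_mul_of_one_le_right (hC2pos.trans (le_max_right _ _)) hpow)
  · have hge0 : H0 ≤ H := ((le_max_left _ _).trans (le_max_left _ _)).trans hge
    have hge1 : H1 ≤ H := ((le_max_right _ _).trans (le_max_left _ _)).trans hge
    obtain ⟨k1, k2⟩ := hH1 H hge1
    set X : ℝ := (Real.log (H : ℝ)) ^ η with hX
    set t : ℕ := ⌊(X - 7) / 2⌋₊ with ht
    have hU : (0 : ℝ) ≤ (H : ℝ) ^ ((2 * d : ℝ) - δ) := Real.rpow_nonneg hHp.le _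
    have h3 := C9_split (t := t) hd hH ((H : ℝ) ^ ((2 * d : ℝ) - δ)) hU (by
      intro α hα hαH hlt
      refine hH0 H hge0 α hα hαH ?_
      have e1 : (2 * α).natAbs.primeFactors.card + 1 ≤ t := hlt
      have e2 : (((2 * α).natAbs.primeFactors.card + 1 : ℕ) : ℝ) ≤ (X - 7) / 2 :=
        (Nat.le_floor_iff' (by omega)).1 e1
      push_cast at e2 ⊢
      rw [← hX]
      linarith)
    refine h3.trans ?_
    have hE : (1 + Real.log (H : ℝ)) / 2 ^ t ≤ Real.exp (-(Real.log (H : ℝ)) ^ c₀) := by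
      have e1 : (X - 9) / 2 ≤ (t : ℝ) := by
        have := Nat.lt_floor_add_one ((X - 7) / 2)
        rw [← ht] at this
        linarith
      have hlog2 : 0 < Real.log 2 := Real.log_pos (by norm_num)
      have e2 : Real.exp ((X - 9) / 2 * Real.log 2) ≤ (2 : ℝ) ^ t := by
        have : (2 : ℝ) ^ t = Real.exp ((t : ℝ) * Real.log 2) := by
          rw [← Real.log_pow, Real.exp_log (by positivity)]
        rw [this]
        exact Real.exp_le_exp.2 (mul_le_mul_of_nonneg_right e1 hlog2.le)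
      have e3 : 1 + Real.log (H : ℝ) = Real.exp (Real.log (1 + Real.log (H : ℝ))) :=
        (Real.exp_log (by linarith)).symm
      rw [div_le_iff₀ (by positivity)]
      calc 1 + Real.log (H : ℝ) = Real.exp (Real.log (1 + Real.log (H : ℝ))) := e3
        _ ≤ Real.exp (-(Real.log (H : ℝ)) ^ c₀ + (X - 9) / 2 * Real.log 2) :=
            Real.exp_le_exp.2 (by linarith)
        _ = Real.exp (-(Real.log (H : ℝ)) ^ c₀) * Real.exp ((X - 9) / 2 * Real.log 2) := Real.exp_add _ _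
        _ ≤ Real.exp (-(Real.log (H : ℝ)) ^ c₀) * 2 ^ t := mul_le_mul_of_nonneg_left e2 hexp.le
    have hbad : (Nat.card {α : ℤ // α ≠ 0 ∧ |α| ≤ (H : ℤ) ∧ t ≤ (2 * α).natAbs.primeFactors.card} : ℝ) ≤
        4 * H * Real.exp (-(Real.log (H : ℝ)) ^ c₀) := by
      have h4 := many_primes H hH t
      have h5 : (Nat.card {α : ℤ // α ≠ 0 ∧ |α| ≤ (H : ℤ) ∧ t ≤ (2 * α).natAbs.primeFactors.card} : ℝ) ≤
          4 * H * (1 + Real.log H) / 2 ^ t := by
        rw [le_div_iff₀ (by positivity)]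
        exact h4
      refine h5.trans ?_
      rw [mul_div_assoc]
      exact mul_le_mul_of_nonneg_left hE (by positivity)
    have hgood : (H : ℝ) ^ ((2 * d : ℝ) - δ) ≤ (H : ℝ) ^ (2 * d) * Real.exp (-(Real.log (H : ℝ)) ^ c₀) := by
      have e1 : (H : ℝ) ^ ((2 * d : ℝ) - δ) = (H : ℝ) ^ (2 * d) * Real.exp (-(δ * Real.log (H : ℝ))) := by
        rw [Real.rpow_sub hHp, show ((2 : ℝ) * (d : ℝ)) = ((2 * d : ℕ) : ℝ) by push_cast; ring, Real.rpow_natCast,
          div_eq_mul_inv, ← Real.rpow_neg hHp.le, Real.rpow_def_of_pos hHp]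
        congr 2
        ring
      rw [e1]
      refine mul_le_mul_of_nonneg_left (Real.exp_le_exp.2 (by linarith)) (by positivity)
    have h3H : 2 * (H : ℝ) + 1 ≤ 3 * (H : ℝ) := by linarith
    calc (2 * (H : ℝ) + 1) * (H : ℝ) ^ ((2 * d : ℝ) - δ) +
          (Nat.card {α : ℤ // α ≠ 0 ∧ |α| ≤ (H : ℤ) ∧ t ≤ (2 * α).natAbs.primeFactors.card} : ℝ) *
            (2 * (H : ℝ) + 1) ^ (2 * d)
        ≤ (3 * (H : ℝ)) * ((H : ℝ) ^ (2 * d) * Real.exp (-(Real.log (H : ℝ)) ^ c₀)) +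
          (4 * H * Real.exp (-(Real.log (H : ℝ)) ^ c₀)) * (3 * (H : ℝ)) ^ (2 * d) := by
          refine add_le_add (mul_le_mul h3H hgood hU (by positivity)) (mul_le_mul hbad ?_ (by positivity)
            (by positivity))
          exact pow_le_pow_left₀ (by positivity) h3H _
      _ = C1 * (H : ℝ) ^ (2 * d + 1) * Real.exp (-(Real.log (H : ℝ)) ^ c₀) := by
          rw [hC1, mul_pow]
          ring
      _ ≤ max C1 C2 * (H : ℝ) ^ (2 * d + 1) * Real.exp (-(Real.log (H : ℝ)) ^ c₀) := by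
          refine mul_le_mul_of_nonneg_right ?_ hexp.le
          exact mul_le_mul_of_nonneg_right (le_max_left _ _) (by positivity)

end MWS
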