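import Pool.Agent.Lib.MP_10e784_agV.VM
import Pool.Agent.Lib.MP_10e784_agV.VB2
import Pool.Agent.Lib.MP_10e784_agV.VD3
import Pool.Agent.Lib.MP_10e784_agV.VG

/-!
# LEAF V3: curves on `P¹ × E`

PROOF.  `δ, η` from `sieve` (take `δ` smaller than `1` if necessary).  Given the data: `M' = M * 210` (`gd_mul`), so that `p ∤ M'` gives `p ≥ 11`; `s` from `cls_of`; `κ = 1/6`, `N = (n + 1) (2 d)`, `ι = Fin (n + 1) × Bs d`, `R p z = {c | ∃ a b, (a ≠ 0 ∨ b ≠ 0) ∧ FB c z a b = 0}` (`dens_form` for prime `p ∤ M'`).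
`H0` from `sieve`; enlarge it so that `s ≤ (log H)^η` and `log M' ≤ (log H)^(1+η)`.  `locB` gives the inclusion of the set of the `c` with a point in the set of `sieve`.  For `1 ≤ H < H0`: the trivial bound `(2 H + 1)^N ≤ C H ^ (N - δ)`.
-/

namespace MWS

open Finset

private theorem V3_box {ι : Type} [Fintype ι] [DecidableEq ι] (H : ℕ) (Q : (ι → ℤ) → Prop) :
    Finite {c : ι → ℤ // (∀ t, |c t| ≤ (H : ℤ)) ∧ Q c} ∧
      Nat.card {c : ι → ℤ // (∀ t, |c t| ≤ (H : ℤ)) ∧ Q c} ≤ (2 * H + 1) ^ Fintype.card ι := by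
  let f : {c : ι → ℤ // (∀ t, |c t| ≤ (H : ℤ)) ∧ Q c} → ι → (Icc (-(H : ℤ)) H : Finset ℤ) :=
    fun c t => ⟨c.1 t, mem_Icc.2 (abs_le.1 (c.2.1 t))⟩
  have hf : Function.Injective f := by
    intro a b hab
    refine Subtype.ext (funext fun t => ?_)
    exact congrArg Subtype.val (congrFun hab t)
  refine ⟨Finite.of_injective f hf, ?_⟩
  have h := Nat.card_le_card_of_injective f hf
  refine h.trans (le_of_eq ?_)
  rw [Nat.card_eq_fintype_card, Fintype.card_fun, Fintype.card_coe, Int.card_Icc]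
  congr 1
  omega

private theorem V3_eleven {p M : ℕ} (hp : p.Prime) (h : ¬ p ∣ M * 210) : 11 ≤ p := by
  have h0 : ¬ p ∣ 210 := fun h' => h (h'.mul_left M)
  by_contra hlt
  push Not at hlt
  interval_cases p
  · exact absurd hp (by norm_num)
  · exact absurd hp (by norm_num)
  · exact h0 (by norm_num)
  · exact h0 (by norm_num)
  · exact absurd hp (by norm_num)
  · exact h0 (by norm_num)
  · exact absurd hp (by norm_num)
  · exact h0 (by norm_num)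
  · exact absurd hp (by norm_num)
  · exact absurd hp (by norm_num)
  · exact absurd hp (by norm_num)

theorem main_B : ∃ δ : ℝ, 0 < δ ∧ ∀ (α β D : ℤ) (M : ℕ), ¬ IsSquare D → Gd α β D M → ∀ n d : ℕ, 2 ≤ n → 1 ≤ d →
    ∃ C : ℝ, ∀ H : ℕ, 1 ≤ H →
      (Nat.card {c : Fin (n + 1) × Bs d → ℤ // (∀ t, |c t| ≤ (H : ℤ)) ∧ ∃ (P : Pt ℚ α β) (u v : ℚ),
        (u ≠ 0 ∨ v ≠ 0) ∧ FB (fun t => ((c t : ℤ) : ℚ)) (op P) u v = 0} : ℝ) ≤
        C * (H : ℝ) ^ (((n + 1) * (2 * d) : ℝ) - δ) := by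
  obtain ⟨δ₀, η, hδ₀, hη, hs⟩ := sieve
  refine ⟨min δ₀ 1, lt_min hδ₀ one_pos, ?_⟩
  intro α β D M hD hG n d hn hd
  have hG' : Gd α β D (M * 210) := gd_mul hG 210 (by norm_num)
  obtain ⟨s, hcls⟩ := cls_of hG'
  obtain ⟨H0, hH0⟩ := hs D hD ((n + 1) * (2 * d)) (1 / 6) (by norm_num) (by norm_num)
  have hcard : Fintype.card (Fin (n + 1) × Bs d) = (n + 1) * (2 * d) := by
    rw [Fintype.card_prod, Fintype.card_fin, Fintype.card_sum, Fintype.card_fin, Fintype.card_fin]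
    congr 1
    omega
  -- large `H`
  have hlog : Filter.Tendsto (fun H : ℕ => Real.log (H : ℝ)) Filter.atTop Filter.atTop :=
    Real.tendsto_log_atTop.comp tendsto_natCast_atTop_atTop
  have h1 : ∀ᶠ H : ℕ in Filter.atTop, (s : ℝ) ≤ (Real.log (H : ℝ)) ^ η :=
    ((tendsto_rpow_atTop hη).comp hlog).eventually_ge_atTop _
  have h2 : ∀ᶠ H : ℕ in Filter.atTop, Real.log ((M * 210 : ℕ) : ℝ) ≤ (Real.log (H : ℝ)) ^ (1 + η) :=
    ((tendsto_rpow_atTop (by linarith : 0 < 1 + η)).comp hlog).eventually_ge_atTop _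
  obtain ⟨H1, hH1⟩ := Filter.eventually_atTop.1 (h1.and h2)
  set H2 : ℕ := max H0 H1 with hH2
  refine ⟨max 1 (((2 * H2 + 1) ^ ((n + 1) * (2 * d)) : ℕ) : ℝ), ?_⟩
  intro H hH
  have hHr : (1 : ℝ) ≤ (H : ℝ) := by exact_mod_cast hH
  have hN6 : (1 : ℝ) ≤ ((n + 1) * (2 * d) : ℝ) := by
    have h3 : (2 : ℝ) ≤ n := by exact_mod_cast hn
    have h4 : (1 : ℝ) ≤ d := by exact_mod_cast hd
    nlinarith
  have hexp : 0 ≤ ((n + 1) * (2 * d) : ℝ) - min δ₀ 1 := by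
    have := min_le_right δ₀ 1
    linarith
  have hpow1 : (1 : ℝ) ≤ (H : ℝ) ^ (((n + 1) * (2 * d) : ℝ) - min δ₀ 1) := Real.one_le_rpow hHr hexp
  rcases lt_or_ge H H2 with hlt | hge
  · have h3 := (V3_box (ι := Fin (n + 1) × Bs d) H fun c => ∃ (P : Pt ℚ α β) (u v : ℚ),
      (u ≠ 0 ∨ v ≠ 0) ∧ FB (fun t => ((c t : ℤ) : ℚ)) (op P) u v = 0).2
    rw [hcard] at h3
    have h4 : (2 * H + 1) ^ ((n + 1) * (2 * d)) ≤ (2 * H2 + 1) ^ ((n + 1) * (2 * d)) :=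
      Nat.pow_le_pow_left (by omega) _
    have h5 : (Nat.card {c : Fin (n + 1) × Bs d → ℤ // (∀ t, |c t| ≤ (H : ℤ)) ∧ ∃ (P : Pt ℚ α β) (u v : ℚ),
        (u ≠ 0 ∨ v ≠ 0) ∧ FB (fun t => ((c t : ℤ) : ℚ)) (op P) u v = 0} : ℝ) ≤
        (((2 * H2 + 1) ^ ((n + 1) * (2 * d)) : ℕ) : ℝ) := by exact_mod_cast h3.trans h4
    refine h5.trans ((le_max_right 1 _).trans ?_)
    exact le_mul_of_one_le_right (le_trans zero_le_one (le_max_left _ _)) hpow1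
  · have hge0 : H0 ≤ H := (le_max_left _ _).trans hge
    have hge1 : H1 ≤ H := (le_max_right _ _).trans hge
    obtain ⟨h3, h4⟩ := hH1 H hge1
    have h5 := hH0 α β (M * 210) s hG' hcls H hge0 h3 h4 (Fin (n + 1) × Bs d) hcard
      (fun p z => {c : Fin (n + 1) × Bs d → ZMod p | ∃ a b : ZMod p, (a ≠ 0 ∨ b ≠ 0) ∧ FB c z a b = 0})
      (by
        intro p hp hpM z
        have : Fact p.Prime := ⟨hp⟩
        exact dens_form (V3_eleven hp hpM) hn hd z)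
    have hfin := (V3_box (ι := Fin (n + 1) × Bs d) H fun c => ∃ P : Pt ℚ α β, ∀ p : ℕ, p.Prime →
      ¬ p ∣ M * 210 → (fun i => ((c i : ℤ) : ZMod p)) ∈
        {c : Fin (n + 1) × Bs d → ZMod p | ∃ a b : ZMod p, (a ≠ 0 ∨ b ≠ 0) ∧ FB c (rd p P) a b = 0}).1
    have h6 : Nat.card {c : Fin (n + 1) × Bs d → ℤ // (∀ t, |c t| ≤ (H : ℤ)) ∧ ∃ (P : Pt ℚ α β) (u v : ℚ),
        (u ≠ 0 ∨ v ≠ 0) ∧ FB (fun t => ((c t : ℤ) : ℚ)) (op P) u v = 0} ≤
        Nat.card {c : Fin (n + 1) × Bs d → ℤ // (∀ t, |c t| ≤ (H : ℤ)) ∧ ∃ P : Pt ℚ α β, ∀ p : ℕ, p.Prime →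
          ¬ p ∣ M * 210 → (fun i => ((c i : ℤ) : ZMod p)) ∈
            {c : Fin (n + 1) × Bs d → ZMod p | ∃ a b : ZMod p, (a ≠ 0 ∨ b ≠ 0) ∧ FB c (rd p P) a b = 0}} := by
      refine Nat.card_le_card_of_injective (fun c => ⟨c.1, c.2.1, ?_⟩) ?_
      · obtain ⟨P, u, v, huv, h⟩ := c.2.2
        exact ⟨P, fun p hp _ => locB hp hd c.1 P u v huv h⟩
      · intro a b hab
        have hab' := congrArg (fun x => x.1) hab
        exact Subtype.ext hab'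
    have h7 : (H : ℝ) ^ ((((n + 1) * (2 * d) : ℕ) : ℝ) - δ₀) ≤
        (H : ℝ) ^ (((n + 1) * (2 * d) : ℝ) - min δ₀ 1) := by
      refine Real.rpow_le_rpow_of_exponent_le hHr ?_
      push_cast
      have := min_le_left δ₀ 1
      linarith
    have h8 : (1 : ℝ) * (H : ℝ) ^ (((n + 1) * (2 * d) : ℝ) - min δ₀ 1) ≤
        max 1 (((2 * H2 + 1) ^ ((n + 1) * (2 * d)) : ℕ) : ℝ) *
          (H : ℝ) ^ (((n + 1) * (2 * d) : ℝ) - min δ₀ 1) :=
      mul_le_mul_of_nonneg_right (le_max_left _ _) (le_trans zero_le_one hpow1)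
    rw [one_mul] at h8
    refine le_trans ?_ (h7.trans h8)
    refine le_trans ?_ h5
    exact_mod_cast h6

end MWS
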