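import Pool.Agent.Lib.MP_10e784_agV.V2
import Pool.Agent.Lib.MP_10e784_agV.V3
import Pool.Agent.Lib.MP_10e784_agV.C9
import Pool.Agent.Lib.MP_10e784_agW.FB

/-!
# The Mordell-Weil sieve on average: translation of the results into elementary terms (helper29)
-/

namespace MWS

open Finset

/-- `y² = x³ + α x + β` is an elliptic curve with `p` affine points (so `p + 1` points) modulo `p` for all primes `p`
outside a finite set modulo which `D` is not a square -/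
def IsType (D α β : ℤ) : Prop :=
  4 * α ^ 3 + 27 * β ^ 2 ≠ 0 ∧ ∃ M : ℕ, M ≠ 0 ∧ ∀ p : ℕ, p.Prime → ¬ p ∣ M → ¬ IsSquare ((D : ℤ) : ZMod p) →
    Nat.card {z : ZMod p × ZMod p // z.2 ^ 2 = z.1 ^ 3 + (α : ZMod p) * z.1 + (β : ZMod p)} = p

/-- the rational points of `y² = x³ + α x + β`; `none` is the point `O` at infinity -/
def IsPt (α β : ℤ) : Option (ℚ × ℚ) → Prop
  | none => True
  | some z => z.2 ^ 2 = z.1 ^ 3 + α * z.1 + β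

/-- the values of the basis `x^i` (`i ≤ d`), `x^i y` (`i ≤ d - 2`) of `L(2 d O)` at a point; at `O` the values after
division by `x^d` -/
def bas (d : ℕ) : Option (ℚ × ℚ) → Fin (d + 1) ⊕ Fin (d - 1) → ℚ
  | none, .inl i => if i = Fin.last d then 1 else 0
  | none, .inr _ => 0
  | some z, .inl i => z.1 ^ (i : ℕ)
  | some z, .inr i => z.1 ^ (i : ℕ) * z.2

theorem bas_eq (d : ℕ) (P : Option (ℚ × ℚ)) (k : Bs d) : bas d P k = bv P k := by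
  rcases P with _ | z <;> rcases k with i | i <;> rfl

theorem Res_gd {D α β : ℤ} (hD : ¬ IsSquare D) (h : IsType D α β) : ∃ M : ℕ, Gd α β D M := by
  obtain ⟨h1, M, hM, h2⟩ := h
  exact ⟨_, gd_of h1 ⟨hD, hM, h2⟩⟩

theorem Res_pt {α β : ℤ} (hd : dsc α β ≠ 0) (Φ : Option (ℚ × ℚ) → Prop) :
    (∃ P, IsPt α β P ∧ Φ P) ↔ ∃ P : Pt ℚ α β, Φ (op P) := by
  constructor
  · rintro ⟨P, hP, hΦ⟩
    rcases P with _ | z
    · exact ⟨.zero, hΦ⟩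
    · exact ⟨.some z.1 z.2 ((EW_nons α β two_ne_zero (by exact_mod_cast hd) z.1 z.2).2 hP), hΦ⟩
  · rintro ⟨P, hΦ⟩
    rcases P with _ | ⟨x, y, h⟩
    · exact ⟨none, trivial, hΦ⟩
    · exact ⟨some (x, y), (EW_nons α β two_ne_zero (by exact_mod_cast hd) x y).1 h, hΦ⟩

theorem Res_ov {α β : ℤ} {d : ℕ} (c : Cf d) (P : Pt ℚ α β) :
    IsSquare (∑ k : Bs d, ((Equiv.sumArrowEquivProdArrow (Fin (d + 1)) (Fin (d - 1)) ℤ).symm c k : ℚ) * bv (op P) k) ↔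
      Ov c P := by
  rcases P with _ | ⟨x, y, h⟩
  · rw [Fintype.sum_sum_type]
    have e1 : ∑ i : Fin (d - 1), ((Equiv.sumArrowEquivProdArrow (Fin (d + 1)) (Fin (d - 1)) ℤ).symm c (Sum.inr i) : ℚ) *
        bv (op (WeierstrassCurve.Affine.Point.zero : Pt ℚ α β)) (Sum.inr i : Bs d) = 0 := by
      refine sum_eq_zero fun i _ => ?_
      have : bv (op (WeierstrassCurve.Affine.Point.zero : Pt ℚ α β)) (Sum.inr i : Bs d) = 0 := rfl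
      rw [this, mul_zero]
    have e2 : ∑ i : Fin (d + 1), ((Equiv.sumArrowEquivProdArrow (Fin (d + 1)) (Fin (d - 1)) ℤ).symm c (Sum.inl i) : ℚ) *
        bv (op (WeierstrassCurve.Affine.Point.zero : Pt ℚ α β)) (Sum.inl i : Bs d) = (c.1 (Fin.last d) : ℚ) := by
      rw [sum_eq_single (Fin.last d)]
      · have : bv (op (WeierstrassCurve.Affine.Point.zero : Pt ℚ α β)) (Sum.inl (Fin.last d) : Bs d) = 1 := by
          show (if Fin.last d = Fin.last d then (1 : ℚ) else 0) = 1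
          rw [if_pos rfl]
        rw [this, mul_one]
        rfl
      · intro i _ hi
        have : bv (op (WeierstrassCurve.Affine.Point.zero : Pt ℚ α β)) (Sum.inl i : Bs d) = 0 := by
          show (if i = Fin.last d then (1 : ℚ) else 0) = 0
          rw [if_neg hi]
        rw [this, mul_zero]
      · intro h
        exact absurd (mem_univ _) h
    rw [e1, e2, add_zero, Rat.isSquare_intCast_iff]
    rfl
  · have e : ∑ k : Bs d, ((Equiv.sumArrowEquivProdArrow (Fin (d + 1)) (Fin (d - 1)) ℤ).symm c k : ℚ) *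
        bv (op (WeierstrassCurve.Affine.Point.some x y h : Pt ℚ α β)) k = phi c x y := by
      rw [Fintype.sum_sum_type]
      unfold phi
      rw [sum_mul]
      congr 1
      refine sum_congr rfl fun i _ => ?_
      show (c.2 i : ℚ) * (x ^ (i : ℕ) * y) = (c.2 i : ℚ) * x ^ (i : ℕ) * y
      ring
    rw [e]
    constructor
    · rintro ⟨w, hw⟩
      exact ⟨w, by rw [hw]; ring⟩
    · rintro ⟨w, hw⟩
      exact ⟨w, by rw [← hw]; ring⟩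

theorem Res_bx {d H : ℕ} (a : Bs d → ℤ) :
    (∀ k, |a k| ≤ (H : ℤ)) ↔ Bx H ((Equiv.sumArrowEquivProdArrow (Fin (d + 1)) (Fin (d - 1)) ℤ) a) := by
  constructor
  · intro h
    exact ⟨fun i => h _, fun i => h _⟩
  · rintro ⟨h1, h2⟩ (i | i)
    · exact h1 i
    · exact h2 i

theorem Res_cov {α β : ℤ} (hd : dsc α β ≠ 0) {d : ℕ} (a : Bs d → ℤ) :
    (∃ P, IsPt α β P ∧ IsSquare (∑ k, (a k : ℚ) * bas d P k)) ↔
      ∃ P : Pt ℚ α β, Ov ((Equiv.sumArrowEquivProdArrow (Fin (d + 1)) (Fin (d - 1)) ℤ) a) P := by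
  rw [Res_pt hd (fun P => IsSquare (∑ k, (a k : ℚ) * bas d P k))]
  refine exists_congr fun P => ?_
  rw [← Res_ov]
  simp only [bas_eq, Equiv.symm_apply_apply]

theorem res1 : ∃ δ : ℝ, 0 < δ ∧ ∀ D α β : ℤ, ¬ IsSquare D → IsType D α β → ∀ d : ℕ, 1 ≤ d → ∃ C : ℝ, ∀ H : ℕ, 1 ≤ H →
    (Nat.card {a : Fin (d + 1) ⊕ Fin (d - 1) → ℤ // (∀ k, |a k| ≤ (H : ℤ)) ∧
      ∃ P, IsPt α β P ∧ IsSquare (∑ k, (a k : ℚ) * bas d P k)} : ℝ) ≤ C * (H : ℝ) ^ ((2 * d : ℝ) - δ) := by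
  obtain ⟨δ, hδ, h⟩ := main
  refine ⟨δ, hδ, fun D α β hD hT d hd => ?_⟩
  obtain ⟨h1, M, hM, h2⟩ := hT
  obtain ⟨C, hC⟩ := h α β h1 ⟨D, M, hD, hM, h2⟩ d hd
  refine ⟨C, fun H hH => ?_⟩
  have e := Nat.card_congr (Equiv.subtypeEquiv (Equiv.sumArrowEquivProdArrow (Fin (d + 1)) (Fin (d - 1)) ℤ)
    (p := fun a => (∀ k, |a k| ≤ (H : ℤ)) ∧ ∃ P, IsPt α β P ∧ IsSquare (∑ k, (a k : ℚ) * bas d P k))
    (q := fun c : Cf d => Bx H c ∧ ∃ P : Pt ℚ α β, Ov c P)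
    (fun a => and_congr (Res_bx a) (Res_cov h1 a)))
  rw [e]
  exact hC H hH

theorem res2 : ∃ δ : ℝ, 0 < δ ∧ ∀ D α β : ℤ, ¬ IsSquare D → IsType D α β → ∀ n d : ℕ, 2 ≤ n → 1 ≤ d → ∃ C : ℝ,
    ∀ H : ℕ, 1 ≤ H →
    (Nat.card {a : Fin (n + 1) × (Fin (d + 1) ⊕ Fin (d - 1)) → ℤ // (∀ k, |a k| ≤ (H : ℤ)) ∧
      ∃ (P : Option (ℚ × ℚ)) (u v : ℚ), IsPt α β P ∧ (u ≠ 0 ∨ v ≠ 0) ∧
        ∑ i : Fin (n + 1), (∑ k, (a (i, k) : ℚ) * bas d P k) * u ^ (i : ℕ) * v ^ (n - (i : ℕ)) = 0} : ℝ) ≤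
      C * (H : ℝ) ^ ((2 * d * (n + 1) : ℝ) - δ) := by
  obtain ⟨δ, hδ, h⟩ := main_B
  refine ⟨δ, hδ, fun D α β hD hT n d hn hd => ?_⟩
  obtain ⟨M, hM⟩ := Res_gd hD hT
  obtain ⟨C, hC⟩ := h α β D M hD hM n d hn hd
  refine ⟨C, fun H hH => ?_⟩
  have e : ∀ a : Fin (n + 1) × Bs d → ℤ, (∃ (P : Option (ℚ × ℚ)) (u v : ℚ), IsPt α β P ∧ (u ≠ 0 ∨ v ≠ 0) ∧
        ∑ i : Fin (n + 1), (∑ k, (a (i, k) : ℚ) * bas d P k) * u ^ (i : ℕ) * v ^ (n - (i : ℕ)) = 0) ↔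
      ∃ (P : Pt ℚ α β) (u v : ℚ), (u ≠ 0 ∨ v ≠ 0) ∧ FB (fun t => ((a t : ℤ) : ℚ)) (op P) u v = 0 := by
    intro a
    have e1 := Res_pt hT.1 (fun P => ∃ u v : ℚ, (u ≠ 0 ∨ v ≠ 0) ∧ FB (fun t => ((a t : ℤ) : ℚ)) P u v = 0)
    rw [← e1]
    refine exists_congr fun P => ?_
    constructor
    · rintro ⟨u, v, h1, h2, h3⟩
      refine ⟨h1, u, v, h2, ?_⟩
      unfold FB
      simpa only [bas_eq] using h3
    · rintro ⟨h1, u, v, h2, h3⟩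
      refine ⟨u, v, h1, h2, ?_⟩
      unfold FB at h3
      simpa only [bas_eq] using h3
  have e2 := Nat.card_congr (Equiv.subtypeEquiv (Equiv.refl (Fin (n + 1) × Bs d → ℤ))
    (p := fun a => (∀ k, |a k| ≤ (H : ℤ)) ∧ ∃ (P : Option (ℚ × ℚ)) (u v : ℚ), IsPt α β P ∧ (u ≠ 0 ∨ v ≠ 0) ∧
        ∑ i : Fin (n + 1), (∑ k, (a (i, k) : ℚ) * bas d P k) * u ^ (i : ℕ) * v ^ (n - (i : ℕ)) = 0)
    (q := fun a => (∀ t, |a t| ≤ (H : ℤ)) ∧ ∃ (P : Pt ℚ α β) (u v : ℚ),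
        (u ≠ 0 ∨ v ≠ 0) ∧ FB (fun t => ((a t : ℤ) : ℚ)) (op P) u v = 0)
    (fun a => and_congr Iff.rfl (e a)))
  have e3 : ((n + 1) * (2 * d) : ℝ) = 2 * d * (n + 1) := by ring
  rw [e2, ← e3]
  exact hC H hH

theorem res3 : ∃ c : ℝ, 0 < c ∧ ∀ d : ℕ, 1 ≤ d → ∃ C : ℝ, ∀ H : ℕ, 1 ≤ H →
    (Nat.card {a : ℤ × (Fin (d + 1) ⊕ Fin (d - 1) → ℤ) // a.1 ≠ 0 ∧ |a.1| ≤ (H : ℤ) ∧ (∀ k, |a.2 k| ≤ (H : ℤ)) ∧
      ∃ P, IsPt a.1 0 P ∧ IsSquare (∑ k, (a.2 k : ℚ) * bas d P k)} : ℝ) ≤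
      C * (H : ℝ) ^ (2 * d + 1) * Real.exp (-(Real.log H) ^ c) := by
  obtain ⟨c, hc, h⟩ := main_C
  refine ⟨c, hc, fun d hd => ?_⟩
  obtain ⟨C, hC⟩ := h d hd
  refine ⟨C, fun H hH => ?_⟩
  have e := Nat.card_congr (Equiv.subtypeEquiv
    (Equiv.prodCongr (Equiv.refl ℤ) (Equiv.sumArrowEquivProdArrow (Fin (d + 1)) (Fin (d - 1)) ℤ))
    (p := fun a : ℤ × (Fin (d + 1) ⊕ Fin (d - 1) → ℤ) => a.1 ≠ 0 ∧ |a.1| ≤ (H : ℤ) ∧ (∀ k, |a.2 k| ≤ (H : ℤ)) ∧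
      ∃ P, IsPt a.1 0 P ∧ IsSquare (∑ k, (a.2 k : ℚ) * bas d P k))
    (q := fun z : ℤ × Cf d => z.1 ≠ 0 ∧ |z.1| ≤ (H : ℤ) ∧ Bx H z.2 ∧ ∃ P : Pt ℚ z.1 0, Ov z.2 P)
    (fun a => by
      rcases a with ⟨α, a⟩
      show (α ≠ 0 ∧ |α| ≤ (H : ℤ) ∧ (∀ k, |a k| ≤ (H : ℤ)) ∧
        ∃ P, IsPt α 0 P ∧ IsSquare (∑ k, (a k : ℚ) * bas d P k)) ↔
        (α ≠ 0 ∧ |α| ≤ (H : ℤ) ∧ Bx H ((Equiv.sumArrowEquivProdArrow (Fin (d + 1)) (Fin (d - 1)) ℤ) a) ∧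
          ∃ P : Pt ℚ α 0, Ov ((Equiv.sumArrowEquivProdArrow (Fin (d + 1)) (Fin (d - 1)) ℤ) a) P)
      refine and_congr_right fun hα => and_congr_right fun _ => and_congr (Res_bx a) ?_
      have hd0 : dsc α 0 ≠ 0 := by
        unfold dsc
        have : α ^ 3 ≠ 0 := pow_ne_zero 3 hα
        omega
      exact Res_cov hd0 a))
  rw [e]
  exact hC H hH

theorem Res_card {g J : ℕ} (d : Fin J → Fin g → ℕ) (hd : ∀ j l, 1 ≤ d j l) :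
    (Fintype.card (CA d) : ℝ) = ∑ j, ∏ l, (2 * (d j l : ℝ)) := by
  rw [Fintype.card_sigma]
  push_cast
  refine sum_congr rfl fun j _ => ?_
  rw [Fintype.card_pi]
  push_cast
  refine prod_congr rfl fun l _ => ?_
  rw [Fintype.card_sum, Fintype.card_fin, Fintype.card_fin]
  have h1 := hd j l
  have h2 : d j l + 1 + (d j l - 1) = 2 * d j l := by omega
  have h3 := congrArg (fun n : ℕ => (n : ℝ)) h2
  push_cast at h3 ⊢
  exact h3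

theorem res4 (D : ℤ) (g J : ℕ) (α β : Fin g → ℤ) (hD : ¬ IsSquare D) (hT : ∀ l, IsType D (α l) (β l))
    (d : Fin J → Fin g → ℕ) (hd : ∀ j l, 1 ≤ d j l) (ε : ℝ) (hε : 0 < ε) : ∃ C : ℝ, ∀ H : ℕ, 1 ≤ H →
      (Nat.card {a : (Σ j : Fin J, ((l : Fin g) → Fin (d j l + 1) ⊕ Fin (d j l - 1))) → ℤ //
        (∀ k, |a k| ≤ (H : ℤ)) ∧ ∃ P : Fin g → Option (ℚ × ℚ), (∀ l, IsPt (α l) (β l) (P l)) ∧
          ∀ j, ∑ k : (l : Fin g) → Fin (d j l + 1) ⊕ Fin (d j l - 1), (a ⟨j, k⟩ : ℚ) * ∏ l, bas (d j l) (P l) (k l) = 0} : ℝ) ≤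
        C * (H : ℝ) ^ ((∑ j, ∏ l, (2 * (d j l : ℝ))) - J + ε) := by
  classical
  choose M hM using fun l => Res_gd hD (hT l)
  have hG : ∀ l, Gd (α l) (β l) D (∏ l, M l) := by
    intro l
    rw [← mul_prod_erase univ M (mem_univ l)]
    refine gd_mul (hM l) _ ?_
    rw [prod_ne_zero_iff]
    intro i _
    exact (hM i).2.1
  obtain ⟨C, hC⟩ := main_A α β D (∏ l, M l) hD hG d hd ε hε
  refine ⟨C, fun H hH => ?_⟩
  have e : ∀ a : CA d → ℤ, (∃ P : Fin g → Option (ℚ × ℚ), (∀ l, IsPt (α l) (β l) (P l)) ∧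
          ∀ j, ∑ k : (l : Fin g) → Fin (d j l + 1) ⊕ Fin (d j l - 1), (a ⟨j, k⟩ : ℚ) * ∏ l, bas (d j l) (P l) (k l) = 0) ↔
      ∃ P : (l : Fin g) → Pt ℚ (α l) (β l), ∀ j, SA (fun t => ((a t : ℤ) : ℚ)) (fun l => op (P l)) j = 0 := by
    intro a
    constructor
    · rintro ⟨P, h1, h2⟩
      have h3 : ∀ l, ∃ Q : Pt ℚ (α l) (β l), op Q = P l := by
        intro l
        have h4 := (Res_pt (hT l).1 (fun Q => Q = P l)).1 ⟨P l, h1 l, rfl⟩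
        exact h4
      choose Q hQ using h3
      refine ⟨Q, fun j => ?_⟩
      unfold SA
      simp only [hQ]
      simpa only [bas_eq] using h2 j
    · rintro ⟨Q, h2⟩
      refine ⟨fun l => op (Q l), fun l => ?_, fun j => ?_⟩
      · obtain ⟨P, h3, h4⟩ := (Res_pt (hT l).1 (fun P => P = op (Q l))).2 ⟨Q l, rfl⟩
        rw [h4] at h3
        exact h3
      · have h3 := h2 j
        unfold SA at h3
        simpa only [bas_eq] using h3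
  have e2 := Nat.card_congr (Equiv.subtypeEquiv (Equiv.refl (CA d → ℤ))
    (p := fun a => (∀ k, |a k| ≤ (H : ℤ)) ∧ ∃ P : Fin g → Option (ℚ × ℚ), (∀ l, IsPt (α l) (β l) (P l)) ∧
          ∀ j, ∑ k : (l : Fin g) → Fin (d j l + 1) ⊕ Fin (d j l - 1), (a ⟨j, k⟩ : ℚ) * ∏ l, bas (d j l) (P l) (k l) = 0)
    (q := fun a => (∀ t, |a t| ≤ (H : ℤ)) ∧ ∃ P : (l : Fin g) → Pt ℚ (α l) (β l),
        ∀ j, SA (fun t => ((a t : ℤ) : ℚ)) (fun l => op (P l)) j = 0)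
    (fun a => and_congr Iff.rfl (e a)))
  rw [e2, ← Res_card d hd]
  exact hC H hH

theorem res_type1 (α : ℤ) (hα : α ≠ 0) : IsType (-1) α 0 := by
  refine ⟨?_, 2, two_ne_zero, fun p hp hpM hsq => ?_⟩
  · have : α ^ 3 ≠ 0 := pow_ne_zero 3 hα
    omega
  · have hf : Fact p.Prime := ⟨hp⟩
    have hp2 : p ≠ 2 := by
      rintro rfl
      exact hpM (dvd_refl _)
    have h := RD_neg hp2 α (by
      intro h
      apply hsq
      push_cast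
      exact h)
    exact h

theorem res_type3 (β : ℤ) (hβ : β ≠ 0) : IsType (-3) 0 β := by
  refine ⟨?_, 2, two_ne_zero, fun p hp hpM hsq => ?_⟩
  · have : β ^ 2 ≠ 0 := pow_ne_zero 2 hβ
    omega
  · have hf : Fact p.Prime := ⟨hp⟩
    have hp2 : p ≠ 2 := by
      rintro rfl
      exact hpM (dvd_refl _)
    have h := RD_cube hp2 β (by
      intro h
      apply hsq
      push_cast
      exact h)
    exact h

end MWS
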