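import Mathlib

/-!
# LEAF C1: square classes of rational numbers

PROOF of `val_even`.  `v = padicValRat p`, `k = v x`.  `z² = x (x² + a)`, `x² + a ≠ 0` or `z = 0`: if `z = 0` then `x² = -a`, so `2 k = v a = 0` (`a ≠ 0`, `p ∤ a`), `k = 0`.  Otherwise `2 v z = k + v (x² + a)`: if `k < 0`, `v (x² + a) = 2 k` and `3 k` is even; if `k > 0`, `v (x² + a) = v a = 0` and `k` is even; `k = 0` is even.
(`padicValRat.mul`, `padicValRat.pow`, `padicValRat.add_eq_of_lt`.)
PROOF of `sq_of_even`: a positive rational number with even valuation at every prime is a square (numerator and denominator are squares: `Nat.factorization`, all exponents even).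
PROOF of `classes_sq`: `f x = (decide (0 < x), fun p => decide (Even (padicValRat p x)))`, with values in a set with `2 ^ (card S + 1)` elements, composed with a bijection to `Fin (2 ^ (card S + 1))`; if `f x = f x'` then `x * x' > 0` and all valuations of `x * x'` are even.
-/

namespace MWS

private theorem C1_val_int {p : ℕ} [Fact p.Prime] {a : ℤ} (ha : ¬ (p : ℤ) ∣ a) :
    padicValRat p (a : ℚ) = 0 := by
  rw [padicValRat.of_int, padicValInt.eq_zero_of_not_dvd ha]
  rfl

theorem val_even {p : ℕ} (hp : p.Prime) {a : ℤ} (ha : ¬ (p : ℤ) ∣ a) {x z : ℚ} (hx : x ≠ 0)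
    (h : z ^ 2 = x ^ 3 + a * x) : Even (padicValRat p x) := by
  have : Fact p.Prime := ⟨hp⟩
  have ha0 : (a : ℚ) ≠ 0 := by
    intro h0
    apply ha
    have : a = 0 := by exact_mod_cast h0
    rw [this]
    exact dvd_zero _
  have hva := C1_val_int ha
  have hfac : z ^ 2 = x * (x ^ 2 + a) := by rw [h]; ring
  have hx2 : x ^ 2 ≠ 0 := pow_ne_zero 2 hx
  have hvx2 : padicValRat p (x ^ 2) = 2 * padicValRat p x := by
    rw [padicValRat.pow]
    push_cast
    rfl
  by_cases hz : z = 0
  · rw [hz] at hfac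
    have h1 : x ^ 2 + a = 0 := by
      rcases mul_eq_zero.mp (hfac.symm.trans (zero_pow two_ne_zero)) with h2 | h2
      · exact absurd h2 hx
      · exact h2
    have h2 : x ^ 2 = -(a : ℚ) := by linarith
    rw [h2, padicValRat.neg, hva] at hvx2
    have h3 : padicValRat p x = 0 := by omega
    rw [h3]
    exact Even.zero
  · have hne : x ^ 2 + a ≠ 0 := by
      intro h0
      rw [h0, mul_zero] at hfac
      exact hz (pow_eq_zero_iff two_ne_zero |>.mp hfac)
    have hv := congrArg (padicValRat p) hfac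
    rw [padicValRat.pow, padicValRat.mul hx hne] at hv
    push_cast at hv
    rcases lt_trichotomy (padicValRat p x) 0 with hk | hk | hk
    · have h1 : padicValRat p (x ^ 2 + a) = padicValRat p (x ^ 2) :=
        padicValRat.add_eq_of_lt hne hx2 ha0 (by rw [hvx2, hva]; omega)
      rw [h1, hvx2] at hv
      rw [Int.even_iff]
      omega
    · rw [hk]
      exact Even.zero
    · have hne' : (a : ℚ) + x ^ 2 ≠ 0 := by rw [add_comm]; exact hne
      have h1 : padicValRat p ((a : ℚ) + x ^ 2) = padicValRat p (a : ℚ) :=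
        padicValRat.add_eq_of_lt hne' ha0 hx2 (by rw [hvx2, hva]; omega)
      rw [add_comm (x ^ 2), h1, hva] at hv
      rw [Int.even_iff]
      omega

private theorem C1_nat_sq {n : ℕ} (hn : n ≠ 0) (h : ∀ p : ℕ, p.Prime → Even (n.factorization p)) :
    IsSquare n := by
  obtain ⟨a, b, hab, hsq⟩ := Nat.sq_mul_squarefree n
  have ha0 : a ≠ 0 := by
    rintro rfl
    rw [mul_zero] at hab
    exact hn hab.symm
  have hb0 : b ≠ 0 := by
    rintro rfl
    rw [zero_pow two_ne_zero, zero_mul] at hab
    exact hn hab.symm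
  have ha1 : a = 1 := by
    by_contra hne
    obtain ⟨p, hp, hpa⟩ := Nat.exists_prime_and_dvd hne
    have h1 : a.factorization p ≤ 1 := hsq.natFactorization_le_one p
    have h2 : 0 < a.factorization p := hp.factorization_pos_of_dvd ha0 hpa
    have h3 := h p hp
    rw [← hab, Nat.factorization_mul (pow_ne_zero 2 hb0) ha0, Finsupp.add_apply,
      Nat.factorization_pow, Finsupp.smul_apply, smul_eq_mul] at h3
    rw [Nat.even_iff] at h3
    omega
  rw [← hab, ha1, mul_one]
  exact ⟨b, sq b⟩

theorem sq_of_even {x : ℚ} (hx : 0 < x) (h : ∀ p : ℕ, p.Prime → Even (padicValRat p x)) : IsSquare x := by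
  have hnum : 0 < x.num := Rat.num_pos.mpr hx
  obtain ⟨n, hn⟩ : ∃ n : ℕ, x.num = (n : ℤ) := ⟨x.num.toNat, (Int.toNat_of_nonneg hnum.le).symm⟩
  have hn0 : n ≠ 0 := by
    rintro rfl
    rw [hn] at hnum
    exact lt_irrefl 0 hnum
  have hcop : Nat.Coprime n x.den := by
    have h1 := x.reduced
    rwa [hn, Int.natAbs_natCast] at h1
  have key : ∀ p : ℕ, p.Prime → Even (n.factorization p) ∧ Even (x.den.factorization p) := by
    intro p hp
    have : Fact p.Prime := ⟨hp⟩
    have h1 := h p hp
    rw [padicValRat, hn, padicValInt.of_nat, ← Nat.factorization_def n hp,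
      ← Nat.factorization_def x.den hp] at h1
    have h0 : n.factorization p = 0 ∨ x.den.factorization p = 0 := by
      by_contra hcon
      push Not at hcon
      have d1 : p ∣ n := Nat.dvd_of_factorization_pos hcon.1
      have d2 : p ∣ x.den := Nat.dvd_of_factorization_pos hcon.2
      exact hp.one_lt.ne' (Nat.dvd_one.mp (hcop ▸ Nat.dvd_gcd d1 d2))
    rw [Int.even_iff] at h1
    rw [Nat.even_iff, Nat.even_iff]
    omega
  rw [Rat.isSquare_iff]
  refine ⟨?_, C1_nat_sq x.den_nz fun p hp => (key p hp).2⟩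
  obtain ⟨c, hc⟩ := C1_nat_sq hn0 fun p hp => (key p hp).1
  refine ⟨(c : ℤ), ?_⟩
  rw [hn, hc]
  push_cast
  rfl

theorem classes_sq (S : Finset ℕ) : ∃ f : ℚ → Fin (2 ^ (S.card + 1)), ∀ x x' : ℚ, x ≠ 0 → x' ≠ 0 →
    (∀ p : ℕ, p.Prime → p ∉ S → Even (padicValRat p x)) → (∀ p : ℕ, p.Prime → p ∉ S → Even (padicValRat p x')) →
    f x = f x' → IsSquare (x * x') := by
  classical
  have hcard : Fintype.card (Bool × (S → Bool)) = 2 ^ (S.card + 1) := by
    rw [Fintype.card_prod, Fintype.card_fun, Fintype.card_bool, Fintype.card_coe, pow_succ']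
  let e : Bool × (S → Bool) ≃ Fin (2 ^ (S.card + 1)) := Fintype.equivFinOfCardEq hcard
  refine ⟨fun x => e (decide (0 < x), fun p => decide (Even (padicValRat (p : ℕ) x))),
    fun x x' hx hx' h1 h2 hf => ?_⟩
  have hf' := e.injective hf
  rw [Prod.mk.injEq] at hf'
  obtain ⟨hs, hv⟩ := hf'
  have hs' : (0 < x) ↔ (0 < x') := by
    have := decide_eq_decide.mp hs
    exact this
  refine sq_of_even ?_ fun p hp => ?_
  · rcases lt_or_gt_of_ne hx with h3 | h3
    · rcases lt_or_gt_of_ne hx' with h4 | h4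
      · exact mul_pos_of_neg_of_neg h3 h4
      · exact absurd (hs'.mpr h4) (not_lt.mpr h3.le)
    · exact mul_pos h3 (hs'.mp h3)
  · have : Fact p.Prime := ⟨hp⟩
    rw [padicValRat.mul hx hx', Int.even_add]
    by_cases hpS : p ∈ S
    · exact decide_eq_decide.mp (congrFun hv ⟨p, hpS⟩)
    · exact iff_of_true (h1 p hp hpS) (h2 p hp hpS)

end MWS
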