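import Pool.Agent.Lib.MP_10e784_agW.RC

/-!
# LEAF C5: the parameter `t = x / y` on the kernel of reduction

Notation `v = padicValRat p`.  A point `(x, y)` with `p ∣ x.den`: `v x = -2k`, `v y = -3k`, `k ≥ 1` (from the equation), `v (x / y) = k`.
PROOF of `t_val`: as in the proof of `red_unit` (`RC0` of the folder agW).
PROOF of `t_sum`.  `lin_of_sum`: `l, n`.  `k_i = v (x_i / y_i)`, `S = k₁ + k₂ + k₃`, `K = max k_i`, `m = min k_i ≥ 1`.  `n² = β + x₁ x₂ x₃` (`e3`) has valuation `-2 S` (`S ≥ 3`, `v β ≥ 0`): `n ≠ 0`, `v n = -S`; `l² = x₁ + x₂ + x₃`: `l = 0` or `v l ≥ -K`.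
Identities (from `e1, e2, e3, y1, y2, y3`; `linear_combination`): `x₁ y₂ y₃ + x₂ y₁ y₃ + x₃ y₁ y₂ = 2 α l n - 3 β l²` (use `∑ x_i (l x_j + n)(l x_k + n) = 3 l² x₁x₂x₃ + 2 l n e₂ + n² e₁`), so `x₁/y₁ + x₂/y₂ + x₃/y₃ = (2 α l n - 3 β l²) / (y₁ y₂ y₃)`, of valuation `≥ -K - S + 3 S = 2 S - K ≥ 5 m` (or the sum is `0`).
The statement with a lower bound `m`: if `m ≤ k_i` for all `i`, `m ≥ 1`, the sum is `0` or has valuation `≥ 5 m`: `2 S - K = S + (S - K) ≥ 3 m + 2 m`.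
-/

namespace MWS

/-- valuation at least `k` -/
private def C5_G (p : ℕ) (k : ℤ) (x : ℚ) : Prop := x = 0 ∨ k ≤ padicValRat p x

private theorem C5_add {p : ℕ} [Fact p.Prime] {k : ℤ} {x y : ℚ} (hx : C5_G p k x) (hy : C5_G p k y) :
    C5_G p k (x + y) := by
  rcases hx with hx | hx
  · rw [hx, zero_add]
    exact hy
  rcases hy with hy | hy
  · rw [hy, add_zero]
    exact Or.inr hx
  by_cases h : x + y = 0
  · exact Or.inl h
  · exact Or.inr ((le_min hx hy).trans (padicValRat.min_le_padicValRat_add h))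

private theorem C5_mul {p : ℕ} [Fact p.Prime] {k l : ℤ} {x y : ℚ} (hx : C5_G p k x) (hy : C5_G p l y) :
    C5_G p (k + l) (x * y) := by
  rcases hx with hx | hx
  · exact Or.inl (by rw [hx, zero_mul])
  rcases hy with hy | hy
  · exact Or.inl (by rw [hy, mul_zero])
  by_cases h1 : x = 0
  · exact Or.inl (by rw [h1, zero_mul])
  by_cases h2 : y = 0
  · exact Or.inl (by rw [h2, mul_zero])
  refine Or.inr ?_
  rw [padicValRat.mul h1 h2]
  exact add_le_add hx hy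

private theorem C5_int {p : ℕ} [Fact p.Prime] {k : ℤ} (hk : k ≤ 0) (z : ℤ) : C5_G p k (z : ℚ) := by
  refine Or.inr ?_
  rw [padicValRat.of_int]
  exact hk.trans (Int.natCast_nonneg _)

private theorem C5_mono {p : ℕ} {k l : ℤ} {x : ℚ} (h : l ≤ k) (hx : C5_G p k x) : C5_G p l x :=
  hx.imp id fun h1 => h.trans h1

private theorem C5_neg {p : ℕ} {k : ℤ} {x : ℚ} (hx : C5_G p k x) : C5_G p k (-x) := by
  rcases hx with hx | hx
  · exact Or.inl (by rw [hx, neg_zero])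
  · exact Or.inr (by rw [padicValRat.neg]; exact hx)

/-- the valuation of a sum with a dominating term -/
private theorem C5_dom {p : ℕ} [Fact p.Prime] {u w : ℚ} (hu : u ≠ 0) (hw : C5_G p (padicValRat p u + 1) w) :
    u + w ≠ 0 ∧ padicValRat p (u + w) = padicValRat p u := by
  rcases hw with hw | hw
  · rw [hw, add_zero]
    exact ⟨hu, rfl⟩
  by_cases h0 : w = 0
  · rw [h0, add_zero]
    exact ⟨hu, rfl⟩
  have h1 : u + w ≠ 0 := by
    intro h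
    have h2 : w = -u := by linarith
    rw [h2, padicValRat.neg] at hw
    omega
  exact ⟨h1, padicValRat.add_eq_of_lt h1 hu h0 (by omega)⟩

private theorem C5_den {p : ℕ} [hp : Fact p.Prime] {x : ℚ} (hx : p ∣ x.den) :
    x ≠ 0 ∧ padicValRat p x ≤ -1 := by
  have h0 : x ≠ 0 := by
    intro h
    rw [h, Rat.den_zero] at hx
    exact hp.out.one_lt.ne' (Nat.dvd_one.1 hx)
  have h2 : ¬ (p : ℤ) ∣ x.num := by
    intro h3
    have h4 : p ∣ x.num.natAbs := Int.natCast_dvd.1 h3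
    have h5 : p ∣ Nat.gcd x.num.natAbs x.den := Nat.dvd_gcd h4 hx
    rw [x.reduced.gcd_eq_one] at h5
    exact hp.out.one_lt.ne' (Nat.dvd_one.1 h5)
  have h3 := one_le_padicValNat_of_dvd x.den_nz hx
  refine ⟨h0, ?_⟩
  rw [padicValRat_def, padicValInt.eq_zero_of_not_dvd h2, Nat.cast_zero]
  omega

theorem t_val {p : ℕ} (hp : p.Prime) {α β : ℤ} {x y : ℚ} (h : y ^ 2 = x ^ 3 + α * x + β) (hx : p ∣ x.den) :
    x ≠ 0 ∧ y ≠ 0 ∧ 1 ≤ padicValRat p (x / y) ∧ padicValRat p x = -2 * padicValRat p (x / y) ∧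
      padicValRat p y = -3 * padicValRat p (x / y) := by
  have hF : Fact p.Prime := ⟨hp⟩
  obtain ⟨h0, h1⟩ := C5_den hx
  have h2 : padicValRat p (x ^ 3) = 3 * padicValRat p x := by
    rw [padicValRat.pow]
    norm_num
  have h3 : C5_G p (padicValRat p (x ^ 3) + 1) ((α : ℚ) * x + β) := by
    rw [h2]
    refine C5_add (C5_mono ?_ (C5_mul (C5_int (le_refl 0) α) (Or.inr le_rfl))) (C5_int (by omega) β)
    omega
  obtain ⟨h4, h5⟩ := C5_dom (pow_ne_zero 3 h0) h3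
  rw [← add_assoc, ← h] at h4 h5
  have hy : y ≠ 0 := by
    intro hy
    rw [hy] at h4
    exact h4 (by norm_num)
  rw [h2, padicValRat.pow] at h5
  push_cast at h5
  rw [padicValRat.div h0 hy]
  refine ⟨h0, hy, ?_, ?_, ?_⟩ <;> omega

theorem t_sum {p : ℕ} (hp : p.Prime) {α β : ℤ} {x₁ y₁ x₂ y₂ x₃ y₃ : ℚ}
    {h₁ : (EW ℚ α β).toAffine.Nonsingular x₁ y₁} {h₂ : (EW ℚ α β).toAffine.Nonsingular x₂ y₂}
    {h₃ : (EW ℚ α β).toAffine.Nonsingular x₃ y₃}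
    (h : (.some x₁ y₁ h₁ : Pt ℚ α β) + .some x₂ y₂ h₂ + .some x₃ y₃ h₃ = 0) (g₁ : p ∣ x₁.den) (g₂ : p ∣ x₂.den)
    (g₃ : p ∣ x₃.den) (m : ℤ) (hm : 1 ≤ m) (k₁ : m ≤ padicValRat p (x₁ / y₁)) (k₂ : m ≤ padicValRat p (x₂ / y₂))
    (k₃ : m ≤ padicValRat p (x₃ / y₃)) :
    x₁ / y₁ + x₂ / y₂ + x₃ / y₃ = 0 ∨ 5 * m ≤ padicValRat p (x₁ / y₁ + x₂ / y₂ + x₃ / y₃) := by
  have hF : Fact p.Prime := ⟨hp⟩
  obtain ⟨l, n, hL⟩ := lin_of_sum α β (two_ne_zero) x₁ y₁ x₂ y₂ x₃ y₃ h₁ h₂ h₃ h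
  obtain ⟨a1, b1, c1, d1, f1⟩ := t_val hp ((EW_eqn α β x₁ y₁).1 h₁.1) g₁
  obtain ⟨a2, b2, c2, d2, f2⟩ := t_val hp ((EW_eqn α β x₂ y₂).1 h₂.1) g₂
  obtain ⟨a3, b3, c3, d3, f3⟩ := t_val hp ((EW_eqn α β x₃ y₃).1 h₃.1) g₃
  obtain ⟨k, hk⟩ : ∃ k, k = padicValRat p (x₁ / y₁) := ⟨_, rfl⟩
  obtain ⟨k', hk'⟩ : ∃ k, k = padicValRat p (x₂ / y₂) := ⟨_, rfl⟩
  obtain ⟨k'', hk''⟩ : ∃ k, k = padicValRat p (x₃ / y₃) := ⟨_, rfl⟩
  rw [← hk] at k₁ c1 d1 f1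
  rw [← hk'] at k₂ c2 d2 f2
  rw [← hk''] at k₃ c3 d3 f3
  obtain ⟨K, hK1, hK2, hK3, hK⟩ : ∃ K : ℤ, k ≤ K ∧ k' ≤ K ∧ k'' ≤ K ∧ (K = k ∨ K = k' ∨ K = k'') := by
    refine ⟨max k (max k' k''), le_max_left _ _, (le_max_left _ _).trans (le_max_right _ _),
      (le_max_right _ _).trans (le_max_right _ _), ?_⟩
    omega
  -- valuation of `n`
  have hX0 : x₁ * x₂ * x₃ ≠ 0 := mul_ne_zero (mul_ne_zero a1 a2) a3
  have hX : padicValRat p (x₁ * x₂ * x₃) = -2 * (k + k' + k'') := by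
    rw [padicValRat.mul (mul_ne_zero a1 a2) a3, padicValRat.mul a1 a2, d1, d2, d3]
    ring
  have hn2 : n ^ 2 = x₁ * x₂ * x₃ + β := by linear_combination (-1 : ℚ) * hL.e3
  obtain ⟨i1, i2⟩ := C5_dom (p := p) (u := x₁ * x₂ * x₃) (w := (β : ℚ)) hX0
    (C5_int (by rw [hX]; omega) β)
  rw [← hn2] at i1 i2
  have hn0 : n ≠ 0 := by
    intro hn
    rw [hn] at i1
    exact i1 (by norm_num)
  have hn : padicValRat p n = -(k + k' + k'') := by
    rw [hX, padicValRat.pow] at i2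
    push_cast at i2
    omega
  -- valuation of `l`
  have hl2 : C5_G p (-2 * K) (l ^ 2) := by
    rw [hL.e1]
    refine C5_add (C5_add (Or.inr ?_) (Or.inr ?_)) (Or.inr ?_)
    · rw [d1]; omega
    · rw [d2]; omega
    · rw [d3]; omega
  have hl : C5_G p (-K) l := by
    by_cases h0 : l = 0
    · exact Or.inl h0
    · rcases hl2 with h1 | h1
      · exact absurd h1 (pow_ne_zero 2 h0)
      · rw [padicValRat.pow] at h1
        push_cast at h1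
        exact Or.inr (by omega)
  -- the identity
  have hid : x₁ * y₂ * y₃ + x₂ * y₁ * y₃ + x₃ * y₁ * y₂ = ((2 * α : ℤ) : ℚ) * (l * n) +
      ((-3 * β : ℤ) : ℚ) * l ^ 2 := by
    rw [hL.y1, hL.y2, hL.y3]
    push_cast
    linear_combination (3 * l ^ 2) * hL.e3 - (2 * l * n) * hL.e2 - n ^ 2 * hL.e1
  have hsum : x₁ / y₁ + x₂ / y₂ + x₃ / y₃ = (x₁ * y₂ * y₃ + x₂ * y₁ * y₃ + x₃ * y₁ * y₂) /
      (y₁ * y₂ * y₃) := by
    field_simp
  have hnum : C5_G p (-K - (k + k' + k'')) (x₁ * y₂ * y₃ + x₂ * y₁ * y₃ + x₃ * y₁ * y₂) := by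
    rw [hid]
    refine C5_add (C5_mono ?_ (C5_mul (C5_int (le_refl 0) _) (C5_mul hl (Or.inr hn.symm.le))))
      (C5_mono ?_ (C5_mul (C5_int (le_refl 0) _) hl2))
    · omega
    · omega
  rcases hnum with h1 | h1
  · left
    rw [hsum, h1, zero_div]
  · by_cases h0 : x₁ * y₂ * y₃ + x₂ * y₁ * y₃ + x₃ * y₁ * y₂ = 0
    · left
      rw [hsum, h0, zero_div]
    · right
      rw [hsum, padicValRat.div h0 (mul_ne_zero (mul_ne_zero b1 b2) b3),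
        padicValRat.mul (mul_ne_zero b1 b2) b3, padicValRat.mul b1 b2, f1, f2, f3]
      omega

end MWS
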