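import Pool.Agent.Lib.MP_10e784_agW.Defs

/-!
# The Mordell-Weil sieve on average, II: definitions
-/

namespace MWS

open Finset

/-- the index set of the basis `x^i` (`i ≤ d`), `x^i y` (`i ≤ d - 2`) of `L(2 d O)` -/
abbrev Bs (d : ℕ) : Type := Fin (d + 1) ⊕ Fin (d - 1)

/-- the values of the basis at a point; `none` is the point `O` at infinity, where only the leading term `x^d` counts -/
def bv {F : Type*} [CommRing F] {d : ℕ} : Option (F × F) → Bs d → F
  | none, .inl i => if i = Fin.last d then 1 else 0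
  | none, .inr _ => 0
  | some z, .inl i => z.1 ^ (i : ℕ)
  | some z, .inr i => z.1 ^ (i : ℕ) * z.2

/-- a point as `none` (infinity) or as the pair of its coordinates -/
def op {F : Type*} [Field F] {α β : ℤ} : Pt F α β → Option (F × F)
  | .zero => none
  | .some x y _ => some (x, y)

/-- the coefficients of `J` sections on a product of `g` elliptic curves -/
abbrev CA {g J : ℕ} (d : Fin J → Fin g → ℕ) : Type := Σ j : Fin J, ((l : Fin g) → Bs (d j l))

/-- the value of the `j`-th section -/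
def SA {F : Type*} [CommRing F] {g J : ℕ} {d : Fin J → Fin g → ℕ} (c : CA d → F) (z : Fin g → Option (F × F))
    (j : Fin J) : F :=
  ∑ k : (l : Fin g) → Bs (d j l), c ⟨j, k⟩ * ∏ l, bv (z l) (k l)

/-- the value of the form `∑_i (∑_k c(i, k) e_k(z)) u^i v^(n-i)`, `e_k` the basis of `L(2 d O)` -/
def FB {F : Type*} [CommRing F] {n d : ℕ} (c : Fin (n + 1) × Bs d → F) (z : Option (F × F)) (u v : F) : F :=
  ∑ i : Fin (n + 1), (∑ k : Bs d, c (i, k) * bv z k) * u ^ (i : ℕ) * v ^ (n - (i : ℕ))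

/-- the data at a prime: `p + 1` points at the primes inert in the field of `√D`, away from `M` -/
def Gd (α β D : ℤ) (M : ℕ) : Prop :=
  dsc α β ≠ 0 ∧ M ≠ 0 ∧ ∀ p : ℕ, p.Prime → ¬ p ∣ M →
    p ≠ 2 ∧ ¬ (p : ℤ) ∣ dsc α β ∧ (¬ IsSquare ((D : ℤ) : ZMod p) → na α β p = p)

/-- `L ^ s` classes modulo `L` for all `L` divisible by `p + 1` for some inert `p` away from `M` -/
def Cls (α β D : ℤ) (M s : ℕ) : Prop :=
  ∀ L : ℕ, 1 ≤ L → (∃ p : ℕ, p.Prime ∧ ¬ p ∣ M ∧ ¬ IsSquare ((D : ℤ) : ZMod p) ∧ p + 1 ∣ L) →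
    ∃ r : Fin (L ^ s) → Pt ℚ α β, ∀ P : Pt ℚ α β, ∃ i, ∃ Q : Pt ℚ α β, P = r i + L • Q

end MWS
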