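import Pool.Agent.Lib.MP_10e784_agV.Defs

/-!
# LEAF VL: linear congruences for the coefficients

PROOF of `lin_box`.  `S` a set of primes, `q = ∏ p ≤ H`; for each `j` the coordinate `(j, k0 j)` has a coefficient `w p j (k0 j)` prime to `p` for all `p ∈ S` (it is not zero in `ZMod p`).  Fix all the other coordinates; then `c (j, k0 j)` is determined modulo every `p ∈ S`, so modulo `q` (CRT: two solutions are congruent modulo all `p ∈ S`, so modulo `q`),
and the interval `[-H, H]` contains at most `(2 H + 1)/q + 1 ≤ 4 H / q` such integers (`q ≤ H`).  So the number of `c` is at most `(2 H + 1) ^ (card - J) (4 H / q) ^ J` (`card = Fintype.card (Σ j, K j)`; the sections `j` have disjoint sets of coordinates; injective map / fibres of the restriction to the other coordinates).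
PROOF of `sub_prod`.  Order `T` arbitrarily and add primes as long as the product is `≤ H`: take a maximal `S ⊆ T` (for inclusion, or of maximal product) with `∏_S p ≤ H`; `S ≠ T` since `∏_T p > H`; for `p ∈ T ∖ S` `p ∏_S > H`, so `∏_S ≥ H / X`.
-/

namespace MWS

open Finset

theorem lin_box {J : ℕ} (K : Fin J → Type) [∀ j, Fintype (K j)] [∀ j, DecidableEq (K j)] (H : ℕ) (h1 : 1 ≤ H)
    (S : Finset ℕ) (hS : ∀ p ∈ S, p.Prime) (hq : ∏ p ∈ S, p ≤ H) (w : (p : ℕ) → (j : Fin J) → K j → ZMod p)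
    (k0 : (j : Fin J) → K j) (hw : ∀ p ∈ S, ∀ j, w p j (k0 j) ≠ 0) :
    (Nat.card {c : (Σ j : Fin J, K j) → ℤ // (∀ t, |c t| ≤ (H : ℤ)) ∧
      ∀ p ∈ S, ∀ j, ∑ k : K j, ((c ⟨j, k⟩ : ℤ) : ZMod p) * w p j k = 0} : ℝ) ≤
      (2 * (H : ℝ) + 1) ^ (Fintype.card (Σ j : Fin J, K j) - J) * (4 * (H : ℝ) / ((∏ p ∈ S, p : ℕ) : ℝ)) ^ J := by
  classical
  obtain ⟨q, hqd⟩ : ∃ q : ℕ, q = ∏ p ∈ S, p := ⟨_, rfl⟩
  have hq1 : 1 ≤ q := by
    rw [hqd]
    exact Finset.prod_pos fun p hp => (hS p hp).pos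
  rw [← hqd] at hq ⊢
  have hcI : Fintype.card {t : (Σ j : Fin J, K j) // ¬ t.2 = k0 t.1} =
      Fintype.card (Σ j : Fin J, K j) - J := by
    rw [Fintype.card_subtype_compl]
    congr 1
    refine (Fintype.card_congr (β := Fin J)
      { toFun := fun t => t.1.1
        invFun := fun j => ⟨⟨j, k0 j⟩, rfl⟩
        left_inv := fun t => ?_
        right_inv := fun j => rfl }).trans (Fintype.card_fin J)
    obtain ⟨⟨j, k⟩, h⟩ := t
    have h' : k = k0 j := h
    subst h'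
    rfl
  obtain ⟨F, hF⟩ : ∃ F : {c : (Σ j : Fin J, K j) → ℤ // (∀ t, |c t| ≤ (H : ℤ)) ∧
      ∀ p ∈ S, ∀ j, ∑ k : K j, ((c ⟨j, k⟩ : ℤ) : ZMod p) * w p j k = 0} →
      ({t : (Σ j : Fin J, K j) // ¬ t.2 = k0 t.1} → Fin (2 * H + 1)) × (Fin J → Fin (2 * H / q + 1)),
      ∀ c, (∀ t, (((F c).1 t : ℕ) : ℤ) = c.1 t.1 + H) ∧
        ∀ j, (((F c).2 j : ℕ) : ℤ) = (c.1 ⟨j, k0 j⟩ + H) / q := by
    have hb : ∀ (c : {c : (Σ j : Fin J, K j) → ℤ // (∀ t, |c t| ≤ (H : ℤ)) ∧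
      ∀ p ∈ S, ∀ j, ∑ k : K j, ((c ⟨j, k⟩ : ℤ) : ZMod p) * w p j k = 0}) (t : Σ j : Fin J, K j),
        0 ≤ c.1 t + H ∧ c.1 t + H ≤ 2 * H := by
      intro c t
      have := abs_le.1 (c.2.1 t)
      constructor <;> linarith [this.1, this.2]
    refine ⟨fun c => (fun t => ⟨(c.1 t.1 + H).toNat, ?_⟩,
      fun j => ⟨((c.1 ⟨j, k0 j⟩ + H) / q).toNat, ?_⟩), fun c => ⟨fun t => ?_, fun j => ?_⟩⟩
    · have := hb c t.1
      omega
    · have h2 := hb c ⟨j, k0 j⟩
      have h3 : (c.1 ⟨j, k0 j⟩ + H) / q ≤ ((2 * H / q : ℕ) : ℤ) := by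
        push_cast
        exact Int.ediv_le_ediv (by exact_mod_cast hq1) h2.2
      exact Nat.lt_succ_of_le (Int.toNat_le.2 h3)
    · exact Int.toNat_of_nonneg (hb c t.1).1
    · exact Int.toNat_of_nonneg (Int.ediv_nonneg (hb c _).1 (by positivity))
  have hinj : Function.Injective F := by
    intro c c' h
    have h2 : ∀ t : Σ j : Fin J, K j, ¬ t.2 = k0 t.1 → c.1 t = c'.1 t := by
      intro t ht
      have h3 := (hF c).1 ⟨t, ht⟩
      rw [h, (hF c').1 ⟨t, ht⟩] at h3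
      linarith
    have h4 : ∀ j, c.1 ⟨j, k0 j⟩ = c'.1 ⟨j, k0 j⟩ := by
      intro j
      have h5 : (q : ℤ) ∣ c.1 ⟨j, k0 j⟩ - c'.1 ⟨j, k0 j⟩ := by
        have h6 : ∀ p ∈ S, (p : ℤ) ∣ c.1 ⟨j, k0 j⟩ - c'.1 ⟨j, k0 j⟩ := by
          intro p hp
          have : Fact p.Prime := ⟨hS p hp⟩
          have h7 := c.2.2 p hp j
          have h8 := c'.2.2 p hp j
          have h9 : ∑ k : K j, (((c.1 ⟨j, k⟩ : ℤ) : ZMod p) - ((c'.1 ⟨j, k⟩ : ℤ) : ZMod p)) * w p j k = 0 := by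
            simp only [sub_mul]
            rw [Finset.sum_sub_distrib, h7, h8, sub_zero]
          rw [Finset.sum_eq_single (k0 j)] at h9
          · have h10 := (mul_eq_zero.1 h9).resolve_right (hw p hp j)
            rw [← Int.cast_sub] at h10
            exact (ZMod.intCast_zmod_eq_zero_iff_dvd _ p).1 h10
          · intro k _ hk
            rw [h2 ⟨j, k⟩ hk, sub_self, zero_mul]
          · intro h0
            exact absurd (Finset.mem_univ _) h0
        rw [hqd]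
        push_cast
        refine Finset.prod_dvd_of_coprime ?_ h6
        intro a ha b hb hab
        rw [Function.onFun]
        exact Nat.isCoprime_iff_coprime.2 ((Nat.coprime_primes (hS a ha) (hS b hb)).2 hab)
      have h6 := (hF c).2 j
      rw [h, (hF c').2 j] at h6
      obtain ⟨z, hz⟩ := h5
      have h7 : c.1 ⟨j, k0 j⟩ + H = (c'.1 ⟨j, k0 j⟩ + H) + q * z := by linarith
      rw [h7, Int.add_mul_ediv_left _ _ (by exact_mod_cast (by omega : q ≠ 0))] at h6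
      have h8 : z = 0 := by linarith
      rw [h8, mul_zero] at hz
      linarith
    refine Subtype.ext (funext fun t => ?_)
    by_cases ht : t.2 = k0 t.1
    · obtain ⟨j, k⟩ := t
      have ht' : k = k0 j := ht
      subst ht'
      exact h4 j
    · exact h2 t ht
  have hle := Nat.card_le_card_of_injective F hinj
  rw [Nat.card_eq_fintype_card (α := (({t : (Σ j : Fin J, K j) // ¬ t.2 = k0 t.1} → Fin (2 * H + 1)) ×
    (Fin J → Fin (2 * H / q + 1)))), Fintype.card_prod, Fintype.card_fun, Fintype.card_fun,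
    Fintype.card_fin, Fintype.card_fin, Fintype.card_fin, hcI] at hle
  have hqR : (0 : ℝ) < q := by exact_mod_cast hq1
  have h2 : ((2 * H / q + 1 : ℕ) : ℝ) ≤ 4 * (H : ℝ) / q := by
    have h3 : ((2 * H / q : ℕ) : ℝ) ≤ ((2 * H : ℕ) : ℝ) / q := Nat.cast_div_le
    have h4 : (1 : ℝ) ≤ (H : ℝ) / q := by
      rw [le_div_iff₀ hqR, one_mul]
      exact_mod_cast hq
    push_cast at h3 ⊢
    have h5 : 4 * (H : ℝ) / q = 2 * H / q + 2 * (H / q) := by ring
    linarith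
  calc (Nat.card {c : (Σ j : Fin J, K j) → ℤ // (∀ t, |c t| ≤ (H : ℤ)) ∧
      ∀ p ∈ S, ∀ j, ∑ k : K j, ((c ⟨j, k⟩ : ℤ) : ZMod p) * w p j k = 0} : ℝ)
      ≤ (((2 * H + 1) ^ (Fintype.card (Σ j : Fin J, K j) - J) * (2 * H / q + 1) ^ J : ℕ) : ℝ) := by
        exact_mod_cast hle
    _ = (2 * (H : ℝ) + 1) ^ (Fintype.card (Σ j : Fin J, K j) - J) * (((2 * H / q + 1 : ℕ) : ℝ)) ^ J := by
        push_cast
        rfl
    _ ≤ _ := by
        refine mul_le_mul_of_nonneg_left (pow_le_pow_left₀ (by positivity) h2 _) (by positivity)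

theorem sub_prod (T : Finset ℕ) (X H : ℕ) (hT : ∀ p ∈ T, 1 ≤ p ∧ p ≤ X) (h1 : 1 ≤ H) (h : H < ∏ p ∈ T, p) :
    ∃ S ⊆ T, ∏ p ∈ S, p ≤ H ∧ H ≤ X * ∏ p ∈ S, p := by
  classical
  obtain ⟨S, hS, hmax⟩ := Finset.exists_max_image (T.powerset.filter fun S => ∏ p ∈ S, p ≤ H)
    Finset.card ⟨∅, by
      rw [Finset.mem_filter, Finset.mem_powerset]
      exact ⟨Finset.empty_subset _, by simpa using h1⟩⟩
  rw [Finset.mem_filter, Finset.mem_powerset] at hS
  refine ⟨S, hS.1, hS.2, ?_⟩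
  obtain ⟨p, hp, hpS⟩ : ∃ p ∈ T, p ∉ S := by
    by_contra hno
    push Not at hno
    have h2 : S = T := Finset.Subset.antisymm hS.1 hno
    rw [h2] at hS
    omega
  by_contra hlt
  push Not at hlt
  have h2 : ∏ p ∈ insert p S, p ≤ H := by
    rw [Finset.prod_insert hpS]
    exact (Nat.mul_le_mul_right _ (hT p hp).2).trans hlt.le
  have h3 := hmax (insert p S) (by
    rw [Finset.mem_filter, Finset.mem_powerset]
    exact ⟨Finset.insert_subset hp hS.1, h2⟩)
  rw [Finset.card_insert_of_notMem hpS] at h3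
  omega

end MWS
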