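import Pool.Agent.Lib.MP_10e784_agW.FA

/-!
# LEAF VP3: the choice of the parameters for linear conditions

PROOF.  `x = C₀ log H` with `C₀ = 4 K G` (`G ≥ 1` is the number of types), `y = ⌊x ^ (1/A)⌋₊`, `L = (primorial y) ^ (Nat.log 2 ⌊x + 1⌋₊)`, `log L ≤ 4 x ^ (1/A) log (x + 1)`, so `L ^ s x ^ J ≤ H ^ ε` for `H` large.  `dvd_prim` (folder agW, FA1).
If `x / (K log x) ≤ G t` then `t log (x / K) ≥ x log (x/K) / (G K log x) ≥ x / (2 G K) = 2 log H > log H` (for `x` large `log (x / K) ≥ (1/2) log x`).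
-/

namespace MWS

open Filter Topology

/-- the inequalities between the parameters, as `x → ∞` -/
theorem VP3_event (A δ K x0 : ℝ) (s J : ℕ) (hA : 1 < A) (hδ : 0 < δ) :
    ∀ᶠ x : ℝ in atTop, 2 ≤ x ∧ x0 ≤ x ∧ K ^ 2 < x ∧
      s * ((2 * Real.log (x + 1)) * (x ^ (1 / A) * Real.log 4)) + J * Real.log (4 * x) ≤ δ * x := by
  have hA0 : 0 < A := by linarith
  have hr : 0 < 1 - 1 / A := by
    rw [sub_pos, div_lt_one hA0]
    exact hA
  have hc4 : 0 < Real.log 4 := Real.log_pos (by norm_num)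
  have hC : 0 < δ / (s * (4 * Real.log 4) + 3 * J + 1) := by positivity
  have e4 := (isLittleO_log_rpow_atTop hr).bound hC
  filter_upwards [eventually_ge_atTop 2, eventually_ge_atTop x0, eventually_gt_atTop (K ^ 2), e4] with x h2 h0 hK h4
  have hx : 0 < x := by linarith
  have hlog : 0 ≤ Real.log x := Real.log_nonneg (by linarith)
  refine ⟨h2, h0, hK, ?_⟩
  rw [Real.norm_of_nonneg hlog, Real.norm_of_nonneg (Real.rpow_nonneg hx.le _)] at h4
  obtain ⟨c, hc⟩ : ∃ c : ℝ, c = δ / (s * (4 * Real.log 4) + 3 * J + 1) := ⟨_, rfl⟩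
  rw [← hc] at h4 hC
  have g1 : Real.log (x + 1) ≤ 2 * Real.log x := by
    have h5 : Real.log (x + 1) ≤ Real.log (x ^ 2) := Real.log_le_log (by linarith) (by nlinarith)
    rw [Real.log_pow] at h5
    exact_mod_cast h5
  have g2 : Real.log (4 * x) ≤ 3 * Real.log x := by
    have h5 : Real.log (4 * x) ≤ Real.log (x ^ 3) := Real.log_le_log (by linarith) (by nlinarith [mul_pos hx hx])
    rw [Real.log_pow] at h5
    exact_mod_cast h5
  have g3 : x ^ (1 - 1 / A) * x ^ (1 / A) = x := by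
    rw [← Real.rpow_add hx, sub_add_cancel, Real.rpow_one]
  have hP : 0 < x ^ (1 / A) := Real.rpow_pos_of_pos hx _
  have g4 : x ^ (1 - 1 / A) ≤ x := by
    calc x ^ (1 - 1 / A) ≤ x ^ (1 : ℝ) := by
          refine Real.rpow_le_rpow_of_exponent_le (by linarith) ?_
          have : 0 < 1 / A := by positivity
          linarith
      _ = x := Real.rpow_one x
  have g5 : Real.log x * x ^ (1 / A) ≤ c * x := by
    calc Real.log x * x ^ (1 / A) ≤ (c * x ^ (1 - 1 / A)) * x ^ (1 / A) := by gcongr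
      _ = c * x := by rw [mul_assoc, g3]
  have g6 : Real.log x ≤ c * x := h4.trans (by gcongr)
  calc (s : ℝ) * ((2 * Real.log (x + 1)) * (x ^ (1 / A) * Real.log 4)) + J * Real.log (4 * x)
      ≤ s * ((2 * (2 * Real.log x)) * (x ^ (1 / A) * Real.log 4)) + J * (3 * Real.log x) := by gcongr
    _ = s * (4 * Real.log 4) * (Real.log x * x ^ (1 / A)) + 3 * J * Real.log x := by ring
    _ ≤ s * (4 * Real.log 4) * (c * x) + 3 * J * (c * x) := by gcongr
    _ = (s * (4 * Real.log 4) + 3 * J) * c * x := by ring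
    _ ≤ δ * x := by
      refine mul_le_mul_of_nonneg_right ?_ hx.le
      rw [hc, mul_div_assoc', div_le_iff₀ (by positivity)]
      nlinarith [show (0:ℝ) ≤ s * (4 * Real.log 4) + 3 * J by positivity]

theorem params3 (A : ℝ) (hA : 1 < A) (hA2 : A ≤ 2) (K x0 ε : ℝ) (G s J : ℕ) (hK : 1 ≤ K) (hε : 0 < ε) (hG : 1 ≤ G) :
    ∃ H0 : ℕ, ∀ H : ℕ, H0 ≤ H → ∃ (x : ℝ) (L : ℕ), x0 ≤ x ∧ 1 ≤ L ∧
      (∀ n : ℕ, 1 ≤ n → (n : ℝ) ≤ x + 1 → (∀ q : ℕ, q.Prime → q ∣ n → (q : ℝ) ^ A ≤ x) → n ∣ L) ∧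
      (L : ℝ) ^ s * (4 * x) ^ J ≤ (H : ℝ) ^ ε ∧
      ∀ t : ℕ, x / (K * Real.log x) ≤ (G : ℝ) * t → Real.log H < t * Real.log (x / K) := by
  have hA0 : 0 < A := by linarith
  have hGr : (1 : ℝ) ≤ G := by exact_mod_cast hG
  obtain ⟨C0, hC0⟩ : ∃ C0 : ℝ, C0 = 4 * K * G := ⟨_, rfl⟩
  have hKG : 1 ≤ K * G := by nlinarith
  have hC04 : 4 ≤ C0 := by rw [hC0]; nlinarith
  have hCp : 0 < C0 := by linarith
  obtain ⟨l0, hl0⟩ := eventually_atTop.1 (VP3_event A (ε / C0) K x0 s J hA (by positivity))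
  refine ⟨⌈Real.exp (max l0 1)⌉₊, fun H hH => ?_⟩
  have hK0 : 0 < K := by linarith
  have hHe : Real.exp (max l0 1) ≤ H := (Nat.le_ceil _).trans (by exact_mod_cast hH)
  have hH0 : (0 : ℝ) < H := (Real.exp_pos _).trans_le hHe
  obtain ⟨l, hl⟩ : ∃ l : ℝ, l = Real.log H := ⟨_, rfl⟩
  have hel : Real.exp l = H := by rw [hl, Real.exp_log hH0]
  have hll : max l0 1 ≤ l := by
    rw [hl, Real.le_log_iff_exp_le hH0]
    exact hHe
  have hl1 : 1 ≤ l := (le_max_right _ _).trans hll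
  have hlp : 0 < l := by linarith
  obtain ⟨x, hx⟩ : ∃ x : ℝ, x = C0 * l := ⟨_, rfl⟩
  have hxl : l0 ≤ x := by
    have h1 : l0 ≤ l := (le_max_left _ _).trans hll
    have h2 : l ≤ x := by rw [hx]; nlinarith
    linarith
  obtain ⟨h2, h0, hK2, hmain⟩ := hl0 x hxl
  have hx0 : 0 < x := by linarith
  have hlogx : 0 < Real.log x := Real.log_pos (by linarith)
  obtain ⟨y, hy⟩ : ∃ y : ℕ, y = ⌊x ^ (1 / A)⌋₊ := ⟨_, rfl⟩
  obtain ⟨j, hj⟩ : ∃ j : ℕ, j = Nat.log 2 ⌊x + 1⌋₊ := ⟨_, rfl⟩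
  refine ⟨x, (primorial y) ^ j, h0, ?_, ?_, ?_, ?_⟩
  · exact Nat.one_le_iff_ne_zero.2 (pow_ne_zero _ (primorial_pos y).ne')
  · intro n hn1 hnx hq
    rw [hj]
    refine dvd_prim n ⌊x + 1⌋₊ y hn1 (Nat.le_floor hnx) fun q hqp hqn => ?_
    rw [hy]
    refine Nat.le_floor ?_
    have g1 := hq q hqp hqn
    have g2 : (0 : ℝ) ≤ q := Nat.cast_nonneg _
    calc (q : ℝ) = ((q : ℝ) ^ A) ^ (1 / A) := by
          rw [← Real.rpow_mul g2, mul_one_div_cancel hA0.ne', Real.rpow_one]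
      _ ≤ x ^ (1 / A) := Real.rpow_le_rpow (by positivity) g1 (by positivity)
  · have hprim : ((primorial y : ℕ) : ℝ) ≤ (4 : ℝ) ^ y := by
      exact_mod_cast primorial_le_four_pow y
    have hj2 : (j : ℝ) ≤ 2 * Real.log (x + 1) := by
      have g1 : ((2 : ℕ) : ℝ) ^ j ≤ x + 1 := by
        have g2 : 2 ^ j ≤ ⌊x + 1⌋₊ := by
          rw [hj]
          refine Nat.pow_log_le_self 2 (Nat.pos_iff_ne_zero.1 (Nat.floor_pos.2 (by linarith)))
        calc ((2 : ℕ) : ℝ) ^ j = ((2 ^ j : ℕ) : ℝ) := by push_cast; rfl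
          _ ≤ (⌊x + 1⌋₊ : ℝ) := by exact_mod_cast g2
          _ ≤ x + 1 := Nat.floor_le (by linarith)
      have g3 := Real.log_le_log (by positivity) g1
      rw [Real.log_pow] at g3
      have g4 : (0.5 : ℝ) ≤ Real.log 2 := by
        have := Real.log_two_gt_d9
        linarith
      push_cast at g3
      have g5 : (j : ℝ) * 0.5 ≤ j * Real.log 2 := mul_le_mul_of_nonneg_left g4 (Nat.cast_nonneg _)
      linarith
    have hyx : (y : ℝ) ≤ x ^ (1 / A) := by
      rw [hy]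
      exact Nat.floor_le (by positivity)
    have hlogp : Real.log (((primorial y : ℕ) : ℝ)) ≤ y * Real.log 4 := by
      have g1 := Real.log_le_log (by exact_mod_cast primorial_pos y) hprim
      rwa [Real.log_pow] at g1
    have hp0 : (0 : ℝ) < ((primorial y : ℕ) : ℝ) := by exact_mod_cast primorial_pos y
    have hc4 : 0 < Real.log 4 := Real.log_pos (by norm_num)
    have e1 : (((primorial y) ^ j : ℕ) : ℝ) ^ s
        = Real.exp (s * (j * Real.log ((primorial y : ℕ) : ℝ))) := by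
      rw [Real.exp_nat_mul, Real.exp_nat_mul, Real.exp_log hp0]
      push_cast
      rfl
    have e1' : (4 * x) ^ J = Real.exp (J * Real.log (4 * x)) := by
      rw [Real.exp_nat_mul, Real.exp_log (by linarith)]
    have e2 : (H : ℝ) ^ ε = Real.exp (ε * l) := by
      rw [Real.rpow_def_of_pos hH0, ← hl, mul_comm]
    rw [e1, e1', e2, ← Real.exp_add]
    refine Real.exp_le_exp.2 ?_
    have e5 : ε / C0 * x = ε * l := by
      rw [hx]
      field_simp
    rw [← e5]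
    refine le_trans ?_ hmain
    have hlog1 : 0 ≤ Real.log (x + 1) := Real.log_nonneg (by linarith)
    have e3 : (j : ℝ) * Real.log ((primorial y : ℕ) : ℝ)
        ≤ (2 * Real.log (x + 1)) * (x ^ (1 / A) * Real.log 4) := by
      calc (j : ℝ) * Real.log ((primorial y : ℕ) : ℝ) ≤ j * (y * Real.log 4) := by gcongr
        _ ≤ (2 * Real.log (x + 1)) * (x ^ (1 / A) * Real.log 4) := by gcongr
    have e4 := mul_le_mul_of_nonneg_left e3 (Nat.cast_nonneg (α := ℝ) s)
    linarith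
  · intro t ht
    rw [← hl]
    have g1 : Real.log x / 2 ≤ Real.log (x / K) := by
      rw [Real.log_div hx0.ne' hK0.ne']
      have g2 : Real.log (K ^ 2) ≤ Real.log x := Real.log_le_log (by positivity) hK2.le
      rw [Real.log_pow] at g2
      push_cast at g2
      linarith
    have g3 : x / (K * Real.log x) * (Real.log x / 2) ≤ (G : ℝ) * t * Real.log (x / K) := by
      have g4 : (0 : ℝ) ≤ (G : ℝ) * t := by positivity
      calc x / (K * Real.log x) * (Real.log x / 2) ≤ ((G : ℝ) * t) * (Real.log x / 2) :=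
            mul_le_mul_of_nonneg_right ht (by linarith)
        _ ≤ (G : ℝ) * t * Real.log (x / K) := mul_le_mul_of_nonneg_left g1 g4
    have g5 : x / (K * Real.log x) * (Real.log x / 2) = 2 * G * l := by
      rw [hx, hC0] at *
      field_simp
      ring
    rw [g5] at g3
    have g6 : (G : ℝ) * (2 * l) ≤ G * (t * Real.log (x / K)) := by linarith
    have g7 : 2 * l ≤ t * Real.log (x / K) := le_of_mul_le_mul_left g6 (by linarith)
    linarith

end MWS
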