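import Pool.Agent.Lib.MP_10e784_agV.VB2
import Pool.Agent.Lib.MP_10e784_agV.VD1
import Pool.Agent.Lib.MP_10e784_agV.VL
import Pool.Agent.Lib.MP_10e784_agV.VP3
import Pool.Agent.Lib.MP_10e784_agV.VG
import Pool.Agent.Lib.MP_10e784_agW.SD

/-!
# LEAF V2: complete intersections in products of elliptic curves

PROOF.  `A` from `smooth`, `K, x0` for `D`; `s` from `classes` for the group `G = Π l, Pt ℚ (α l) (β l)` (`Module.Finite.pi`, `mw`); `H0` from `params3` with `G := 2 ^ g`, `x0' = max x0 (K (2 + M))`, `ε`.  For `H < H0` the trivial bound `(2 H + 1) ^ N ≤ C H ^ (N - J + ε)`.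
Let `H ≥ H0`, `S = SS D A K x`; for `p ∈ S`: `p > x / K > M`, so `p ∤ M`, `p + 1 ∣ L`.  Let `c` be in the box with a common zero `P`, `P = r i + L • Q`; `rd p (P l) = rd p (r i l)` (`rd_cls`), `SA c (fun l => rd p (r i l)) j = 0` for all `j` and `p ∈ S` (`locA`).
Fix the class `i`.  The type of `p`: the set of `l` with `rd p (r i l) = none`, at most `2 ^ g` types, so some type has a set `T ⊆ S` with `2 ^ g |T| ≥ |S| ≥ x / (K log x)` and `log H < |T| log (x/K) ≤ log ∏_T p`.  `sub_prod` gives `S' ⊆ T`, `q = ∏ S' ≤ H ≤ ⌊x⌋ q`.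
`lin_box` with `K j = (l : Fin g) → Bs (d j l)`, `w p j k = ∏_l bv (rd p (r i l)) (k l)`, `k0 j l = inl (Fin.last _)` if `l` is in the type, `inl 0` otherwise (then `w p j (k0 j) = 1`): at most `(2 H + 1)^(N - J) (4 H / q)^J ≤ (3 H)^(N - J) (4 x)^J` of the `c`.
Sum over the classes: `L ^ s (4 x)^J (3 H)^(N - J) ≤ 3 ^ N H ^ (N - J + ε)`.  (`J ≤ N`: every `K j` is nonempty.)
-/

namespace MWS

open Finset

/-- the box as a finite set -/
private theorem V2_mem {ι : Type} [Fintype ι] [DecidableEq ι] (H : ℕ) (c : ι → ℤ) :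
    c ∈ Fintype.piFinset (fun _ : ι => Icc (-(H : ℤ)) (H : ℤ)) ↔ ∀ t, |c t| ≤ (H : ℤ) := by
  rw [Fintype.mem_piFinset]
  exact forall_congr' fun t => by rw [mem_Icc, abs_le]

private theorem V2_card {ι : Type} [Fintype ι] [DecidableEq ι] (H : ℕ) :
    (Fintype.piFinset (fun _ : ι => Icc (-(H : ℤ)) (H : ℤ))).card = (2 * H + 1) ^ Fintype.card ι := by
  rw [Fintype.card_piFinset, prod_const, Int.card_Icc, card_univ]
  congr 1
  omega

/-- the trivial bound -/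
private theorem V2_triv {ι : Type} [Fintype ι] (H : ℕ) (Q : (ι → ℤ) → Prop) :
    (Nat.card {c : ι → ℤ // (∀ t, |c t| ≤ (H : ℤ)) ∧ Q c} : ℝ) ≤ (2 * (H : ℝ) + 1) ^ Fintype.card ι := by
  classical
  have h1 : Nat.card {c : ι → ℤ // (∀ t, |c t| ≤ (H : ℤ)) ∧ Q c} =
      ((Fintype.piFinset (fun _ : ι => Icc (-(H : ℤ)) (H : ℤ))).filter Q).card :=
    Nat.subtype_card _ fun c => by rw [mem_filter, V2_mem]
  rw [h1]
  have h2 := card_filter_le (Fintype.piFinset (fun _ : ι => Icc (-(H : ℤ)) (H : ℤ))) Q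
  rw [V2_card] at h2
  exact_mod_cast h2

/-- the union bound over the classes -/
private theorem V2_union {ι : Type} [Fintype ι] {H n : ℕ} (Q : (ι → ℤ) → Prop)
    (R : Fin n → (ι → ℤ) → Prop) (h : ∀ c : ι → ℤ, (∀ t, |c t| ≤ (H : ℤ)) → Q c → ∃ i, R i c) (T : ℝ)
    (hR : ∀ i, (Nat.card {c : ι → ℤ // (∀ t, |c t| ≤ (H : ℤ)) ∧ R i c} : ℝ) ≤ T) :
    (Nat.card {c : ι → ℤ // (∀ t, |c t| ≤ (H : ℤ)) ∧ Q c} : ℝ) ≤ n * T := by
  classical
  obtain ⟨B, hB⟩ : ∃ B : Finset (ι → ℤ), ∀ c, c ∈ B ↔ ∀ t, |c t| ≤ (H : ℤ) := ⟨_, V2_mem H⟩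
  have hc : ∀ Q' : (ι → ℤ) → Prop, Nat.card {c : ι → ℤ // (∀ t, |c t| ≤ (H : ℤ)) ∧ Q' c} =
      (B.filter Q').card := fun Q' => Nat.subtype_card _ fun c => by rw [mem_filter, hB]
  have h1 : (B.filter Q).card ≤ ∑ i : Fin n, (B.filter (R i)).card := by
    refine (card_le_card (t := univ.biUnion fun i : Fin n => B.filter (R i)) ?_).trans card_biUnion_le
    intro c hc
    rw [mem_filter] at hc
    obtain ⟨i, hi⟩ := h c ((hB c).1 hc.1) hc.2
    exact mem_biUnion.2 ⟨i, mem_univ _, mem_filter.2 ⟨hc.1, hi⟩⟩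
  rw [hc]
  calc ((B.filter Q).card : ℝ) ≤ ((∑ i : Fin n, (B.filter (R i)).card : ℕ) : ℝ) := by exact_mod_cast h1
    _ = ∑ i : Fin n, ((B.filter (R i)).card : ℝ) := by push_cast; rfl
    _ ≤ ∑ _i : Fin n, T := by
        refine sum_le_sum fun i _ => ?_
        have h2 := hR i
        rwa [hc] at h2
    _ = n * T := by simp

/-- the index set is large -/
private theorem V2_le {g J : ℕ} (d : Fin J → Fin g → ℕ) : J ≤ Fintype.card (CA d) := by
  have h : Function.Injective (fun j : Fin J => (⟨j, fun l => Sum.inl 0⟩ : CA d)) := by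
    intro j j' hj
    exact congrArg Sigma.fst hj
  have h2 := Fintype.card_le_of_injective _ h
  rwa [Fintype.card_fin] at h2

/-- pigeonhole for the types of the primes -/
private theorem V2_pigeon {g : ℕ} (S : Finset ℕ) (τ : ℕ → Finset (Fin g)) :
    ∃ t0 : Finset (Fin g), (S.card : ℝ) ≤ ((2 ^ g : ℕ) : ℝ) * ((S.filter fun p => τ p = t0).card : ℝ) := by
  have h := Finset.exists_le_card_fiber_of_nsmul_le_card_of_maps_to (s := S)
    (t := (univ : Finset (Finset (Fin g)))) (f := τ) (b := (S.card : ℝ) / ((2 ^ g : ℕ) : ℝ))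
    (fun a _ => mem_univ _) univ_nonempty (by
      rw [card_univ, Fintype.card_finset, Fintype.card_fin, nsmul_eq_mul]
      rw [mul_div_cancel₀]
      positivity)
  obtain ⟨t0, -, h1⟩ := h
  refine ⟨t0, ?_⟩
  rw [div_le_iff₀ (by positivity)] at h1
  linarith

/-- one class -/
private theorem V2_class {g J : ℕ} (d : Fin J → Fin g → ℕ) (H : ℕ) (hH : 1 ≤ H) (x K : ℝ) (hK : 1 ≤ K)
    (hx : K < x) (S : Finset ℕ) (hSp : ∀ p ∈ S, p.Prime ∧ x / K < (p : ℝ) ∧ p ≤ ⌊x⌋₊)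
    (y : (p : ℕ) → Fin g → Option (ZMod p × ZMod p))
    (hlog : ∀ t : ℕ, (S.card : ℝ) ≤ ((2 ^ g : ℕ) : ℝ) * t → Real.log H < t * Real.log (x / K)) :
    (Nat.card {c : CA d → ℤ // (∀ t, |c t| ≤ (H : ℤ)) ∧
      ∀ p ∈ S, ∀ j, SA (fun t => ((c t : ℤ) : ZMod p)) (y p) j = 0} : ℝ) ≤
      (3 * (H : ℝ)) ^ (Fintype.card (CA d) - J) * (4 * x) ^ J := by
  classical
  have hHr : (1 : ℝ) ≤ H := by exact_mod_cast hH
  have hK0 : (0 : ℝ) < K := by linarith
  have hx0 : (0 : ℝ) < x := by linarith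
  have hxK : 1 < x / K := by rwa [lt_div_iff₀ hK0, one_mul]
  obtain ⟨τ, hτ⟩ : ∃ τ : ℕ → Finset (Fin g), τ = fun p => univ.filter fun l => y p l = none := ⟨_, rfl⟩
  obtain ⟨t0, ht0⟩ := V2_pigeon S τ
  obtain ⟨T, hT⟩ : ∃ T, T = S.filter fun p => τ p = t0 := ⟨_, rfl⟩
  rw [← hT] at ht0
  have hTS : T ⊆ S := by
    rw [hT]
    exact filter_subset _ _
  have h1 := hlog T.card ht0
  have h2 : H < ∏ p ∈ T, p := by
    have h3 : (T.card : ℝ) * Real.log (x / K) ≤ Real.log ((∏ p ∈ T, p : ℕ) : ℝ) := by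
      push_cast
      rw [Real.log_prod fun p hp => by
        have := (hSp p (hTS hp)).1.pos
        positivity]
      rw [← nsmul_eq_mul]
      refine card_nsmul_le_sum _ _ _ fun p hp => ?_
      exact Real.log_le_log (by linarith) (hSp p (hTS hp)).2.1.le
    have h4 : 0 < ∏ p ∈ T, p := prod_pos fun p hp => (hSp p (hTS hp)).1.pos
    have h5 : (0 : ℝ) < ((∏ p ∈ T, p : ℕ) : ℝ) := by exact_mod_cast h4
    have h6 := (Real.log_lt_log_iff (by linarith) h5).1 (h1.trans_le h3)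
    exact_mod_cast h6
  obtain ⟨S', hS'T, hq1, hq2⟩ := sub_prod T ⌊x⌋₊ H (fun p hp => ⟨(hSp p (hTS hp)).1.one_le,
    (hSp p (hTS hp)).2.2⟩) hH h2
  have hS'S : S' ⊆ S := hS'T.trans hTS
  have hbox := lin_box (fun j => (l : Fin g) → Bs (d j l)) H hH S' (fun p hp => (hSp p (hS'S hp)).1) hq1
    (fun p j k => ∏ l, bv (y p l) (k l))
    (fun j l => if l ∈ t0 then Sum.inl (Fin.last _) else Sum.inl 0) (by
      intro p hp j
      have hpp : p.Prime := (hSp p (hS'S hp)).1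
      have : Fact p.Prime := ⟨hpp⟩
      have h3 : τ p = t0 := by
        have h4 := hS'T hp
        rw [hT] at h4
        exact (mem_filter.1 h4).2
      have h4 : ∀ l, bv (y p l) (if l ∈ t0 then (Sum.inl (Fin.last _) : Bs (d j l)) else Sum.inl 0) =
          (1 : ZMod p) := by
        intro l
        have h6 : l ∈ t0 ↔ y p l = none := by
          rw [← h3, hτ, mem_filter]
          exact and_iff_right (mem_univ _)
        by_cases h5 : y p l = none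
        · rw [if_pos (h6.2 h5), h5]
          simp [bv]
        · rw [if_neg fun h7 => h5 (h6.1 h7)]
          obtain ⟨a, ha⟩ := Option.ne_none_iff_exists'.1 h5
          rw [ha]
          simp [bv]
      simp only [h4, prod_const_one]
      exact one_ne_zero)
  have hq0 : 0 < ∏ p ∈ S', p := prod_pos fun p hp => (hSp p (hS'S hp)).1.pos
  have hq0r : (0 : ℝ) < ((∏ p ∈ S', p : ℕ) : ℝ) := by exact_mod_cast hq0
  have hq : 4 * (H : ℝ) / ((∏ p ∈ S', p : ℕ) : ℝ) ≤ 4 * x := by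
    rw [div_le_iff₀ hq0r]
    have h3 : (H : ℝ) ≤ (⌊x⌋₊ : ℝ) * ((∏ p ∈ S', p : ℕ) : ℝ) := by exact_mod_cast hq2
    have h4 : (⌊x⌋₊ : ℝ) ≤ x := Nat.floor_le hx0.le
    have h5 : (⌊x⌋₊ : ℝ) * ((∏ p ∈ S', p : ℕ) : ℝ) ≤ x * ((∏ p ∈ S', p : ℕ) : ℝ) :=
      mul_le_mul_of_nonneg_right h4 hq0r.le
    linarith
  have hle : (Nat.card {c : CA d → ℤ // (∀ t, |c t| ≤ (H : ℤ)) ∧
      ∀ p ∈ S, ∀ j, SA (fun t => ((c t : ℤ) : ZMod p)) (y p) j = 0} : ℝ) ≤
      (Nat.card {c : (Σ j : Fin J, ((l : Fin g) → Bs (d j l))) → ℤ // (∀ t, |c t| ≤ (H : ℤ)) ∧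
      ∀ p ∈ S', ∀ j, ∑ k : ((l : Fin g) → Bs (d j l)), ((c ⟨j, k⟩ : ℤ) : ZMod p) *
        ∏ l, bv (y p l) (k l) = 0} : ℝ) := by
    have hfin : Finite {c : (Σ j : Fin J, ((l : Fin g) → Bs (d j l))) → ℤ // (∀ t, |c t| ≤ (H : ℤ)) ∧
      ∀ p ∈ S', ∀ j, ∑ k : ((l : Fin g) → Bs (d j l)), ((c ⟨j, k⟩ : ℤ) : ZMod p) *
        ∏ l, bv (y p l) (k l) = 0} := by
      refine Finite.of_injective (β := ↥(Fintype.piFinset
        (fun _ : (Σ j : Fin J, ((l : Fin g) → Bs (d j l))) => Icc (-(H : ℤ)) (H : ℤ))))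
        (fun c => ⟨c.1, (V2_mem H c.1).2 c.2.1⟩) fun a b hab => ?_
      have h3 := congrArg Subtype.val hab
      exact Subtype.ext h3
    have h3 := Nat.card_le_card_of_injective
      (fun c : {c : CA d → ℤ // (∀ t, |c t| ≤ (H : ℤ)) ∧
        ∀ p ∈ S, ∀ j, SA (fun t => ((c t : ℤ) : ZMod p)) (y p) j = 0} =>
        (⟨c.1, c.2.1, fun p hp j => c.2.2 p (hS'S hp) j⟩ :
          {c : (Σ j : Fin J, ((l : Fin g) → Bs (d j l))) → ℤ // (∀ t, |c t| ≤ (H : ℤ)) ∧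
      ∀ p ∈ S', ∀ j, ∑ k : ((l : Fin g) → Bs (d j l)), ((c ⟨j, k⟩ : ℤ) : ZMod p) *
        ∏ l, bv (y p l) (k l) = 0})) fun a b hab => by
          have h4 := congrArg Subtype.val hab
          exact Subtype.ext h4
    exact_mod_cast h3
  refine hle.trans (hbox.trans ?_)
  refine mul_le_mul ?_ ?_ (by positivity) (by positivity)
  · exact pow_le_pow_left₀ (by positivity) (by linarith) _
  · exact pow_le_pow_left₀ (by positivity) hq _

theorem main_A {g J : ℕ} (α β : Fin g → ℤ) (D : ℤ) (M : ℕ) (hD : ¬ IsSquare D) (hG : ∀ l, Gd (α l) (β l) D M)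
    (d : Fin J → Fin g → ℕ) (hd : ∀ j l, 1 ≤ d j l) (ε : ℝ) (hε : 0 < ε) : ∃ C : ℝ, ∀ H : ℕ, 1 ≤ H →
      (Nat.card {c : CA d → ℤ // (∀ t, |c t| ≤ (H : ℤ)) ∧ ∃ P : (l : Fin g) → Pt ℚ (α l) (β l),
        ∀ j, SA (fun t => ((c t : ℤ) : ℚ)) (fun l => op (P l)) j = 0} : ℝ) ≤
        C * (H : ℝ) ^ ((Fintype.card (CA d) : ℝ) - J + ε) := by
  obtain ⟨A, hA1, hA2, hsm⟩ := smooth
  obtain ⟨K, hK, x0, hx0, hS⟩ := hsm D hD
  have hmw : ∀ l, Module.Finite ℤ (Pt ℚ (α l) (β l)) := fun l => mw (hG l).1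
  obtain ⟨s, hcl⟩ := classes ((l : Fin g) → Pt ℚ (α l) (β l))
  obtain ⟨H0, hH0⟩ := params3 A hA1 hA2 K (max x0 (K * (2 + M))) ε (2 ^ g) s J hK hε Nat.one_le_two_pow
  obtain ⟨N, hN⟩ : ∃ N, N = Fintype.card (CA d) := ⟨_, rfl⟩
  have hJN : J ≤ N := by
    rw [hN]
    exact V2_le d
  refine ⟨3 ^ N * ((H0 : ℝ) + 1) ^ J, fun H hH => ?_⟩
  have hHr : (1 : ℝ) ≤ H := by exact_mod_cast hH
  have hHpos : (0 : ℝ) < H := by linarith
  have hH0r : (0 : ℝ) ≤ H0 := Nat.cast_nonneg _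
  have hexp : (H : ℝ) ^ ((Fintype.card (CA d) : ℝ) - J + ε) = (H : ℝ) ^ (N - J) * (H : ℝ) ^ ε := by
    rw [Real.rpow_add hHpos, ← hN]
    congr 1
    rw [← Real.rpow_natCast, Nat.cast_sub hJN]
  have hHe : (1 : ℝ) ≤ (H : ℝ) ^ ε := Real.one_le_rpow hHr hε.le
  have h3H : 2 * (H : ℝ) + 1 ≤ 3 * H := by linarith
  have hone : (1 : ℝ) ≤ ((H0 : ℝ) + 1) ^ J := one_le_pow₀ (by linarith)
  rw [hexp]
  rcases lt_or_ge H H0 with hlt | hge
  · -- small `H`
    have h1 := V2_triv H (fun c : CA d → ℤ => ∃ P : (l : Fin g) → Pt ℚ (α l) (β l),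
        ∀ j, SA (fun t => ((c t : ℤ) : ℚ)) (fun l => op (P l)) j = 0)
    rw [← hN] at h1
    refine h1.trans ?_
    have hlt' : (H : ℝ) ≤ (H0 : ℝ) + 1 := by
      have : (H : ℝ) < H0 := by exact_mod_cast hlt
      linarith
    calc (2 * (H : ℝ) + 1) ^ N ≤ (3 * (H : ℝ)) ^ N := pow_le_pow_left₀ (by positivity) h3H _
      _ = 3 ^ N * (H : ℝ) ^ J * (H : ℝ) ^ (N - J) := by
          rw [mul_pow, mul_assoc, ← pow_add]
          congr 2
          omega
      _ ≤ 3 ^ N * ((H0 : ℝ) + 1) ^ J * ((H : ℝ) ^ (N - J) * (H : ℝ) ^ ε) := by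
          refine mul_le_mul ?_ ?_ (by positivity) (by positivity)
          · exact mul_le_mul_of_nonneg_left (pow_le_pow_left₀ hHpos.le hlt' _) (by positivity)
          · exact le_mul_of_one_le_right (by positivity) hHe
  · -- large `H`
    obtain ⟨x, L, hx, hL, hdvd, hLx, hlog⟩ := hH0 H hge
    have hx0' : x0 ≤ x := (le_max_left _ _).trans hx
    have hx2 : (2 : ℝ) ≤ x := hx0.trans hx0'
    have hxK : K * (2 + M) ≤ x := (le_max_right _ _).trans hx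
    have hKpos : (0 : ℝ) < K := by linarith
    have hM0 : (0 : ℝ) ≤ M := Nat.cast_nonneg _
    have hxK' : 2 + (M : ℝ) ≤ x / K := by
      rw [le_div_iff₀ hKpos]
      linarith
    have hKx : K < x := by nlinarith
    obtain ⟨r, hr⟩ := hcl L hL
    have hmem : ∀ p ∈ SS D A K x, p.Prime ∧ x / K < (p : ℝ) ∧ p ≤ ⌊x⌋₊ ∧
        ¬ IsSquare ((D : ℤ) : ZMod p) ∧ ∀ q : ℕ, q.Prime → q ∣ p + 1 → (q : ℝ) ^ A ≤ x := by
      intro p hp
      classical
      rw [SS, mem_filter, mem_Ioc] at hp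
      exact ⟨hp.2.1, Nat.lt_of_floor_lt hp.1.1, hp.1.2, hp.2.2.1, hp.2.2.2⟩
    have hclass : ∀ p ∈ SS D A K x, ∀ l, ∀ P Q : Pt ℚ (α l) (β l), rd p (P + L • Q) = rd p P := by
      intro p hp l P Q
      obtain ⟨h1, h2, h3, h4, h5⟩ := hmem p hp
      refine rd_cls h1 (hG l) ?_ h4 ?_ P Q
      · intro hpM
        have h6 : p ≤ M := Nat.le_of_dvd (Nat.pos_of_ne_zero (hG l).2.1) hpM
        have h7 : (p : ℝ) ≤ M := by exact_mod_cast h6
        linarith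
      · refine hdvd (p + 1) (by omega) ?_ h5
        have h7 : (p : ℝ) ≤ x := (Nat.cast_le.2 h3).trans (Nat.floor_le (by linarith))
        push_cast
        linarith
    have hunion := V2_union (ι := CA d) (H := H) (n := L ^ s)
      (fun c : CA d → ℤ => ∃ P : (l : Fin g) → Pt ℚ (α l) (β l),
        ∀ j, SA (fun t => ((c t : ℤ) : ℚ)) (fun l => op (P l)) j = 0)
      (fun i c => ∀ p ∈ SS D A K x, ∀ j, SA (fun t => ((c t : ℤ) : ZMod p)) (fun l => rd p (r i l)) j = 0)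
      (by
        rintro c - ⟨P, hP⟩
        obtain ⟨i, Q, hi⟩ := hr P
        refine ⟨i, fun p hp j => ?_⟩
        have h1 := locA (hmem p hp).1 hd c P j (hP j)
        have h2 : (fun l => rd p (P l)) = fun l => rd p (r i l) := by
          funext l
          have h3 := congrFun hi l
          rw [h3]
          exact hclass p hp l _ _
        rwa [h2] at h1)
      ((3 * (H : ℝ)) ^ (N - J) * (4 * x) ^ J)
      (fun i => by
        rw [hN]
        exact V2_class d H hH x K hK hKx (SS D A K x)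
          (fun p hp => ⟨(hmem p hp).1, (hmem p hp).2.1, (hmem p hp).2.2.1⟩)
          (fun p l => rd p (r i l))
          (fun t ht => hlog t ((hS x hx0').trans ht)))
    refine hunion.trans ?_
    calc ((L ^ s : ℕ) : ℝ) * ((3 * (H : ℝ)) ^ (N - J) * (4 * x) ^ J)
        = 3 ^ (N - J) * (H : ℝ) ^ (N - J) * ((L : ℝ) ^ s * (4 * x) ^ J) := by
          push_cast
          rw [mul_pow]
          ring
      _ ≤ 3 ^ (N - J) * (H : ℝ) ^ (N - J) * (H : ℝ) ^ ε :=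
          mul_le_mul_of_nonneg_left hLx (by positivity)
      _ = 3 ^ (N - J) * 1 * ((H : ℝ) ^ (N - J) * (H : ℝ) ^ ε) := by ring
      _ ≤ 3 ^ N * ((H0 : ℝ) + 1) ^ J * ((H : ℝ) ^ (N - J) * (H : ℝ) ^ ε) := by
          refine mul_le_mul_of_nonneg_right ?_ (by positivity)
          refine mul_le_mul ?_ hone zero_le_one (by positivity)
          exact pow_le_pow_right₀ (by norm_num) (by omega)

end MWS
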