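import Mathlib

/-!
# LEAF VA1: sums of periodic functions over boxes

PROOF.  `m = (2 H + 1) / q` (integer division).  The box `[-H, H]^ι` is the disjoint union of `B₁ = [-H, -H + m q)^ι` and the rest, which has `(2 H + 1)^N - (m q)^N ≤ N (2 H + 1 - m q) (2 H + 1)^(N - 1) ≤ N q (2 H + 1)^(N - 1)` elements (`N = card ι`; `a^N - b^N ≤ N (a - b) a^(N-1)`).
The sum over `B₁` is `0`: `[-H, -H + m q) = ⋃_{e < m} (-H + e q + [0, q))`, so `B₁` is the disjoint union over `e : ι → Fin m` of the translates of the cube `[0, q)^ι` by `-H + q e`; by periodicity (modulo `q` in every coordinate: `F (c + q • e) = F c`) and by the translation invariance of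
complete sums (the sum over any cube of side `q` is the sum over `ι → ZMod q` of the induced function) each of these sums is the one in `h0`.  Simplest: define `G : (ι → ZMod q) → ℝ` with `F c = G (fun i => c i)` (hypothesis `hG`), show that the number of `c ∈ B₁` with given image in `ι → ZMod q` is `m ^ N`
(product over the coordinates of `#{t ∈ [-H, -H + m q) : t = a mod q} = m`), so the sum over `B₁` is `m ^ N ∑ G = 0`.
-/

namespace MWS

open Finset

private theorem VA1_pow (a b : ℝ) (hb : 0 ≤ b) (hab : b ≤ a) (n : ℕ) :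
    a ^ n - b ^ n ≤ n * (a - b) * a ^ (n - 1) := by
  have ha : 0 ≤ a := hb.trans hab
  induction n with
  | zero => simp
  | succ n ih =>
    have h1 : a ^ (n + 1) - b ^ (n + 1) = a * (a ^ n - b ^ n) + (a - b) * b ^ n := by ring
    have h2 : b ^ n ≤ a ^ n := pow_le_pow_left₀ hb hab n
    have h3 : a * (a ^ n - b ^ n) ≤ a * (n * (a - b) * a ^ (n - 1)) := mul_le_mul_of_nonneg_left ih ha
    have h4 : (a - b) * b ^ n ≤ (a - b) * a ^ n := mul_le_mul_of_nonneg_left h2 (sub_nonneg.2 hab)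
    have h5 : a * ((n : ℝ) * (a - b) * a ^ (n - 1)) = n * (a - b) * a ^ n := by
      cases n with
      | zero => simp
      | succ k =>
        rw [Nat.add_sub_cancel]
        ring
    rw [h1, Nat.add_sub_cancel]
    push_cast
    nlinarith [h3, h4, h5]

private theorem VA1_count (q : ℕ) [NeZero q] (x : ℤ) (m : ℕ) (a : ZMod q) :
    ((Ico x (x + m * q)).filter fun t : ℤ => (t : ZMod q) = a).card = m := by
  obtain ⟨v, rfl⟩ := ZMod.intCast_surjective a
  have hq : (0 : ℤ) < (q : ℤ) := by exact_mod_cast Nat.pos_of_ne_zero (NeZero.ne q)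
  have hq' : ((q : ℤ) : ℚ) ≠ 0 := by exact_mod_cast (NeZero.ne q)
  have h := Int.Ico_filter_modEq_card x (x + m * q) hq v
  have e : ((Ico x (x + m * q)).filter fun t : ℤ => (t : ZMod q) = (v : ZMod q)) =
      (Ico x (x + m * q)).filter fun t : ℤ => t ≡ v [ZMOD q] :=
    filter_congr fun t _ => ZMod.intCast_eq_intCast_iff t v q
  rw [e]
  have h2 : (((x + m * q : ℤ) : ℚ) - v) / ((q : ℤ) : ℚ) = ((x : ℚ) - v) / ((q : ℤ) : ℚ) + (m : ℤ) := by
    push_cast
    have : (q : ℚ) ≠ 0 := by exact_mod_cast (NeZero.ne q)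
    field_simp
    ring
  rw [h2, Int.ceil_add_intCast] at h
  have h3 : (((Ico x (x + m * q)).filter fun t : ℤ => t ≡ v [ZMOD q]).card : ℤ) = m := by
    rw [h]
    rw [add_sub_cancel_left]
    exact max_eq_left (Int.natCast_nonneg m)
  exact_mod_cast h3

theorem boxsum {ι : Type} [Fintype ι] [DecidableEq ι] (q : ℕ) [NeZero q] (G : (ι → ZMod q) → ℝ) (h1 : ∀ a, |G a| ≤ 1)
    (h0 : ∑ a, G a = 0) (H : ℕ) :
    |∑ c ∈ Fintype.piFinset (fun _ : ι => Icc (-(H : ℤ)) H), G (fun i => ((c i : ℤ) : ZMod q))| ≤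
      (Fintype.card ι : ℝ) * q * (2 * (H : ℝ) + 1) ^ (Fintype.card ι - 1) := by
  classical
  set m : ℕ := (2 * H + 1) / q with hm
  have hmq : m * q ≤ 2 * H + 1 := Nat.div_mul_le_self _ _
  have hq : 0 < q := Nat.pos_of_ne_zero (NeZero.ne q)
  set B : Finset (ι → ℤ) := Fintype.piFinset (fun _ : ι => Icc (-(H : ℤ)) H) with hB
  set B₁ : Finset (ι → ℤ) := Fintype.piFinset (fun _ : ι => Ico (-(H : ℤ)) (-(H : ℤ) + m * q)) with hB₁
  have hsub : B₁ ⊆ B := by
    refine Fintype.piFinset_subset _ _ fun _ t ht => ?_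
    rw [mem_Ico] at ht
    rw [mem_Icc]
    have : ((m * q : ℕ) : ℤ) ≤ ((2 * H + 1 : ℕ) : ℤ) := by exact_mod_cast hmq
    push_cast at this
    exact ⟨ht.1, by linarith [ht.2]⟩
  have hcB : (B.card : ℝ) = (2 * (H : ℝ) + 1) ^ Fintype.card ι := by
    rw [hB, Fintype.card_piFinset, prod_const, card_univ, Int.card_Icc]
    have : ((H : ℤ) + 1 - -(H : ℤ)).toNat = 2 * H + 1 := by omega
    rw [this]
    push_cast
    ring
  have hcB₁ : (B₁.card : ℝ) = ((m : ℝ) * q) ^ Fintype.card ι := by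
    rw [hB₁, Fintype.card_piFinset, prod_const, card_univ, Int.card_Ico]
    have : (-(H : ℤ) + (m : ℤ) * (q : ℤ) - -(H : ℤ)).toNat = m * q := by
      have e : -(H : ℤ) + (m : ℤ) * (q : ℤ) - -(H : ℤ) = ((m * q : ℕ) : ℤ) := by push_cast; ring
      rw [e, Int.toNat_natCast]
    rw [this]
    push_cast
    ring
  have hzero : ∑ c ∈ B₁, G (fun i => ((c i : ℤ) : ZMod q)) = 0 := by
    have h2 := sum_fiberwise B₁ (fun c : ι → ℤ => fun i => ((c i : ℤ) : ZMod q))
      (fun c => G (fun i => ((c i : ℤ) : ZMod q)))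
    rw [← h2]
    have h3 : ∀ a : ι → ZMod q, ∑ c ∈ B₁ with (fun i => ((c i : ℤ) : ZMod q)) = a,
        G (fun i => ((c i : ℤ) : ZMod q)) = (m : ℝ) ^ Fintype.card ι * G a := by
      intro a
      have h4 : ∑ c ∈ B₁ with (fun i => ((c i : ℤ) : ZMod q)) = a,
          G (fun i => ((c i : ℤ) : ZMod q)) =
          ∑ c ∈ B₁ with (fun i => ((c i : ℤ) : ZMod q)) = a, G a := by
        refine sum_congr rfl fun c hc => ?_
        rw [(mem_filter.1 hc).2]
      rw [h4, sum_const, nsmul_eq_mul]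
      congr 1
      have h5 : (B₁.filter fun c => (fun i => ((c i : ℤ) : ZMod q)) = a) =
          Fintype.piFinset fun i : ι =>
            (Ico (-(H : ℤ)) (-(H : ℤ) + m * q)).filter fun t : ℤ => (t : ZMod q) = a i := by
        ext c
        rw [mem_filter, hB₁, Fintype.mem_piFinset, Fintype.mem_piFinset, funext_iff]
        constructor
        · rintro ⟨h6, h7⟩ i
          exact mem_filter.2 ⟨h6 i, h7 i⟩
        · intro h6
          exact ⟨fun i => (mem_filter.1 (h6 i)).1, fun i => (mem_filter.1 (h6 i)).2⟩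
      rw [h5, Fintype.card_piFinset]
      simp only [VA1_count, prod_const, card_univ]
      push_cast
      rfl
    simp only [h3]
    rw [← mul_sum, h0, mul_zero]
  rw [← sum_sdiff hsub, hzero, add_zero]
  have h2 : |∑ c ∈ B \ B₁, G (fun i => ((c i : ℤ) : ZMod q))| ≤ ((B \ B₁).card : ℝ) := by
    refine (abs_sum_le_sum_abs _ _).trans ?_
    refine (sum_le_sum fun c _ => h1 _).trans ?_
    rw [sum_const, nsmul_eq_mul, mul_one]
  refine h2.trans ?_
  have h3 : ((B \ B₁).card : ℝ) = (2 * (H : ℝ) + 1) ^ Fintype.card ι - ((m : ℝ) * q) ^ Fintype.card ι := by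
    have h4 := card_sdiff_add_card_eq_card hsub
    have h5 : ((B \ B₁).card : ℝ) + (B₁.card : ℝ) = (B.card : ℝ) := by exact_mod_cast h4
    rw [← hcB, ← hcB₁]
    linarith
  rw [h3]
  have hb : (0 : ℝ) ≤ (m : ℝ) * q := by positivity
  have hab : (m : ℝ) * q ≤ 2 * (H : ℝ) + 1 := by exact_mod_cast hmq
  refine (VA1_pow _ _ hb hab _).trans ?_
  have h6 : 2 * (H : ℝ) + 1 - (m : ℝ) * q ≤ q := by
    have h7 : 2 * H + 1 ≤ m * q + q := by
      have h8 := Nat.div_add_mod (2 * H + 1) q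
      have h9 := Nat.mod_lt (2 * H + 1) hq
      rw [← hm, mul_comm] at h8
      omega
    have h8 : 2 * (H : ℝ) + 1 ≤ (m : ℝ) * q + q := by exact_mod_cast h7
    linarith
  have hp : (0 : ℝ) ≤ (2 * (H : ℝ) + 1) ^ (Fintype.card ι - 1) := by positivity
  have hN : (0 : ℝ) ≤ (Fintype.card ι : ℝ) := Nat.cast_nonneg _
  exact mul_le_mul_of_nonneg_right (mul_le_mul_of_nonneg_left h6 hN) hp

end MWS
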