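import Pool.Agent.Lib.MP_10e784_agV.Defs
import Pool.Agent.Lib.MP_10e784_agW.LA

/-!
# LEAF VB1: the reduction of the values of the basis of `L(2 d O)`

PROOF (compare `loc` in the folder agW).  `P = O`: `λ = 1`, `μ = 1` (`rd p 0 = none`).  `P = (x, y)`, `p ∤ x.den`: `p ∤ y.den` (`den_xy`), `λ = 1`, `μ = 1`, `rc` of powers and products (`rc_mul`, `rc_int`).
`p ∣ x.den`: `x = u / e²`, `y = v / e³` with `(u, e) = (v, e) = 1`, `p ∣ e` (from the equation; `x.den ^ 3 = y.den ^ 2`; it is enough to have it `p`-adically: `λ` with `v_p(λ) = 2 k d`, where `v_p(x) = -2k`, `v_p(y) = -3k`, for instance `λ = (x⁻¹) ^ d`): take `λ = (x⁻¹) ^ d` (`x ≠ 0`):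
`λ x^i = (x⁻¹)^(d - i)` is integral, `≡ 0` for `i < d`, `= 1` for `i = d`; `λ x^i y = (x⁻¹)^(d - i - 2) (y / x²)` for `i ≤ d - 2` with `y / x²` of valuation `k > 0`: integral and `≡ 0` (`(y/x²)² = y²/x⁴ = x⁻¹ + α x⁻³ + β x⁻⁴` is integral and `≡ 0`).  So `μ = 1`.
-/

namespace MWS

/-- `p`-integral with residue `r` -/
private def VB1r (p : ℕ) (x : ℚ) (r : ZMod p) : Prop := ¬ p ∣ x.den ∧ rc p x = r

private theorem VB1r_add {p : ℕ} (hp : p.Prime) {x y : ℚ} {r s : ZMod p} (hx : VB1r p x r) (hy : VB1r p y s) :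
    VB1r p (x + y) (r + s) := by
  have h := rc_add hp hx.1 hy.1
  exact ⟨h.1, by rw [h.2, hx.2, hy.2]⟩

private theorem VB1r_mul {p : ℕ} (hp : p.Prime) {x y : ℚ} {r s : ZMod p} (hx : VB1r p x r) (hy : VB1r p y s) :
    VB1r p (x * y) (r * s) := by
  have h := rc_mul hp hx.1 hy.1
  exact ⟨h.1, by rw [h.2, hx.2, hy.2]⟩

private theorem VB1r_int {p : ℕ} (hp : p.Prime) (a : ℤ) : VB1r p (a : ℚ) (a : ZMod p) := rc_int hp a

private theorem VB1r_one {p : ℕ} (hp : p.Prime) : VB1r p 1 1 := by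
  have h := VB1r_int hp 1
  simpa using h

private theorem VB1r_zero {p : ℕ} (hp : p.Prime) : VB1r p 0 0 := by
  have h := VB1r_int hp 0
  simpa using h

private theorem VB1r_pow {p : ℕ} (hp : p.Prime) {x : ℚ} {r : ZMod p} (hx : VB1r p x r) (n : ℕ) :
    VB1r p (x ^ n) (r ^ n) := by
  induction n with
  | zero =>
    rw [pow_zero, pow_zero]
    exact VB1r_one hp
  | succ n ih =>
    rw [pow_succ, pow_succ]
    exact VB1r_mul hp ih hx

private theorem VB1r_sq {p : ℕ} (hp : p.Prime) {x : ℚ} {r : ZMod p} (h : VB1r p (x ^ 2) r) :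
    VB1r p x (rc p x) ∧ rc p x ^ 2 = r := by
  have h1 := int_of_sq hp h.1
  have h2 : VB1r p x (rc p x) := ⟨h1, rfl⟩
  exact ⟨h2, by rw [← (VB1r_pow hp h2 2).2, h.2]⟩

private theorem VB1r_inv {p : ℕ} (hp : p.Prime) {x : ℚ} (hx : p ∣ x.den) : x ≠ 0 ∧ VB1r p x⁻¹ 0 := by
  have h0 : x ≠ 0 := by
    rintro rfl
    exact hp.one_lt.ne' (Nat.dvd_one.1 hx)
  refine ⟨h0, ?_, ?_⟩
  · rw [Rat.den_inv_of_ne_zero h0]
    intro h
    exact hp.one_lt.ne' (Nat.dvd_one.1 (x.reduced ▸ Nat.dvd_gcd h hx))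
  · unfold rc
    rw [Rat.num_inv, Int.cast_mul]
    have h1 : (((x.den : ℕ) : ℤ) : ZMod p) = 0 := by
      rw [Int.cast_natCast]
      exact (ZMod.natCast_eq_zero_iff _ _).2 hx
    rw [h1, mul_zero, zero_mul]

theorem bv_red {p : ℕ} (hp : p.Prime) {α β : ℤ} {d : ℕ} (hd : 1 ≤ d) (P : Pt ℚ α β) :
    ∃ (lam : ℚ) (μ : ZMod p), lam ≠ 0 ∧ μ ≠ 0 ∧ ∀ k : Bs d,
      ¬ p ∣ (lam * bv (op P) k).den ∧ rc p (lam * bv (op P) k) = μ * bv (rd p P) k := by
  have hfact : Fact p.Prime := ⟨hp⟩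
  rcases P with _ | ⟨x, y, hxy⟩
  · refine ⟨1, 1, one_ne_zero, one_ne_zero, fun k => ?_⟩
    rw [one_mul, one_mul]
    show VB1r p (bv (none : Option (ℚ × ℚ)) k) (bv (none : Option (ZMod p × ZMod p)) k)
    rcases k with i | i
    · show VB1r p (if i = Fin.last d then 1 else 0) (if i = Fin.last d then 1 else 0)
      by_cases hi : i = Fin.last d
      · rw [if_pos hi, if_pos hi]
        exact VB1r_one hp
      · rw [if_neg hi, if_neg hi]
        exact VB1r_zero hp
    · exact VB1r_zero hp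
  · have he : y ^ 2 = x ^ 3 + (α : ℚ) * x + (β : ℚ) := (EW_eqn α β x y).1 hxy.1
    by_cases hx : p ∣ x.den
    · have h1 : rd p (.some x y hxy : Pt ℚ α β) = none := by
        show (if p ∣ x.den then none else some (rc p x, rc p y)) = none
        rw [if_pos hx]
      rw [h1]
      obtain ⟨hx0, ht⟩ := VB1r_inv hp hx
      set t : ℚ := x⁻¹ with htdef
      have hxt : x * t = 1 := mul_inv_cancel₀ hx0
      have ht0 : t ≠ 0 := inv_ne_zero hx0
      set s : ℚ := y * t ^ 2 with hsdef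
      have hs2 : s ^ 2 = t + (α : ℚ) * t ^ 3 + (β : ℚ) * t ^ 4 := by
        have e1 : s ^ 2 = y ^ 2 * t ^ 4 := by rw [hsdef]; ring
        rw [e1, he]
        have e2 : x ^ 3 * t ^ 4 = t := by
          have : x ^ 3 * t ^ 4 = (x * t) ^ 3 * t := by ring
          rw [this, hxt]; ring
        have e3 : x * t ^ 4 = t ^ 3 := by
          have : x * t ^ 4 = (x * t) * t ^ 3 := by ring
          rw [this, hxt]; ring
        linear_combination e2 + (α : ℚ) * e3
      have hs2r : VB1r p (s ^ 2) 0 := by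
        rw [hs2]
        have h3 := VB1r_add hp (VB1r_add hp ht (VB1r_mul hp (VB1r_int hp α) (VB1r_pow hp ht 3)))
          (VB1r_mul hp (VB1r_int hp β) (VB1r_pow hp ht 4))
        simpa using h3
      have hs : VB1r p s 0 := by
        obtain ⟨h3, h4⟩ := VB1r_sq hp hs2r
        have h5 : rc p s = 0 := by
          have := pow_eq_zero_iff (two_ne_zero) |>.1 h4
          exact this
        rwa [h5] at h3
      refine ⟨t ^ d, 1, pow_ne_zero _ ht0, one_ne_zero, fun k => ?_⟩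
      rw [one_mul]
      rcases k with i | i
      · show VB1r p (t ^ d * x ^ (i : ℕ)) (if i = Fin.last d then 1 else 0)
        have hi : (i : ℕ) ≤ d := Nat.lt_succ_iff.1 i.2
        have e4 : t ^ d * x ^ (i : ℕ) = t ^ (d - (i : ℕ)) := by
          have e5 : t ^ d = t ^ (i : ℕ) * t ^ (d - (i : ℕ)) := by rw [← pow_add, Nat.add_sub_cancel' hi]
          have e6 : x ^ (i : ℕ) * t ^ (i : ℕ) = 1 := by rw [← mul_pow, hxt, one_pow]
          rw [e5]
          linear_combination (t ^ (d - (i : ℕ))) * e6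
        rw [e4]
        by_cases hl : i = Fin.last d
        · have h6 : (i : ℕ) = d := by rw [hl]; rfl
          rw [if_pos hl, h6, Nat.sub_self, pow_zero]
          exact VB1r_one hp
        · have h6 : (i : ℕ) < d := lt_of_le_of_ne hi fun h7 => hl (Fin.ext (by rw [h7]; rfl))
          rw [if_neg hl]
          have h7 := VB1r_pow hp ht (d - (i : ℕ))
          rwa [zero_pow (by omega)] at h7
      · show VB1r p (t ^ d * (x ^ (i : ℕ) * y)) 0
        have hi : (i : ℕ) < d - 1 := i.2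
        have hi2 : (i : ℕ) + 2 ≤ d := by omega
        have e4 : t ^ d * (x ^ (i : ℕ) * y) = t ^ (d - ((i : ℕ) + 2)) * s := by
          have e5 : t ^ d = t ^ (i : ℕ) * t ^ 2 * t ^ (d - ((i : ℕ) + 2)) := by
            rw [← pow_add, ← pow_add, Nat.add_sub_cancel' hi2]
          have e6 : x ^ (i : ℕ) * t ^ (i : ℕ) = 1 := by rw [← mul_pow, hxt, one_pow]
          rw [e5, hsdef]
          linear_combination (t ^ 2 * y * t ^ (d - ((i : ℕ) + 2))) * e6
        rw [e4]
        have h7 := VB1r_mul hp (VB1r_pow hp ht (d - ((i : ℕ) + 2))) hs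
        rwa [mul_zero] at h7
    · have h1 : rd p (.some x y hxy : Pt ℚ α β) = some (rc p x, rc p y) := by
        show (if p ∣ x.den then none else some (rc p x, rc p y)) = some (rc p x, rc p y)
        rw [if_neg hx]
      rw [h1]
      have hy : ¬ p ∣ y.den := fun h2 => hx ((den_xy hp he).2 h2)
      refine ⟨1, 1, one_ne_zero, one_ne_zero, fun k => ?_⟩
      rw [one_mul, one_mul]
      rcases k with i | i
      · show VB1r p (x ^ (i : ℕ)) (rc p x ^ (i : ℕ))
        exact VB1r_pow hp ⟨hx, rfl⟩ _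
      · show VB1r p (x ^ (i : ℕ) * y) (rc p x ^ (i : ℕ) * rc p y)
        exact VB1r_mul hp (VB1r_pow hp ⟨hx, rfl⟩ _) ⟨hy, rfl⟩

end MWS
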